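import Mathlib
import Pool.Agent.Y263.GF.Loc

/-!
Potentials with rapidly decreasing kernels: solutions of the d-bar equation on strips.
-/

set_option autoImplicit false
set_option linter.unusedSectionVars false

open MeasureTheory Metric Set Filter Topology Complex
open scoped ContDiff

namespace Pool.Agent.R223.Tor

open Pool.Agent.H720R2 Pool.Agent.H720R2.HP
open Pool.Agent.Y263.GF (WD_mono)

/-- the entire function `(e^u - 1) / u` -/
noncomputable def E1 (u : ℂ) : ℂ := dslope Complex.exp 0 u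

theorem E1_diff : Differentiable ℂ E1 := by
  have h := (Complex.differentiableOn_dslope (f := Complex.exp) (c := 0) (s := univ)
    univ_mem).2 Complex.differentiable_exp.differentiableOn
  exact differentiableOn_univ.1 h

theorem E1_zero : E1 0 = 1 := by
  unfold E1
  rw [dslope_same]
  simp

theorem E1_of_ne {u : ℂ} (h : u ≠ 0) : E1 u = (Complex.exp u - 1) / u := by
  unfold E1
  rw [dslope_of_ne _ h, slope_def_field]
  simp

theorem E1_le (u : ℂ) : ‖E1 u‖ * (1 + ‖u‖) ≤ 4 * Real.exp (max u.re 0) := by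
  have h0 : 1 ≤ Real.exp (max u.re 0) := Real.one_le_exp (le_max_right _ _)
  by_cases hu : u = 0
  · rw [hu, E1_zero]
    simp only [norm_one, norm_zero, add_zero, mul_one, zero_re, max_self, Real.exp_zero]
    norm_num
  have hn : 0 < ‖u‖ := norm_pos_iff.2 hu
  rw [E1_of_ne hu, norm_div]
  rcases le_or_gt ‖u‖ 1 with h | h
  · have h1 := Complex.norm_exp_sub_one_le h
    have h2 : ‖Complex.exp u - 1‖ / ‖u‖ ≤ 2 := by
      rw [div_le_iff₀ hn]
      exact h1
    calc ‖Complex.exp u - 1‖ / ‖u‖ * (1 + ‖u‖) ≤ 2 * 2 := by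
          gcongr
          linarith
      _ ≤ 4 * Real.exp (max u.re 0) := by linarith
  · have h1 : ‖Complex.exp u - 1‖ ≤ 2 * Real.exp (max u.re 0) := by
      refine (norm_sub_le _ _).trans ?_
      rw [Complex.norm_exp, norm_one]
      have h2 : Real.exp u.re ≤ Real.exp (max u.re 0) := Real.exp_le_exp.2 (le_max_left _ _)
      linarith
    have h3 : (1 + ‖u‖) / ‖u‖ ≤ 2 := by
      rw [div_le_iff₀ hn]
      linarith
    calc ‖Complex.exp u - 1‖ / ‖u‖ * (1 + ‖u‖) = ‖Complex.exp u - 1‖ * ((1 + ‖u‖) / ‖u‖) := by ring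
      _ ≤ (2 * Real.exp (max u.re 0)) * 2 := by gcongr
      _ = _ := by ring

/-- the kernel -/
noncomputable def E2 (u : ℂ) : ℂ := E1 (u / 2) ^ 2

theorem E2_diff : Differentiable ℂ E2 := by
  unfold E2
  exact (E1_diff.comp (by fun_prop : Differentiable ℂ fun u : ℂ => u / 2)).pow 2

theorem E2_zero : E2 0 = 1 := by
  unfold E2
  rw [zero_div, E1_zero, one_pow]

theorem E2_le (u : ℂ) : ‖E2 u‖ ≤ 64 * Real.exp (max u.re 0) * (1 + ‖u‖ ^ 2)⁻¹ := by
  have h1 := E1_le (u / 2)
  have h2 : ‖u / 2‖ = ‖u‖ / 2 := by simp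
  have h3 : (u / 2).re = u.re / 2 := by simp
  rw [h2, h3] at h1
  have hn := norm_nonneg u
  have h4 : Real.exp (max (u.re / 2) 0) ^ 2 = Real.exp (max u.re 0) := by
    rw [← Real.exp_nat_mul]
    congr 1
    push_cast
    rw [mul_max_of_nonneg _ _ (by norm_num : (0 : ℝ) ≤ 2)]
    congr 1 <;> ring
  have h5 : (‖E1 (u / 2)‖ * (1 + ‖u‖ / 2)) ^ 2 ≤ (4 * Real.exp (max (u.re / 2) 0)) ^ 2 := by
    gcongr
  rw [mul_pow, mul_pow, h4] at h5
  unfold E2
  rw [norm_pow, ← div_eq_mul_inv, le_div_iff₀ (by positivity)]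
  have h6 : (1 + ‖u‖ ^ 2) / 4 ≤ (1 + ‖u‖ / 2) ^ 2 := by nlinarith
  have h7 : ‖E1 (u / 2)‖ ^ 2 * ((1 + ‖u‖ ^ 2) / 4) ≤ ‖E1 (u / 2)‖ ^ 2 * (1 + ‖u‖ / 2) ^ 2 := by
    gcongr
  nlinarith

/-- the dominating function -/
noncomputable def kf (u : ℂ) : ℝ := ‖u‖⁻¹ * (1 + ‖u‖ ^ 2)⁻¹

theorem kf_int : Integrable kf := by
  have h := (integrable_fun_norm_addHaar (E := ℂ) (volume : Measure ℂ)
    (f := fun y : ℝ => y⁻¹ * (1 + y ^ 2)⁻¹)).2 (by
      rw [Complex.finrank_real_complex]
      have h1 : IntegrableOn (fun y : ℝ => (1 + y ^ 2)⁻¹) (Ioi 0) :=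
        integrable_inv_one_add_sq.integrableOn
      refine h1.congr_fun ?_ measurableSet_Ioi
      intro y hy
      have hy0 : (y : ℝ) ≠ 0 := ne_of_gt hy
      simp only [Nat.add_one_sub_one, pow_one, smul_eq_mul]
      rw [← mul_assoc, mul_inv_cancel₀ hy0, one_mul])
  exact h

theorem kf_nonneg (u : ℂ) : 0 ≤ kf u := by
  unfold kf
  positivity

/-- the constant -/
noncomputable def kI : ℝ := ∫ u, kf u

theorem kI_nonneg : 0 ≤ kI := integral_nonneg kf_nonneg

theorem kf_int' (w : ℂ) : Integrable (fun ζ : ℂ => kf (w - ζ)) := kf_int.comp_sub_left w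

theorem kf_integral (w : ℂ) : ∫ ζ : ℂ, kf (w - ζ) = kI := integral_sub_left_eq_self kf volume w

/-- the rectangle -/
def Rc (L : ℝ) : Set ℂ := {s | |s.re| < 1 ∧ |s.im| < L}

theorem Rc_open (L : ℝ) : IsOpen (Rc L) :=
  (isOpen_lt (continuous_abs.comp Complex.continuous_re) continuous_const).inter
    (isOpen_lt (continuous_abs.comp Complex.continuous_im) continuous_const)

section

variable {Θ : Type} [MeasurableSpace Θ] {ν : Θ → ℂ → ℂ} {L : Θ → ℝ} {M : ℝ}

/-- the potential of the density `ν θ` -/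
noncomputable def Po (σ : ℝ) (ν : Θ → ℂ → ℂ) (θ : Θ) (w : ℂ) : ℂ :=
  CT (fun ζ w => ν θ ζ * E2 ((σ : ℂ) * (w - ζ))) w

/-- hypotheses on the density -/
structure Dn (ν : Θ → ℂ → ℂ) (L : Θ → ℝ) (M : ℝ) : Prop where
  meas : Measurable (fun q : Θ × ℂ => ν q.1 q.2)
  bd : ∀ θ ζ, ‖ν θ ζ‖ ≤ M
  supp : ∀ θ ζ, ζ ∉ Rc (L θ) → ν θ ζ = 0

theorem Po_meas {σ : ℝ} (h : Dn ν L M) : Measurable (fun q : Θ × ℂ => Po σ ν q.1 q.2) := by
  have key : Measurable (fun x : (Θ × ℂ) × ℂ =>
      ν x.1.1 x.2 * E2 ((σ : ℂ) * (x.1.2 - x.2)) / (x.1.2 - x.2)) := by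
    have h1 : Measurable (fun x : (Θ × ℂ) × ℂ => ν x.1.1 x.2) := by
      have h2 : Measurable (fun x : (Θ × ℂ) × ℂ => (x.1.1, x.2)) := by fun_prop
      exact h.meas.comp h2
    have h3 : Measurable (fun x : (Θ × ℂ) × ℂ => (x.1.2 - x.2)) := by fun_prop
    have h4 : Measurable (fun x : (Θ × ℂ) × ℂ => E2 ((σ : ℂ) * (x.1.2 - x.2))) :=
      E2_diff.continuous.measurable.comp (h3.const_mul _)
    exact (h1.mul h4).div h3
  have h1 := (key.stronglyMeasurable.integral_prod_right' (ν := (volume : Measure ℂ))).measurable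
  exact h1.const_mul (1 / Real.pi : ℂ)

theorem Po_ker {σ : ℝ} (hσ : |σ| = 1) (h : Dn ν L M) (θ : Θ) (ζ w : ℂ) :
    ‖ν θ ζ * E2 ((σ : ℂ) * (w - ζ)) / (w - ζ)‖ ≤
      64 * M * Real.exp (1 + max (σ * w.re) 0) * kf (w - ζ) := by
  have hM : 0 ≤ M := (norm_nonneg _).trans (h.bd θ ζ)
  by_cases hζ : ζ ∈ Rc (L θ)
  · have h1 := E2_le ((σ : ℂ) * (w - ζ))
    have h2 : ‖(σ : ℂ) * (w - ζ)‖ = ‖w - ζ‖ := by
      rw [norm_mul, Complex.norm_real, Real.norm_eq_abs, hσ, one_mul]
    have h3 : ((σ : ℂ) * (w - ζ)).re = σ * w.re - σ * ζ.re := by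
      simp
      ring
    have h4 : max ((σ : ℂ) * (w - ζ)).re 0 ≤ 1 + max (σ * w.re) 0 := by
      rw [h3]
      refine max_le ?_ ?_
      · have h5 : -(σ * ζ.re) ≤ 1 := by
          refine (neg_le_abs _).trans ?_
          rw [abs_mul, hσ, one_mul]
          exact hζ.1.le
        have h6 := le_max_left (σ * w.re) 0
        linarith
      · have h6 := le_max_right (σ * w.re) 0
        linarith
    rw [h2] at h1
    have h5 := Real.exp_le_exp.2 h4
    rw [norm_div, norm_mul, div_eq_mul_inv]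
    unfold kf
    have h6 := h.bd θ ζ
    calc ‖ν θ ζ‖ * ‖E2 ((σ : ℂ) * (w - ζ))‖ * ‖w - ζ‖⁻¹
        ≤ M * (64 * Real.exp (1 + max (σ * w.re) 0) * (1 + ‖w - ζ‖ ^ 2)⁻¹) * ‖w - ζ‖⁻¹ := by
          gcongr
          refine h1.trans ?_
          gcongr
      _ = _ := by ring
  · rw [h.supp θ ζ hζ, zero_mul, zero_div, norm_zero]
    have := kf_nonneg (w - ζ)
    positivity

theorem Po_bd {σ : ℝ} (hσ : |σ| = 1) (h : Dn ν L M) (θ : Θ) (w : ℂ) :
    ‖Po σ ν θ w‖ ≤ 64 * kI * M * Real.exp (1 + max (σ * w.re) 0) := by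
  have hM : 0 ≤ M := (norm_nonneg _).trans (h.bd θ 0)
  have h1 : ‖∫ ζ, ν θ ζ * E2 ((σ : ℂ) * (w - ζ)) / (w - ζ)‖ ≤
      64 * M * Real.exp (1 + max (σ * w.re) 0) * kI := by
    rw [← kf_integral w, ← integral_const_mul]
    refine norm_integral_le_of_norm_le ((kf_int' w).const_mul _)
      (Eventually.of_forall fun ζ => Po_ker hσ h θ ζ w)
  unfold Po CT
  rw [norm_mul, norm_div, norm_one, Complex.norm_real, Real.norm_of_nonneg Real.pi_pos.le]
  have h2 : 1 / Real.pi ≤ 1 := by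
    rw [div_le_one Real.pi_pos]
    have := Real.pi_gt_three
    linarith
  have h3 : 0 ≤ 64 * M * Real.exp (1 + max (σ * w.re) 0) * kI := by
    have := kI_nonneg
    positivity
  calc 1 / Real.pi * ‖∫ ζ, ν θ ζ * E2 ((σ : ℂ) * (w - ζ)) / (w - ζ)‖
      ≤ 1 * (64 * M * Real.exp (1 + max (σ * w.re) 0) * kI) := by gcongr
    _ = _ := by ring

theorem Po_WD {σ : ℝ} (hσ : |σ| = 1) (h : Dn ν L M) (θ : Θ) {R : ℝ} :
    WD {w : ℂ | |w.re| < R} (Po σ ν θ) (ν θ) := by
  have hM : 0 ≤ M := (norm_nonneg _).trans (h.bd θ 0)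
  have hΩ : IsOpen {w : ℂ | |w.re| < R} :=
    isOpen_lt (continuous_abs.comp Complex.continuous_re) continuous_const
  set B : ℂ → ℂ → ℂ := fun ζ w => {w : ℂ | |w.re| < R}.indicator
    (fun w => ν θ ζ * E2 ((σ : ℂ) * (w - ζ))) w with hB
  have hLn : 0 ≤ |L θ| := abs_nonneg _
  have h1 := CT_weak (B := B) (ρ := 2 + |L θ|) (M := M * (64 * Real.exp (1 + |R|))) hΩ
    (by positivity) (by positivity) (by
      have h2 : (fun p : ℂ × ℂ => B p.1 p.2) = {p : ℂ × ℂ | |p.2.re| < R}.indicator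
          (fun p => ν θ p.1 * E2 ((σ : ℂ) * (p.2 - p.1))) := by
        funext p
        by_cases hp : |p.2.re| < R
        · have h3 : p ∈ {p : ℂ × ℂ | |p.2.re| < R} := hp
          rw [indicator_of_mem h3]
          exact indicator_of_mem (show p.2 ∈ {w : ℂ | |w.re| < R} from hp) _
        · have h3 : p ∉ {p : ℂ × ℂ | |p.2.re| < R} := hp
          rw [indicator_of_notMem h3]
          exact indicator_of_notMem (show p.2 ∉ {w : ℂ | |w.re| < R} from hp) _
      rw [h2]
      refine Measurable.indicator ?_ (hΩ.measurableSet.preimage measurable_snd)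
      have h3 : Measurable (fun p : ℂ × ℂ => ν θ p.1) := by
        have h4 : Measurable (fun p : ℂ × ℂ => (θ, p.1)) := by fun_prop
        exact h.meas.comp h4
      have h5 : Measurable (fun p : ℂ × ℂ => E2 ((σ : ℂ) * (p.2 - p.1))) :=
        E2_diff.continuous.measurable.comp (by fun_prop)
      exact h3.mul h5) (by
      intro ζ
      have h3 : DifferentiableOn ℂ (fun w => ν θ ζ * E2 ((σ : ℂ) * (w - ζ)))
          {w : ℂ | |w.re| < R} :=
        ((E2_diff.comp (by fun_prop : Differentiable ℂ fun w : ℂ => (σ : ℂ) * (w - ζ))).const_mul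
          _).differentiableOn
      exact h3.congr fun w hw => indicator_of_mem hw _) (by
      intro ζ w
      by_cases hζ : ζ ∈ Rc (L θ)
      · have h3 : ζ ∈ ball (0 : ℂ) (2 + |L θ|) := by
          rw [mem_ball_zero_iff]
          have h4 := Complex.norm_le_abs_re_add_abs_im ζ
          have h5 := hζ.1
          have h6 := hζ.2
          have h7 := le_abs_self (L θ)
          linarith
        rw [indicator_of_mem h3]
        by_cases hw : |w.re| < R
        · have h4 : B ζ w = ν θ ζ * E2 ((σ : ℂ) * (w - ζ)) :=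
            indicator_of_mem (show w ∈ {w : ℂ | |w.re| < R} from hw) _
          rw [h4, norm_mul]
          have h5 := E2_le ((σ : ℂ) * (w - ζ))
          have h6 : max ((σ : ℂ) * (w - ζ)).re 0 ≤ 1 + |R| := by
            have h7 : ((σ : ℂ) * (w - ζ)).re = σ * w.re - σ * ζ.re := by
              simp
              ring
            have h8 : |σ * w.re| = |w.re| := by rw [abs_mul, hσ, one_mul]
            have h9 : |σ * ζ.re| = |ζ.re| := by rw [abs_mul, hσ, one_mul]
            have h10 := le_abs_self (σ * w.re)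
            have h11 := neg_abs_le (σ * ζ.re)
            have h12 := hζ.1
            have h13 := le_abs_self R
            rw [h7]
            refine max_le (by linarith) (by positivity)
          have h7 : (1 + ‖(σ : ℂ) * (w - ζ)‖ ^ 2)⁻¹ ≤ 1 := by
            refine inv_le_one_of_one_le₀ ?_
            nlinarith [sq_nonneg ‖(σ : ℂ) * (w - ζ)‖]
          have h8 := Real.exp_le_exp.2 h6
          have h9 := h.bd θ ζ
          have h10 : 0 ≤ (1 + ‖(σ : ℂ) * (w - ζ)‖ ^ 2)⁻¹ := by positivity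
          calc ‖ν θ ζ‖ * ‖E2 ((σ : ℂ) * (w - ζ))‖ ≤ M * (64 * Real.exp (1 + |R|) * 1) := by
                gcongr
                refine h5.trans ?_
                gcongr
            _ = _ := by ring
        · have h4 : B ζ w = 0 :=
            indicator_of_notMem (show w ∉ {w : ℂ | |w.re| < R} from hw) _
          rw [h4, norm_zero]
          positivity
      · have h3 : B ζ w = 0 := by
          rw [hB]
          beta_reduce
          by_cases hw : |w.re| < R
          · rw [indicator_of_mem (show w ∈ {w : ℂ | |w.re| < R} from hw), h.supp θ ζ hζ, zero_mul]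
          · rw [indicator_of_notMem (show w ∉ {w : ℂ | |w.re| < R} from hw)]
        rw [h3, norm_zero]
        exact indicator_nonneg (fun _ _ => by positivity) _)
  refine h1.congr hΩ (fun w hw => ?_) (fun w hw => ?_)
  · unfold Po CT
    congr 1
    refine integral_congr_ae (Eventually.of_forall fun ζ => ?_)
    have h2 : B ζ w = ν θ ζ * E2 ((σ : ℂ) * (w - ζ)) := indicator_of_mem hw _
    simp only []
    rw [h2]
  · have h2 : B w w = ν θ w * E2 ((σ : ℂ) * (w - w)) := indicator_of_mem hw _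
    rw [h2, sub_self, mul_zero, E2_zero, mul_one]

end

end Pool.Agent.R223.Tor
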