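import Mathlib
import Pool.Agent.R223.Tor.Pot

/-!
Bounded holomorphic functions on rectangles: sums of bounded functions on two half planes and of a
function of exponential type.
-/

set_option autoImplicit false
set_option linter.unusedSectionVars false

open MeasureTheory Metric Set Filter Topology Complex
open scoped ContDiff

namespace Pool.Agent.R223.Tor

open Pool.Agent.H720R2 Pool.Agent.H720R2.HP
open Pool.Agent.Y263.GF (WD_mono)

noncomputable def st (x : ℝ) : ℝ := Real.smoothTransition x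

theorem st_cd : ContDiff ℝ 1 st := Real.smoothTransition.contDiff

theorem st_nonneg (x : ℝ) : 0 ≤ st x := Real.smoothTransition.nonneg x

theorem st_le (x : ℝ) : st x ≤ 1 := Real.smoothTransition.le_one x

theorem st_zero {x : ℝ} (h : x ≤ 0) : st x = 0 := Real.smoothTransition.zero_of_nonpos h

theorem st_one {x : ℝ} (h : 1 ≤ x) : st x = 1 := Real.smoothTransition.one_of_one_le h

theorem st_dneg {x : ℝ} (h : x < 0) : deriv st x = 0 := by
  have h1 : st =ᶠ[𝓝 x] fun _ => (0 : ℝ) := by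
    filter_upwards [gt_mem_nhds h] with y hy
    exact st_zero hy.le
  rw [h1.deriv_eq]
  simp

theorem st_dgt {x : ℝ} (h : 1 < x) : deriv st x = 0 := by
  have h1 : st =ᶠ[𝓝 x] fun _ => (1 : ℝ) := by
    filter_upwards [lt_mem_nhds h] with y hy
    exact st_one hy.le
  rw [h1.deriv_eq]
  simp

theorem st_dcont : Continuous (deriv st) := st_cd.continuous_deriv le_rfl

theorem st_has (x : ℝ) : HasDerivAt st (deriv st x) x :=
  (st_cd.differentiable one_ne_zero x).hasDerivAt

theorem st_dbd : ∃ C : ℝ, 0 ≤ C ∧ ∀ x, |deriv st x| ≤ C := by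
  obtain ⟨C, hC⟩ := isCompact_Icc.exists_bound_of_continuousOn
    (s := Icc (0 : ℝ) 1) (f := deriv st) st_dcont.continuousOn
  refine ⟨max C 0, le_max_right _ _, fun x => ?_⟩
  by_cases hx : x ∈ Icc (0 : ℝ) 1
  · exact (hC x hx).trans (le_max_left _ _)
  · rcases lt_or_ge x 0 with h | h
    · rw [st_dneg h, abs_zero]
      exact le_max_right _ _
    · have h1 : 1 < x := by
        by_contra hno
        exact hx ⟨h, not_lt.1 hno⟩
      rw [st_dgt h1, abs_zero]
      exact le_max_right _ _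

/-- cutoff in the imaginary direction -/
noncomputable def tL (L y : ℝ) : ℝ := st (2 - 4 * (y / L) ^ 2)

noncomputable def tL' (L y : ℝ) : ℝ := deriv st (2 - 4 * (y / L) ^ 2) * (-(8 * y / L ^ 2))

theorem tL_has {L : ℝ} (y : ℝ) : HasDerivAt (tL L) (tL' L y) y := by
  unfold tL tL'
  have h1 : HasDerivAt (fun y : ℝ => 2 - 4 * (y / L) ^ 2) (-(8 * y / L ^ 2)) y := by
    have h2 : HasDerivAt (fun y : ℝ => y / L) (1 / L) y := (hasDerivAt_id y).div_const L
    have h3 := ((h2.pow 2).const_mul 4).const_sub 2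
    refine h3.congr_deriv ?_
    simp only [Nat.cast_ofNat, Nat.add_one_sub_one, pow_one]
    ring
  exact HasDerivAt.comp y (st_has _) h1

theorem tL_cd (L : ℝ) : ContDiff ℝ 1 (tL L) := by
  unfold tL
  exact st_cd.comp (by fun_prop)

theorem sq_of {L y c : ℝ} (hL : 0 < L) (hc : 0 ≤ c) (h : |y| < c * L) : (y / L) ^ 2 < c ^ 2 := by
  rw [sq_lt_sq, abs_div, abs_of_pos hL, abs_of_nonneg hc, div_lt_iff₀ hL]
  exact h

theorem sq_of' {L y c : ℝ} (hL : 0 < L) (hc : 0 ≤ c) (h : c * L < |y|) : c ^ 2 < (y / L) ^ 2 := by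
  rw [sq_lt_sq, abs_div, abs_of_pos hL, abs_of_nonneg hc, lt_div_iff₀ hL]
  exact h

theorem tL_one {L y : ℝ} (hL : 0 < L) (h : |y| < L / 2) : tL L y = 1 := by
  have h1 := sq_of hL (by norm_num : (0 : ℝ) ≤ 1 / 2) (by linarith : |y| < 1 / 2 * L)
  exact st_one (by linarith)

theorem tL_zero {L y : ℝ} (hL : 0 < L) (h : 3 / 4 * L < |y|) : tL L y = 0 := by
  have h1 := sq_of' hL (by norm_num : (0 : ℝ) ≤ 3 / 4) h
  exact st_zero (by linarith)

theorem tL'_zero {L y : ℝ} (hL : 0 < L) (h : |y| < L / 2) : tL' L y = 0 := by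
  have h1 := sq_of hL (by norm_num : (0 : ℝ) ≤ 1 / 2) (by linarith : |y| < 1 / 2 * L)
  unfold tL'
  rw [st_dgt (by linarith), zero_mul]

theorem tL'_bd {L y C : ℝ} (hL : 1 ≤ L) (h : |y| < L) (hC : ∀ x, |deriv st x| ≤ C) :
    |tL' L y| ≤ 8 * C := by
  unfold tL'
  rw [abs_mul, abs_neg, abs_div, abs_mul, abs_of_nonneg (sq_nonneg L)]
  have h1 := hC (2 - 4 * (y / L) ^ 2)
  have hC0 : 0 ≤ C := (abs_nonneg _).trans h1
  have h2 : |(8 : ℝ)| * |y| / L ^ 2 ≤ 8 := by
    rw [abs_of_pos (by norm_num : (0 : ℝ) < 8), div_le_iff₀ (by positivity)]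
    nlinarith
  calc |deriv st (2 - 4 * (y / L) ^ 2)| * (|(8 : ℝ)| * |y| / L ^ 2) ≤ C * 8 := by gcongr
    _ = 8 * C := by ring

theorem tL_meas {Θ : Type} [MeasurableSpace Θ] {L : Θ → ℝ} (hL : Measurable L) :
    Measurable (fun q : Θ × ℂ => tL (L q.1) q.2.im) := by
  unfold tL
  have h1 : Measurable (fun q : Θ × ℂ => L q.1) := hL.comp measurable_fst
  have h2 : Measurable (fun q : Θ × ℂ => q.2.im) := Complex.measurable_im.comp measurable_snd
  exact st_cd.continuous.measurable.comp (((h2.div h1).pow_const 2).const_mul 4 |>.const_sub 2)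

theorem tL'_meas {Θ : Type} [MeasurableSpace Θ] {L : Θ → ℝ} (hL : Measurable L) :
    Measurable (fun q : Θ × ℂ => tL' (L q.1) q.2.im) := by
  unfold tL'
  have h1 : Measurable (fun q : Θ × ℂ => L q.1) := hL.comp measurable_fst
  have h2 : Measurable (fun q : Θ × ℂ => q.2.im) := Complex.measurable_im.comp measurable_snd
  exact (st_dcont.measurable.comp (((h2.div h1).pow_const 2).const_mul 4 |>.const_sub 2)).mul
    ((h2.const_mul 8).div (h1.pow_const 2)).neg

/-- `∂̄` of a product cutoff -/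
noncomputable def cc (a : ℝ → ℝ) (L : ℝ) (s : ℂ) : ℂ :=
  (((deriv a s.re * tL L s.im : ℝ) : ℂ) + I * ((a s.re * tL' L s.im : ℝ) : ℂ)) / 2

noncomputable def ct (a : ℝ → ℝ) (L : ℝ) (s : ℂ) : ℂ := ((a s.re * tL L s.im : ℝ) : ℂ)

theorem ct_cd {a : ℝ → ℝ} (ha : ContDiff ℝ 1 a) (L : ℝ) : ContDiff ℝ 1 (ct a L) := by
  unfold ct
  exact ofRealCLM.contDiff.comp
    ((ha.comp reCLM.contDiff).mul ((tL_cd L).comp imCLM.contDiff))

theorem ct_db {a : ℝ → ℝ} (ha : ContDiff ℝ 1 a) (L : ℝ) (s : ℂ) : db (ct a L) s = cc a L s := by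
  have h1 : HasFDerivAt (fun s : ℂ => a s.re) (deriv a s.re • reCLM) s :=
    ((ha.differentiable one_ne_zero s.re).hasDerivAt).comp_hasFDerivAt s reCLM.hasFDerivAt
  have h2 : HasFDerivAt (fun s : ℂ => tL L s.im) (tL' L s.im • imCLM) s :=
    (tL_has s.im).comp_hasFDerivAt s imCLM.hasFDerivAt
  have h3 := h1.fun_mul h2
  have h4 := ofRealCLM.hasFDerivAt.comp s h3
  have h5 : HasFDerivAt (ct a L) (ofRealCLM.comp
      (a s.re • tL' L s.im • imCLM + tL L s.im • deriv a s.re • reCLM)) s := h4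
  unfold db
  rw [h5.fderiv]
  unfold cc
  simp only [ContinuousLinearMap.comp_apply, ContinuousLinearMap.add_apply,
    ContinuousLinearMap.smul_apply, reCLM_apply, imCLM_apply, ofRealCLM_apply, one_re, one_im, I_re,
    I_im, smul_eq_mul, mul_zero, mul_one, zero_add, add_zero]
  push_cast
  ring

theorem cc_bd {a : ℝ → ℝ} {C L : ℝ} (ha0 : ∀ x, |a x| ≤ 1) (ha1 : ∀ x, |deriv a x| ≤ C)
    (hC : ∀ x, |deriv st x| ≤ C) (hL : 1 ≤ L) {s : ℂ} (hs : |s.im| < L) : ‖cc a L s‖ ≤ 5 * C := by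
  have hC0 : 0 ≤ C := (abs_nonneg _).trans (hC 0)
  unfold cc
  rw [norm_div]
  have h1 : ‖((deriv a s.re * tL L s.im : ℝ) : ℂ)‖ ≤ C := by
    rw [Complex.norm_real, Real.norm_eq_abs, abs_mul]
    have h2 : |tL L s.im| ≤ 1 := by
      unfold tL
      rw [abs_of_nonneg (st_nonneg _)]
      exact st_le _
    calc |deriv a s.re| * |tL L s.im| ≤ C * 1 := by
          gcongr
          exact ha1 _
      _ = C := mul_one _
  have h3 : ‖I * ((a s.re * tL' L s.im : ℝ) : ℂ)‖ ≤ 8 * C := by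
    rw [norm_mul, norm_I, one_mul, Complex.norm_real, Real.norm_eq_abs, abs_mul]
    calc |a s.re| * |tL' L s.im| ≤ 1 * (8 * C) := by
          gcongr
          · exact ha0 _
          · exact tL'_bd hL hs hC
      _ = 8 * C := one_mul _
  have h4 := norm_add_le ((deriv a s.re * tL L s.im : ℝ) : ℂ)
    (I * ((a s.re * tL' L s.im : ℝ) : ℂ))
  have h5 : ‖(2 : ℂ)‖ = 2 := by simp
  rw [h5, div_le_iff₀ (by norm_num)]
  linarith

/-- one side of the decomposition -/
theorem side {σ : ℝ} (hσ : |σ| = 1) {a : ℝ → ℝ} (ha : ContDiff ℝ 1 a)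
    (ha0 : ∀ x, σ * x < -1 / 2 → a x = 0) {K : ℂ → ℂ} {L : ℝ} (hL : 0 < L)
    (hK : DifferentiableOn ℂ K (Rc L)) {U ν : ℂ → ℂ} (hU : ∀ R, WD {w : ℂ | |w.re| < R} U ν)
    (hν : ∀ s ∈ Rc L, ν s = cc a L s * K s) (hν0 : ∀ s, s ∉ Rc L → ν s = 0) :
    DifferentiableOn ℂ (fun s => ct a L s * K s - U s) {s : ℂ | σ * s.re < 1} := by
  intro s0 hs0
  apply DifferentiableAt.differentiableWithinAt
  obtain ⟨Ω, hΩe⟩ : ∃ Ω : Set ℂ, Ω = {w : ℂ | |w.re| < |s0.re| + 1} ∩ {s : ℂ | σ * s.re < 1} :=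
    ⟨_, rfl⟩
  have hΩ : IsOpen Ω := by
    rw [hΩe]
    exact (isOpen_lt (continuous_abs.comp Complex.continuous_re) continuous_const).inter
      (isOpen_lt (continuous_const.mul Complex.continuous_re) continuous_const)
  have hmem : s0 ∈ Ω := by
    rw [hΩe]
    exact ⟨by change |s0.re| < |s0.re| + 1; linarith, hs0⟩
  -- outside the rectangle
  have hout : ∀ s ∈ Ω, s ∉ Rc L → (fun s => ct a L s * K s) =ᶠ[𝓝 s] fun _ => 0 := by
    intro s hs hn
    rw [hΩe] at hs
    have hs2 : σ * s.re < 1 := hs.2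
    by_cases h1 : |s.re| < 1
    · have h2 : L ≤ |s.im| := by
        by_contra hno
        exact hn ⟨h1, not_le.1 hno⟩
      have h3 : ∀ᶠ z in 𝓝 s, 3 / 4 * L < |z.im| :=
        (continuous_abs.comp Complex.continuous_im).continuousAt.eventually
          (lt_mem_nhds (by
            change 3 / 4 * L < |s.im|
            linarith))
      filter_upwards [h3] with z hz
      unfold ct
      rw [tL_zero hL hz]
      simp
    · have h2 : σ * s.re < -1 / 2 := by
        have h3 : 1 ≤ |σ * s.re| := by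
          rw [abs_mul, hσ, one_mul]
          exact not_lt.1 h1
        rcases abs_cases (σ * s.re) with h4 | h4
        · linarith
        · linarith
      have h3 : ∀ᶠ z : ℂ in 𝓝 s, σ * z.re < -1 / 2 :=
        (continuous_const.mul Complex.continuous_re).continuousAt.eventually (gt_mem_nhds h2)
      filter_upwards [h3] with z hz
      unfold ct
      rw [ha0 _ hz]
      simp
  have hcd : ContDiffOn ℝ 1 (fun s => ct a L s * K s) Ω := by
    intro s hs
    apply ContDiffAt.contDiffWithinAt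
    by_cases h : s ∈ Rc L
    · have h1 : ContDiffAt ℂ 1 K s := by
        have := (hK.analyticAt ((Rc_open L).mem_nhds h)).contDiffAt (n := ω)
        exact this.of_le (by exact le_top)
      exact (ct_cd ha L).contDiffAt.mul (h1.restrict_scalars ℝ)
    · exact contDiffAt_const.congr_of_eventuallyEq (hout s hs h)
  have hW1 : WD Ω (fun s => ct a L s * K s) ν := by
    refine (WD.of_C1 hΩ hcd).congr hΩ (fun _ _ => rfl) (fun s hs => ?_)
    by_cases h : s ∈ Rc L
    · have h1 : DifferentiableAt ℂ K s := hK.differentiableAt ((Rc_open L).mem_nhds h)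
      rw [db_mul ((ct_cd ha L).differentiable one_ne_zero s) (h1.restrictScalars ℝ),
        db_holo h1, ct_db ha, hν s h]
      ring
    · rw [db_congr (hout s hs h), hν0 s h]
      unfold db
      simp
  have hW2 : WD Ω U ν := WD_mono (hU (|s0.re| + 1)) (by rw [hΩe]; exact inter_subset_left)
  have hW3 := hW1.add hΩ (hW2.mul_holo hΩ (differentiableOn_const (-1 : ℂ)))
  have h1 := hW3.holo hΩ (fun s _ => by ring)
  have h2 := h1.differentiableAt (hΩ.mem_nhds hmem)
  refine h2.congr_of_eventuallyEq (Eventually.of_forall fun s => ?_)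
  simp only []
  ring

noncomputable def aP (x : ℝ) : ℝ := st (x + 1 / 2)

noncomputable def aM (x : ℝ) : ℝ := 1 - st (x + 1 / 2)

theorem aP_cd : ContDiff ℝ 1 aP := by
  unfold aP
  exact st_cd.comp (by fun_prop)

theorem aM_cd : ContDiff ℝ 1 aM := by
  unfold aM
  exact contDiff_const.sub (st_cd.comp (by fun_prop))

theorem aP_deriv (x : ℝ) : deriv aP x = deriv st (x + 1 / 2) := by
  unfold aP
  exact deriv_comp_add_const st (1 / 2) x

theorem aM_deriv (x : ℝ) : deriv aM x = -deriv st (x + 1 / 2) := by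
  have h1 : aM = fun x => 1 - aP x := rfl
  rw [h1, deriv_const_sub, aP_deriv]

/-- **Decomposition of bounded holomorphic functions on rectangles.** -/
theorem dec : ∃ C : ℝ, 0 ≤ C ∧ ∀ (Θ : Type) [MeasurableSpace Θ] (L : Θ → ℝ) (K : Θ → ℂ → ℂ)
    (M : ℝ), 0 ≤ M → Measurable L → (∀ θ, 1 ≤ L θ) → Measurable (fun q : Θ × ℂ => K q.1 q.2) →
    (∀ θ, DifferentiableOn ℂ (K θ) (Rc (L θ))) → (∀ θ, ∀ s ∈ Rc (L θ), ‖K θ s‖ ≤ M) →
    ∃ P N Z : Θ → ℂ → ℂ, Measurable (fun q : Θ × ℂ => P q.1 q.2) ∧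
      Measurable (fun q : Θ × ℂ => N q.1 q.2) ∧ Measurable (fun q : Θ × ℂ => Z q.1 q.2) ∧
      (∀ θ, DifferentiableOn ℂ (P θ) {s : ℂ | s.re < 1}) ∧
      (∀ θ, DifferentiableOn ℂ (N θ) {s : ℂ | -1 < s.re}) ∧
      (∀ θ, DifferentiableOn ℂ (Z θ) {s : ℂ | |s.im| < L θ / 2}) ∧
      (∀ θ (s : ℂ), s.re < 1 → ‖P θ s‖ ≤ C * M) ∧ (∀ θ (s : ℂ), -1 < s.re → ‖N θ s‖ ≤ C * M) ∧
      (∀ θ (s : ℂ), ‖Z θ s‖ ≤ C * M * Real.exp |s.re|) ∧
      ∀ θ (s : ℂ), |s.im| < L θ / 2 → K θ s = P θ s + N θ s + Z θ s := by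
  obtain ⟨C, hC0, hC⟩ := st_dbd
  have hkI := kI_nonneg
  refine ⟨1 + 64 * kI * (5 * C) * Real.exp 2 + 2 * (64 * kI * (5 * C) * Real.exp 1),
    by positivity, ?_⟩
  intro Θ _ L K M hM hLm hL hKm hKd hKb
  have hL0 : ∀ θ, 0 < L θ := fun θ => lt_of_lt_of_le one_pos (hL θ)
  obtain ⟨νf, hνf⟩ : ∃ νf : (ℝ → ℝ) → Θ → ℂ → ℂ, νf = fun a θ s =>
    {q : Θ × ℂ | |q.2.re| < 1 ∧ |q.2.im| < L q.1}.indicator
      (fun q => cc a (L q.1) q.2 * K q.1 q.2) (θ, s) := ⟨_, rfl⟩
  have hin : ∀ a θ, ∀ s ∈ Rc (L θ), νf a θ s = cc a (L θ) s * K θ s := by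
    intro a θ s hs
    rw [hνf]
    exact indicator_of_mem (s := {q : Θ × ℂ | |q.2.re| < 1 ∧ |q.2.im| < L q.1}) (a := (θ, s)) hs _
  have hout : ∀ a θ s, s ∉ Rc (L θ) → νf a θ s = 0 := by
    intro a θ s hs
    rw [hνf]
    exact indicator_of_notMem (s := {q : Θ × ℂ | |q.2.re| < 1 ∧ |q.2.im| < L q.1})
      (a := (θ, s)) hs _
  have hctm : ∀ a : ℝ → ℝ, Continuous a → Measurable (fun q : Θ × ℂ => ct a (L q.1) q.2) := by
    intro a ha
    unfold ct
    have h1 : Measurable (fun q : Θ × ℂ => a q.2.re) :=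
      ha.measurable.comp (Complex.measurable_re.comp measurable_snd)
    exact Complex.measurable_ofReal.comp (h1.mul (tL_meas hLm))
  have hDn : ∀ a : ℝ → ℝ, Continuous a → (∀ x, |a x| ≤ 1) → (∀ x, |deriv a x| ≤ C) →
      Dn (νf a) L (5 * C * M) := by
    intro a hac ha0 ha1
    refine ⟨?_, fun θ s => ?_, hout a⟩
    · rw [hνf]
      have h1 : MeasurableSet {q : Θ × ℂ | |q.2.re| < 1 ∧ |q.2.im| < L q.1} := by
        refine MeasurableSet.inter ?_ ?_
        · exact measurableSet_lt ((Complex.measurable_re.comp measurable_snd).abs) measurable_const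
        · exact measurableSet_lt ((Complex.measurable_im.comp measurable_snd).abs)
            (hLm.comp measurable_fst)
      refine Measurable.indicator ?_ h1
      refine Measurable.mul ?_ hKm
      unfold cc
      have h2 : Measurable (fun q : Θ × ℂ => a q.2.re) :=
        hac.measurable.comp (Complex.measurable_re.comp measurable_snd)
      have h3 : Measurable (fun q : Θ × ℂ => deriv a q.2.re) :=
        (measurable_deriv a).comp (Complex.measurable_re.comp measurable_snd)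
      exact ((Complex.measurable_ofReal.comp (h3.mul (tL_meas hLm))).add
        ((Complex.measurable_ofReal.comp (h2.mul (tL'_meas hLm))).const_mul I)).div_const 2
    · by_cases hs : s ∈ Rc (L θ)
      · rw [hin a θ s hs, norm_mul]
        have h1 := cc_bd ha0 ha1 hC (hL θ) hs.2
        have h2 := hKb θ s hs
        gcongr
      · rw [hout a θ s hs, norm_zero]
        positivity
  have hst1 : ∀ x, |st x| ≤ 1 := fun x => by
    rw [abs_of_nonneg (st_nonneg x)]
    exact st_le x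
  have hP := hDn aP aP_cd.continuous (fun x => hst1 _) (fun x => by rw [aP_deriv]; exact hC _)
  have hN := hDn aM aM_cd.continuous (fun x => by
    unfold aM
    have h1 := st_nonneg (x + 1 / 2)
    have h2 := st_le (x + 1 / 2)
    rw [abs_of_nonneg (by linarith)]
    linarith) (fun x => by rw [aM_deriv, abs_neg]; exact hC _)
  have h1p : |(1 : ℝ)| = 1 := abs_one
  have h1m : |(-1 : ℝ)| = 1 := by simp
  have hsum : ∀ s : ℂ, ∀ θ, ct aP (L θ) s + ct aM (L θ) s = (tL (L θ) s.im : ℝ) := by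
    intro s θ
    unfold ct aP aM
    push_cast
    ring
  -- the bound of the first part
  have hct1 : ∀ (a : ℝ → ℝ) (σ : ℝ), |σ| = 1 → (∀ x, |a x| ≤ 1) →
      (∀ x, σ * x < -1 / 2 → a x = 0) → ∀ θ (s : ℂ), σ * s.re < 1 →
      ‖ct a (L θ) s * K θ s‖ ≤ M := by
    intro a σ hσ ha ha0 θ s hs
    by_cases h0 : ct a (L θ) s = 0
    · rw [h0, zero_mul, norm_zero]
      exact hM
    · have h1 : s ∈ Rc (L θ) := by
        constructor
        · by_contra hno
          apply h0
          have h3 : 1 ≤ |σ * s.re| := by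
            rw [abs_mul, hσ, one_mul]
            exact not_lt.1 hno
          have h2 : σ * s.re < -1 / 2 := by
            rcases abs_cases (σ * s.re) with h4 | h4
            · linarith
            · linarith
          unfold ct
          rw [ha0 _ h2]
          simp
        · by_contra hno
          apply h0
          have h2 := hL0 θ
          unfold ct
          rw [tL_zero h2 (by linarith [not_lt.1 hno])]
          simp
      have h2 := hKb θ s h1
      rw [norm_mul]
      have h3 : ‖ct a (L θ) s‖ ≤ 1 := by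
        unfold ct
        rw [Complex.norm_real, Real.norm_eq_abs, abs_mul]
        calc |a s.re| * |tL (L θ) s.im| ≤ 1 * 1 := by
              gcongr
              · exact ha _
              · exact hst1 _
          _ = 1 := one_mul 1
      calc ‖ct a (L θ) s‖ * ‖K θ s‖ ≤ 1 * M := by gcongr
        _ = M := one_mul _
  have haP0 : ∀ x : ℝ, 1 * x < -1 / 2 → aP x = 0 := fun x hx => st_zero (by linarith)
  have haM0 : ∀ x : ℝ, -1 * x < -1 / 2 → aM x = 0 := fun x hx => by
    unfold aM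
    rw [st_one (by linarith), sub_self]
  have haP1 : ∀ x, |aP x| ≤ 1 := fun x => hst1 _
  have haM1 : ∀ x, |aM x| ≤ 1 := fun x => by
    unfold aM
    have h1 := st_nonneg (x + 1 / 2)
    have h2 := st_le (x + 1 / 2)
    rw [abs_of_nonneg (by linarith)]
    linarith
  refine ⟨fun θ s => ct aP (L θ) s * K θ s - Po 1 (νf aP) θ s,
    fun θ s => ct aM (L θ) s * K θ s - Po (-1) (νf aM) θ s,
    fun θ s => Po 1 (νf aP) θ s + Po (-1) (νf aM) θ s, ?_, ?_, ?_, ?_, ?_, ?_, ?_, ?_, ?_, ?_⟩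
  · exact ((hctm aP aP_cd.continuous).mul hKm).sub (Po_meas hP)
  · exact ((hctm aM aM_cd.continuous).mul hKm).sub (Po_meas hN)
  · exact (Po_meas hP).add (Po_meas hN)
  · intro θ
    have h1 := side h1p aP_cd haP0 (hL0 θ) (hKd θ) (U := Po 1 (νf aP) θ) (ν := νf aP θ)
      (fun R => Po_WD h1p hP θ) (hin aP θ) (hout aP θ)
    refine h1.mono fun s hs => ?_
    change 1 * s.re < 1
    rw [one_mul]
    exact hs
  · intro θ
    have h1 := side h1m aM_cd haM0 (hL0 θ) (hKd θ) (U := Po (-1) (νf aM) θ) (ν := νf aM θ)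
      (fun R => Po_WD h1m hN θ) (hin aM θ) (hout aM θ)
    refine h1.mono fun s hs => ?_
    change -1 * s.re < 1
    have h2 : -1 < s.re := hs
    linarith
  · intro θ s0 hs0
    apply DifferentiableAt.differentiableWithinAt
    obtain ⟨Ω, hΩe⟩ : ∃ Ω : Set ℂ, Ω = {w : ℂ | |w.re| < |s0.re| + 1} ∩
      {s : ℂ | |s.im| < L θ / 2} := ⟨_, rfl⟩
    have hΩ : IsOpen Ω := by
      rw [hΩe]
      exact (isOpen_lt (continuous_abs.comp Complex.continuous_re) continuous_const).inter
        (isOpen_lt (continuous_abs.comp Complex.continuous_im) continuous_const)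
    have hmem : s0 ∈ Ω := by
      rw [hΩe]
      exact ⟨by change |s0.re| < |s0.re| + 1; linarith, hs0⟩
    have hs1 : Ω ⊆ {w : ℂ | |w.re| < |s0.re| + 1} := by rw [hΩe]; exact inter_subset_left
    have h1 := (WD_mono (Po_WD h1p hP θ (R := |s0.re| + 1)) hs1).add hΩ
      (WD_mono (Po_WD h1m hN θ (R := |s0.re| + 1)) hs1)
    have h2 := h1.holo hΩ (by
      intro s hs
      by_cases h : s ∈ Rc (L θ)
      · rw [hin _ _ _ h, hin _ _ _ h, ← add_mul]
        have h3 : cc aP (L θ) s + cc aM (L θ) s = 0 := by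
          rw [hΩe] at hs
          unfold cc
          rw [tL'_zero (hL0 θ) hs.2, aP_deriv, aM_deriv]
          push_cast
          ring
        rw [h3, zero_mul]
      · rw [hout _ _ _ h, hout _ _ _ h, add_zero])
    exact h2.differentiableAt (hΩ.mem_nhds hmem)
  · intro θ s hs
    have h1 := hct1 aP 1 h1p haP1 haP0 θ s (by rw [one_mul]; exact hs)
    have h2 := Po_bd h1p hP θ s
    have h3 : Real.exp (1 + max (1 * s.re) 0) ≤ Real.exp 2 := by
      refine Real.exp_le_exp.2 ?_
      have : max (1 * s.re) 0 ≤ 1 := max_le (by linarith) (by norm_num)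
      linarith
    have h4 : 64 * kI * (5 * C * M) * Real.exp (1 + max (1 * s.re) 0) ≤
        64 * kI * (5 * C * M) * Real.exp 2 := by gcongr
    have h5 := norm_sub_le (ct aP (L θ) s * K θ s) (Po 1 (νf aP) θ s)
    have h6 : 0 ≤ 2 * (64 * kI * (5 * C) * Real.exp 1) * M := by positivity
    calc ‖ct aP (L θ) s * K θ s - Po 1 (νf aP) θ s‖ ≤ M + 64 * kI * (5 * C * M) * Real.exp 2 := by
          linarith
      _ ≤ _ := by linarith
  · intro θ s hs
    have h1 := hct1 aM (-1) h1m haM1 haM0 θ s (by linarith)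
    have h2 := Po_bd h1m hN θ s
    have h3 : Real.exp (1 + max (-1 * s.re) 0) ≤ Real.exp 2 := by
      refine Real.exp_le_exp.2 ?_
      have : max (-1 * s.re) 0 ≤ 1 := max_le (by linarith) (by norm_num)
      linarith
    have h4 : 64 * kI * (5 * C * M) * Real.exp (1 + max (-1 * s.re) 0) ≤
        64 * kI * (5 * C * M) * Real.exp 2 := by gcongr
    have h5 := norm_sub_le (ct aM (L θ) s * K θ s) (Po (-1) (νf aM) θ s)
    have h6 : 0 ≤ 2 * (64 * kI * (5 * C) * Real.exp 1) * M := by positivity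
    calc ‖ct aM (L θ) s * K θ s - Po (-1) (νf aM) θ s‖ ≤
          M + 64 * kI * (5 * C * M) * Real.exp 2 := by
          linarith
      _ ≤ _ := by linarith
  · intro θ s
    have h1 := Po_bd h1p hP θ s
    have h2 := Po_bd h1m hN θ s
    have h3 : Real.exp (1 + max (1 * s.re) 0) ≤ Real.exp 1 * Real.exp |s.re| := by
      rw [← Real.exp_add]
      refine Real.exp_le_exp.2 ?_
      have : max (1 * s.re) 0 ≤ |s.re| := max_le (by rw [one_mul]; exact le_abs_self _)
        (abs_nonneg _)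
      linarith
    have h4 : Real.exp (1 + max (-1 * s.re) 0) ≤ Real.exp 1 * Real.exp |s.re| := by
      rw [← Real.exp_add]
      refine Real.exp_le_exp.2 ?_
      have : max (-1 * s.re) 0 ≤ |s.re| := max_le (by
        have := neg_abs_le s.re
        linarith) (abs_nonneg _)
      linarith
    have h5 : 64 * kI * (5 * C * M) * Real.exp (1 + max (1 * s.re) 0) ≤
        64 * kI * (5 * C * M) * (Real.exp 1 * Real.exp |s.re|) := by gcongr
    have h6 : 64 * kI * (5 * C * M) * Real.exp (1 + max (-1 * s.re) 0) ≤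
        64 * kI * (5 * C * M) * (Real.exp 1 * Real.exp |s.re|) := by gcongr
    have h7 := norm_add_le (Po 1 (νf aP) θ s) (Po (-1) (νf aM) θ s)
    have h8 : 0 ≤ (1 + 64 * kI * (5 * C) * Real.exp 2) * M * Real.exp |s.re| := by positivity
    calc ‖Po 1 (νf aP) θ s + Po (-1) (νf aM) θ s‖ ≤
          2 * (64 * kI * (5 * C * M) * (Real.exp 1 * Real.exp |s.re|)) := by linarith
      _ ≤ _ := by linarith
  · intro θ s hs
    have h1 := hsum s θ
    rw [tL_one (hL0 θ) hs] at h1
    simp only []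
    have h2 : ct aP (L θ) s * K θ s + ct aM (L θ) s * K θ s = K θ s := by
      rw [← add_mul, h1]
      simp
    linear_combination -h2

end Pool.Agent.R223.Tor
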