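import Mathlib
import Pool.Agent.R223.Tor.Dec

/-!
Extension of bounded holomorphic functions from the slices of tube domains over convex epigraphs.
-/

set_option autoImplicit false
set_option linter.unusedSectionVars false

open MeasureTheory Metric Set Filter Topology Complex
open scoped ContDiff

namespace Pool.Agent.R223.Tor

open Pool.Agent.H720R2 Pool.Agent.H720R2.HP
open Pool.Agent.Y263.LF (Bdd)

/-- `Γ` is a convex function with subgradient `σ`, and `0` is its strict minimum -/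
structure GS (Γ σ : ℝ → ℝ) : Prop where
  cont : Continuous Γ
  sm : Measurable σ
  tan : ∀ y0 y, Γ y0 + σ y0 * (y - y0) ≤ Γ y
  z : Γ 0 = 0
  pos : ∀ y, y ≠ 0 → 0 < Γ y
  prop : ∀ t, ∃ R, ∀ y, Γ y < t → |y| < R

section

variable {Γ σ : ℝ → ℝ}

theorem GS.nonneg (h : GS Γ σ) (y : ℝ) : 0 ≤ Γ y := by
  by_cases hy : y = 0
  · rw [hy, h.z]
  · exact (h.pos y hy).le

noncomputable def rr (Γ : ℝ → ℝ) (t : ℝ) : ℝ := sSup {y | Γ y < t}

noncomputable def ll (Γ : ℝ → ℝ) (t : ℝ) : ℝ := sInf {y | Γ y < t}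

theorem GS.ba (h : GS Γ σ) (t : ℝ) : BddAbove {y | Γ y < t} := by
  obtain ⟨R, hR⟩ := h.prop t
  exact ⟨R, fun y hy => (le_abs_self y).trans (hR y hy).le⟩

theorem GS.bb (h : GS Γ σ) (t : ℝ) : BddBelow {y | Γ y < t} := by
  obtain ⟨R, hR⟩ := h.prop t
  refine ⟨-R, fun y hy => ?_⟩
  have h1 := hR y hy
  have h2 := neg_abs_le y
  linarith

theorem GS.mem0 (h : GS Γ σ) {t : ℝ} (ht : 0 < t) : (0 : ℝ) ∈ {y | Γ y < t} := by
  change Γ 0 < t
  rw [h.z]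
  exact ht

theorem GS.emp (h : GS Γ σ) {t : ℝ} (ht : t ≤ 0) : {y | Γ y < t} = ∅ := by
  ext y
  simp only [mem_ofPred_eq, mem_empty_iff_false, iff_false, not_lt]
  exact ht.trans (h.nonneg y)

theorem GS.rr_mono (h : GS Γ σ) : Monotone (rr Γ) := by
  intro t t' htt
  unfold rr
  rcases le_or_gt t 0 with h0 | h0
  · rw [h.emp h0, Real.sSup_empty]
    rcases le_or_gt t' 0 with h1 | h1
    · rw [h.emp h1, Real.sSup_empty]
    · exact le_csSup (h.ba t') (h.mem0 h1)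
  · exact csSup_le_csSup (h.ba t') ⟨0, h.mem0 h0⟩ fun y hy => lt_of_lt_of_le hy htt

theorem GS.ll_anti (h : GS Γ σ) : Antitone (ll Γ) := by
  intro t t' htt
  unfold ll
  rcases le_or_gt t 0 with h0 | h0
  · rw [h.emp h0, Real.sInf_empty]
    rcases le_or_gt t' 0 with h1 | h1
    · rw [h.emp h1, Real.sInf_empty]
    · exact csInf_le (h.bb t') (h.mem0 h1)
  · exact csInf_le_csInf (h.bb t') ⟨0, h.mem0 h0⟩ fun y hy => lt_of_lt_of_le hy htt

theorem GS.mem_iff (h : GS Γ σ) {t : ℝ} (y : ℝ) : Γ y < t ↔ ll Γ t < y ∧ y < rr Γ t := by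
  constructor
  · intro hy
    have hev : ∀ᶠ z in 𝓝 y, Γ z < t := h.cont.continuousAt.eventually (gt_mem_nhds hy)
    obtain ⟨ε, hε, hB⟩ := Metric.eventually_nhds_iff.1 hev
    have h1 : Γ (y + ε / 2) < t := hB (by
      rw [Real.dist_eq, add_sub_cancel_left, abs_of_pos (by positivity)]
      linarith)
    have h2 : Γ (y - ε / 2) < t := hB (by
      rw [Real.dist_eq, sub_sub_cancel_left, abs_neg, abs_of_pos (by positivity)]
      linarith)
    have h3 := le_csSup (h.ba t) h1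
    have h4 := csInf_le (h.bb t) h2
    unfold rr ll
    constructor <;> linarith
  · rintro ⟨h1, h2⟩
    have hne : {y | Γ y < t}.Nonempty := by
      by_contra hno
      rw [not_nonempty_iff_eq_empty] at hno
      unfold ll at h1
      unfold rr at h2
      rw [hno, Real.sInf_empty] at h1
      rw [hno, Real.sSup_empty] at h2
      linarith
    obtain ⟨y2, hy2, hyy2⟩ := exists_lt_of_lt_csSup hne h2
    obtain ⟨y1, hy1, hyy1⟩ := exists_lt_of_csInf_lt hne h1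
    have h3 := h.tan y y1
    have h4 := h.tan y y2
    have h5 : Γ y1 < t := hy1
    have h6 : Γ y2 < t := hy2
    rcases le_or_gt 0 (σ y) with h7 | h7
    · have : 0 ≤ σ y * (y2 - y) := mul_nonneg h7 (by linarith)
      linarith
    · have : 0 ≤ σ y * (y1 - y) := mul_nonneg_of_nonpos_of_nonpos h7.le (by linarith)
      linarith

theorem GS.lr (h : GS Γ σ) {t : ℝ} (ht : 0 < t) : ll Γ t < 0 ∧ 0 < rr Γ t :=
  (h.mem_iff 0).1 (h.mem0 ht)

theorem GS.Grr (h : GS Γ σ) {t : ℝ} (ht : 0 < t) : Γ (rr Γ t) = t := by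
  refine le_antisymm ?_ ?_
  · have h1 : rr Γ t ∈ closure {y | Γ y < t} := csSup_mem_closure ⟨0, h.mem0 ht⟩ (h.ba t)
    have h2 : closure {y | Γ y < t} ⊆ {y | Γ y ≤ t} :=
      closure_minimal (fun y hy => show Γ y ≤ t from le_of_lt hy) (isClosed_le h.cont continuous_const)
    exact h2 h1
  · by_contra hno
    exact lt_irrefl _ ((h.mem_iff _).1 (not_le.1 hno)).2

theorem GS.Gll (h : GS Γ σ) {t : ℝ} (ht : 0 < t) : Γ (ll Γ t) = t := by
  refine le_antisymm ?_ ?_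
  · have h1 : ll Γ t ∈ closure {y | Γ y < t} := csInf_mem_closure ⟨0, h.mem0 ht⟩ (h.bb t)
    have h2 : closure {y | Γ y < t} ⊆ {y | Γ y ≤ t} :=
      closure_minimal (fun y hy => show Γ y ≤ t from le_of_lt hy) (isClosed_le h.cont continuous_const)
    exact h2 h1
  · by_contra hno
    exact lt_irrefl _ ((h.mem_iff _).1 (not_le.1 hno)).1

/-- the slopes -/
noncomputable def cP (Γ σ : ℝ → ℝ) (t : ℝ) : ℝ := σ (rr Γ t)

noncomputable def cM (Γ σ : ℝ → ℝ) (t : ℝ) : ℝ := -σ (ll Γ t)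

/-- the half width and the centre -/
noncomputable def hh (Γ : ℝ → ℝ) (t : ℝ) : ℝ := (rr Γ t - ll Γ t) / 2

noncomputable def mm (Γ : ℝ → ℝ) (t : ℝ) : ℝ := (rr Γ t + ll Γ t) / 2

theorem GS.tanP (h : GS Γ σ) {t : ℝ} (ht : 0 < t) (y : ℝ) :
    t + cP Γ σ t * (y - rr Γ t) ≤ Γ y := by
  have h1 := h.tan (rr Γ t) y
  rw [h.Grr ht] at h1
  exact h1

theorem GS.tanM (h : GS Γ σ) {t : ℝ} (ht : 0 < t) (y : ℝ) :
    t + cM Γ σ t * (ll Γ t - y) ≤ Γ y := by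
  have h1 := h.tan (ll Γ t) y
  rw [h.Gll ht] at h1
  unfold cM
  linarith

theorem GS.cP_pos (h : GS Γ σ) {t : ℝ} (ht : 0 < t) : 0 < cP Γ σ t := by
  have h1 := h.tanP ht 0
  rw [h.z] at h1
  have h2 := (h.lr ht).2
  by_contra hno
  have h3 : cP Γ σ t * rr Γ t ≤ 0 := mul_nonpos_of_nonpos_of_nonneg (not_lt.1 hno) h2.le
  linarith

theorem GS.cM_pos (h : GS Γ σ) {t : ℝ} (ht : 0 < t) : 0 < cM Γ σ t := by
  have h1 := h.tanM ht 0
  rw [h.z] at h1
  have h2 := (h.lr ht).1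
  by_contra hno
  have h3 : 0 ≤ cM Γ σ t * ll Γ t := mul_nonneg_of_nonpos_of_nonpos (not_lt.1 hno) h2.le
  linarith

theorem GS.hh_pos (h : GS Γ σ) {t : ℝ} (ht : 0 < t) : 0 < hh Γ t := by
  have h1 := h.lr ht
  unfold hh
  linarith [h1.1, h1.2]

theorem GS.small (h : GS Γ σ) {ρ : ℝ} (hρ : 0 < ρ) : ∃ t₀ : ℝ, 0 < t₀ ∧
    ∀ t, 0 < t → t ≤ t₀ → hh Γ t ≤ ρ := by
  refine ⟨min (Γ ρ) (Γ (-ρ)), lt_min (h.pos ρ hρ.ne') (h.pos (-ρ) (by linarith [hρ])), ?_⟩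
  intro t ht hle
  have h1 := h.lr ht
  have h2 : rr Γ t ≤ ρ := by
    by_contra hno
    have h3 := (h.mem_iff ρ (t := t)).2 ⟨by linarith [h1.1], not_le.1 hno⟩
    have h4 := hle.trans (min_le_left _ _)
    linarith
  have h3 : -ρ ≤ ll Γ t := by
    by_contra hno
    have h3 := (h.mem_iff (-ρ) (t := t)).2 ⟨not_le.1 hno, by linarith [h1.2]⟩
    have h4 := hle.trans (min_le_right _ _)
    linarith
  unfold hh
  linarith

theorem GS.small' (h : GS Γ σ) {ρ : ℝ} (hρ : 0 < ρ) : ∃ t₀ : ℝ, 0 < t₀ ∧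
    (∀ t, 0 < t → t ≤ t₀ → hh Γ t ≤ ρ) ∧ ∀ t, t ≤ t₀ → ∀ y, Γ y < t → |y| < ρ := by
  have key : ∀ t, 0 < t → t ≤ min (Γ ρ) (Γ (-ρ)) → rr Γ t ≤ ρ ∧ -ρ ≤ ll Γ t := by
    intro t ht hle
    have h1 := h.lr ht
    constructor
    · by_contra hno
      have h3 := (h.mem_iff ρ (t := t)).2 ⟨by linarith [h1.1], not_le.1 hno⟩
      have h4 := hle.trans (min_le_left _ _)
      linarith
    · by_contra hno
      have h3 := (h.mem_iff (-ρ) (t := t)).2 ⟨not_le.1 hno, by linarith [h1.2]⟩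
      have h4 := hle.trans (min_le_right _ _)
      linarith
  refine ⟨min (Γ ρ) (Γ (-ρ)), lt_min (h.pos ρ hρ.ne') (h.pos (-ρ) (by linarith [hρ])),
    fun t ht hle => ?_, fun t hle y hy => ?_⟩
  · have h1 := key t ht hle
    unfold hh
    linarith [h1.1, h1.2]
  · have ht : 0 < t := lt_of_le_of_lt (h.nonneg y) hy
    have h1 := key t ht hle
    have h2 := (h.mem_iff y).1 hy
    rw [abs_lt]
    constructor
    · linarith [h1.2, h2.1]
    · linarith [h1.1, h2.2]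

theorem GS.meas (h : GS Γ σ) : Measurable (rr Γ) ∧ Measurable (ll Γ) ∧ Measurable (cP Γ σ) ∧
    Measurable (cM Γ σ) ∧ Measurable (hh Γ) ∧ Measurable (mm Γ) := by
  have h1 := h.rr_mono.measurable
  have h2 := h.ll_anti.measurable
  exact ⟨h1, h2, h.sm.comp h1, (h.sm.comp h2).neg, (h1.sub h2).div_const 2,
    (h1.add h2).div_const 2⟩

end

/-- the tube domain -/
def TD (Γ : ℝ → ℝ) (ρ : ℝ) : Set (ℂ × ℂ) := {p | Γ p.2.re < p.1.im ∧ |p.2.im| < ρ}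

/-- **Extension from the slices.** -/
theorem tube_ext : ∃ C : ℝ, 0 ≤ C ∧ ∀ (Γ σ : ℝ → ℝ), GS Γ σ → ∀ (ρ t₀ : ℝ), 0 < ρ →
    (∀ t, 0 < t → t ≤ t₀ → hh Γ t ≤ ρ) → ∀ (A : Set ℂ), MeasurableSet A →
    (∀ ζ ∈ A, 0 < ζ.im ∧ ζ.im ≤ t₀) → ∀ (k : ℂ × ℂ → ℂ), Measurable k → ∀ M : ℝ, 0 ≤ M →
    (∀ ζ ∈ A, DifferentiableOn ℂ (fun b => k (ζ, b)) {b | (ζ, b) ∈ TD Γ ρ}) →
    (∀ ζ ∈ A, ∀ b, (ζ, b) ∈ TD Γ ρ → ‖k (ζ, b)‖ ≤ M) →
    ∃ e : ℂ → ℂ × ℂ → ℂ, Measurable (fun q : ℂ × (ℂ × ℂ) => e q.1 q.2) ∧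
      (∀ ζ ∈ A, DifferentiableOn ℂ (e ζ) (TD Γ (ρ / 2))) ∧
      (∀ ζ ∈ A, ∀ p ∈ TD Γ (ρ / 2), ‖e ζ p‖ ≤ C * M) ∧
      ∀ ζ ∈ A, ∀ b, (ζ, b) ∈ TD Γ (ρ / 2) → e ζ (ζ, b) = k (ζ, b) := by
  obtain ⟨C, hC, H⟩ := dec
  refine ⟨C * (2 + Real.exp 3), by positivity, ?_⟩
  intro Γ σ hG ρ t₀ hρ ht₀ A hA hA' k hkm M hM hkd hkb
  classical
  obtain ⟨mr, ml, mcP, mcM, mh, mmm⟩ := hG.meas
  obtain ⟨L, hLe⟩ : ∃ L : ℂ → ℝ, L = fun ζ => if ζ ∈ A then ρ / hh Γ ζ.im else 1 := ⟨_, rfl⟩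
  obtain ⟨K, hKe⟩ : ∃ K : ℂ → ℂ → ℂ, K = fun ζ s =>
    if ζ ∈ A then k (ζ, (mm Γ ζ.im : ℂ) + (hh Γ ζ.im : ℂ) * s) else 0 := ⟨_, rfl⟩
  have hLA : ∀ ζ ∈ A, L ζ = ρ / hh Γ ζ.im := fun ζ hζ => by rw [hLe]; exact if_pos hζ
  have hKA : ∀ ζ ∈ A, ∀ s, K ζ s = k (ζ, (mm Γ ζ.im : ℂ) + (hh Γ ζ.im : ℂ) * s) := by
    intro ζ hζ s
    rw [hKe]
    exact if_pos hζ
  have hmap : ∀ ζ ∈ A, ∀ s ∈ Rc (L ζ), (ζ, (mm Γ ζ.im : ℂ) + (hh Γ ζ.im : ℂ) * s) ∈ TD Γ ρ := by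
    intro ζ hζ s hs
    have hζ1 := hA' ζ hζ
    have hp := hG.hh_pos hζ1.1
    constructor
    · rw [hG.mem_iff]
      have h1 : ((mm Γ ζ.im : ℂ) + (hh Γ ζ.im : ℂ) * s).re = mm Γ ζ.im + hh Γ ζ.im * s.re := by
        simp
      change ll Γ ζ.im < ((mm Γ ζ.im : ℂ) + (hh Γ ζ.im : ℂ) * s).re ∧
        ((mm Γ ζ.im : ℂ) + (hh Γ ζ.im : ℂ) * s).re < rr Γ ζ.im
      rw [h1]
      have h2 := abs_lt.1 hs.1
      have h3 : hh Γ ζ.im * s.re < hh Γ ζ.im * 1 := by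
        have := h2.2
        gcongr
      have h4 : hh Γ ζ.im * -1 < hh Γ ζ.im * s.re := by
        have := h2.1
        gcongr
      have h5 : mm Γ ζ.im = (rr Γ ζ.im + ll Γ ζ.im) / 2 := rfl
      have h6 : hh Γ ζ.im = (rr Γ ζ.im - ll Γ ζ.im) / 2 := rfl
      constructor <;> linarith
    · have h1 : ((mm Γ ζ.im : ℂ) + (hh Γ ζ.im : ℂ) * s).im = hh Γ ζ.im * s.im := by
        simp
      change |((mm Γ ζ.im : ℂ) + (hh Γ ζ.im : ℂ) * s).im| < ρ
      rw [h1, abs_mul, abs_of_pos hp]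
      have h2 := hs.2
      rw [hLA ζ hζ, lt_div_iff₀ hp] at h2
      linarith
  obtain ⟨P, N, Z, mP, mN, mZ, dP, dN, dZ, bP, bN, bZ, hsum⟩ := H ℂ L K M hM
    (by
      rw [hLe]
      exact Measurable.ite hA ((mh.comp Complex.measurable_im).const_div ρ) measurable_const)
    (by
      intro ζ
      by_cases hζ : ζ ∈ A
      · rw [hLA ζ hζ]
        have hζ1 := hA' ζ hζ
        rw [le_div_iff₀ (hG.hh_pos hζ1.1), one_mul]
        exact ht₀ _ hζ1.1 hζ1.2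
      · rw [hLe]
        simp only []
        rw [if_neg hζ])
    (by
      rw [hKe]
      have h1 : Measurable (fun q : ℂ × ℂ =>
          (q.1, (mm Γ q.1.im : ℂ) + (hh Γ q.1.im : ℂ) * q.2)) := by
        have h2 : Measurable (fun q : ℂ × ℂ => ((mm Γ q.1.im : ℝ) : ℂ)) :=
          Complex.measurable_ofReal.comp (mmm.comp (Complex.measurable_im.comp measurable_fst))
        have h3 : Measurable (fun q : ℂ × ℂ => ((hh Γ q.1.im : ℝ) : ℂ)) :=
          Complex.measurable_ofReal.comp (mh.comp (Complex.measurable_im.comp measurable_fst))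
        exact measurable_fst.prodMk (h2.add (h3.mul measurable_snd))
      exact Measurable.ite (measurable_fst hA) (hkm.comp h1) measurable_const)
    (by
      intro ζ
      by_cases hζ : ζ ∈ A
      · have h1 : DifferentiableOn ℂ (fun s => k (ζ, (mm Γ ζ.im : ℂ) + (hh Γ ζ.im : ℂ) * s))
            (Rc (L ζ)) :=
          (hkd ζ hζ).comp (t := {b | (ζ, b) ∈ TD Γ ρ})
            (f := fun s => (mm Γ ζ.im : ℂ) + (hh Γ ζ.im : ℂ) * s) (by fun_prop)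
            (fun s hs => hmap ζ hζ s hs)
        exact h1.congr fun s _ => hKA ζ hζ s
      · have h1 : K ζ = fun _ => 0 := by
          funext s
          rw [hKe]
          exact if_neg hζ
        rw [h1]
        exact differentiableOn_const _)
    (by
      intro ζ s hs
      by_cases hζ : ζ ∈ A
      · rw [hKA ζ hζ]
        exact hkb ζ hζ _ (hmap ζ hζ s hs)
      · have h1 : K ζ s = 0 := by
          rw [hKe]
          exact if_neg hζ
        rw [h1, norm_zero]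
        exact hM)
  -- the arguments
  obtain ⟨c, hce⟩ : ∃ c : ℝ → ℝ, c = fun t => min (cP Γ σ t) (cM Γ σ t) := ⟨_, rfl⟩
  obtain ⟨x, hx⟩ : ∃ x : ℂ → ℂ × ℂ → ℂ, x = fun ζ p =>
    (p.2 - (mm Γ ζ.im : ℂ)) / (hh Γ ζ.im : ℂ) := ⟨_, rfl⟩
  obtain ⟨xP, hxP⟩ : ∃ xP : ℂ → ℂ × ℂ → ℂ, xP = fun ζ p =>
    x ζ p + I * (p.1 - ζ) / ((cP Γ σ ζ.im * hh Γ ζ.im : ℝ) : ℂ) := ⟨_, rfl⟩
  obtain ⟨xM, hxM⟩ : ∃ xM : ℂ → ℂ × ℂ → ℂ, xM = fun ζ p =>
    x ζ p - I * (p.1 - ζ) / ((cM Γ σ ζ.im * hh Γ ζ.im : ℝ) : ℂ) := ⟨_, rfl⟩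
  obtain ⟨xE, hxE⟩ : ∃ xE : ℂ → ℂ × ℂ → ℂ, xE = fun ζ p =>
    I * (p.1 - ζ) / ((c ζ.im * hh Γ ζ.im : ℝ) : ℂ) := ⟨_, rfl⟩
  have hxre : ∀ ζ p, (x ζ p).re = (p.2.re - mm Γ ζ.im) / hh Γ ζ.im := by
    intro ζ p
    rw [hx]
    simp only []
    rw [div_eq_mul_inv, ← Complex.ofReal_inv, Complex.re_mul_ofReal, sub_re, ofReal_re,
      div_eq_mul_inv]
  have hxim : ∀ ζ p, (x ζ p).im = p.2.im / hh Γ ζ.im := by
    intro ζ p
    rw [hx]
    simp only []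
    rw [div_eq_mul_inv, ← Complex.ofReal_inv, Complex.im_mul_ofReal, sub_im, ofReal_im, sub_zero,
      div_eq_mul_inv]
  have hqre : ∀ (w : ℂ) (d : ℝ), (I * w / (d : ℂ)).re = -w.im / d := by
    intro w d
    rw [div_eq_mul_inv, ← Complex.ofReal_inv, Complex.re_mul_ofReal]
    simp [div_eq_mul_inv]
  have hcpos : ∀ ζ ∈ A, 0 < c ζ.im ∧ c ζ.im ≤ cP Γ σ ζ.im ∧ c ζ.im ≤ cM Γ σ ζ.im := by
    intro ζ hζ
    have hζ1 := hA' ζ hζ
    rw [hce]
    exact ⟨lt_min (hG.cP_pos hζ1.1) (hG.cM_pos hζ1.1), min_le_left _ _, min_le_right _ _⟩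
  have hPre : ∀ ζ ∈ A, ∀ p ∈ TD Γ (ρ / 2), (xP ζ p).re < 1 := by
    intro ζ hζ p hp
    have hζ1 := (hA' ζ hζ).1
    have h1 := hG.hh_pos hζ1
    have h2 := hG.cP_pos hζ1
    have h3 := hG.tanP hζ1 p.2.re
    have h4 := hp.1
    rw [hxP]
    simp only []
    rw [add_re, hxre, hqre, sub_im]
    have h5 : (p.2.re - mm Γ ζ.im) / hh Γ ζ.im + -(p.1.im - ζ.im) / (cP Γ σ ζ.im * hh Γ ζ.im) =
        ((p.2.re - mm Γ ζ.im) * cP Γ σ ζ.im - (p.1.im - ζ.im)) / (cP Γ σ ζ.im * hh Γ ζ.im) := by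
      field_simp
      ring
    rw [h5, div_lt_one (by positivity)]
    have h6 : cP Γ σ ζ.im * hh Γ ζ.im = cP Γ σ ζ.im * (rr Γ ζ.im - mm Γ ζ.im) := by
      unfold hh mm
      ring
    rw [h6]
    nlinarith
  have hMre : ∀ ζ ∈ A, ∀ p ∈ TD Γ (ρ / 2), -1 < (xM ζ p).re := by
    intro ζ hζ p hp
    have hζ1 := (hA' ζ hζ).1
    have h1 := hG.hh_pos hζ1
    have h2 := hG.cM_pos hζ1
    have h3 := hG.tanM hζ1 p.2.re
    have h4 := hp.1
    rw [hxM]
    simp only []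
    rw [sub_re, hxre, hqre, sub_im]
    have h5 : (p.2.re - mm Γ ζ.im) / hh Γ ζ.im - -(p.1.im - ζ.im) / (cM Γ σ ζ.im * hh Γ ζ.im) =
        ((p.2.re - mm Γ ζ.im) * cM Γ σ ζ.im + (p.1.im - ζ.im)) / (cM Γ σ ζ.im * hh Γ ζ.im) := by
      field_simp
      ring
    rw [h5, lt_div_iff₀ (by positivity)]
    have h6 : cM Γ σ ζ.im * hh Γ ζ.im = cM Γ σ ζ.im * (mm Γ ζ.im - ll Γ ζ.im) := by
      unfold hh mm
      ring
    rw [h6]
    nlinarith
  have hEre : ∀ ζ ∈ A, ∀ p ∈ TD Γ (ρ / 2), |(x ζ p).re| + (xE ζ p).re ≤ 3 := by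
    intro ζ hζ p hp
    have hζ1 := (hA' ζ hζ).1
    have h1 := hG.hh_pos hζ1
    obtain ⟨h2, h2P, h2M⟩ := hcpos ζ hζ
    have h3P := hG.tanP hζ1 p.2.re
    have h3M := hG.tanM hζ1 p.2.re
    have h4 := hp.1
    have h0P := hG.tanP hζ1 0
    have h0M := hG.tanM hζ1 0
    rw [hG.z] at h0P h0M
    have h5 := hG.lr hζ1
    have hmm : mm Γ ζ.im = (rr Γ ζ.im + ll Γ ζ.im) / 2 := rfl
    have hhh : hh Γ ζ.im = (rr Γ ζ.im - ll Γ ζ.im) / 2 := rfl
    rw [hxE]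
    simp only []
    rw [hxre, hqre, sub_im, abs_div, abs_of_pos h1]
    have h6 : |p.2.re - mm Γ ζ.im| / hh Γ ζ.im + -(p.1.im - ζ.im) / (c ζ.im * hh Γ ζ.im) =
        (|p.2.re - mm Γ ζ.im| * c ζ.im - (p.1.im - ζ.im)) / (c ζ.im * hh Γ ζ.im) := by
      field_simp
      ring
    rw [h6, div_le_iff₀ (by positivity)]
    rcases le_or_gt (rr Γ ζ.im) p.2.re with h7 | h7
    · -- right of the slice
      have h8 : |p.2.re - mm Γ ζ.im| = p.2.re - mm Γ ζ.im := abs_of_nonneg (by linarith [h5.1, h5.2])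
      rw [h8]
      have h9 : c ζ.im * (p.2.re - rr Γ ζ.im) ≤ cP Γ σ ζ.im * (p.2.re - rr Γ ζ.im) :=
        mul_le_mul_of_nonneg_right h2P (by linarith)
      have h10 : (p.2.re - mm Γ ζ.im) * c ζ.im =
          c ζ.im * (p.2.re - rr Γ ζ.im) + c ζ.im * hh Γ ζ.im := by
        rw [hmm, hhh]
        ring
      rw [h10]
      have h11 : 0 < c ζ.im * hh Γ ζ.im := by positivity
      linarith
    · rcases le_or_gt p.2.re (ll Γ ζ.im) with h7' | h7'
      · have h8 : |p.2.re - mm Γ ζ.im| = mm Γ ζ.im - p.2.re := by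
          rw [abs_of_nonpos (by linarith [h5.1, h5.2])]
          ring
        rw [h8]
        have h9 : c ζ.im * (ll Γ ζ.im - p.2.re) ≤ cM Γ σ ζ.im * (ll Γ ζ.im - p.2.re) :=
          mul_le_mul_of_nonneg_right h2M (by linarith)
        have h10 : (mm Γ ζ.im - p.2.re) * c ζ.im =
            c ζ.im * (ll Γ ζ.im - p.2.re) + c ζ.im * hh Γ ζ.im := by
          rw [hmm, hhh]
          ring
        rw [h10]
        have h11 : 0 < c ζ.im * hh Γ ζ.im := by positivity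
        linarith
      · have h8 : |p.2.re - mm Γ ζ.im| ≤ hh Γ ζ.im := by
          rw [abs_le, hmm, hhh]
          constructor <;> linarith
        have h9 : |p.2.re - mm Γ ζ.im| * c ζ.im ≤ hh Γ ζ.im * c ζ.im := by gcongr
        have hp0 : 0 ≤ p.1.im := (hG.nonneg _).trans h4.le
        -- `t ≤ 2 h c`
        have h10 : ζ.im ≤ 2 * (c ζ.im * hh Γ ζ.im) := by
          have e1 : ζ.im ≤ cP Γ σ ζ.im * rr Γ ζ.im := by linarith
          have e2 : ζ.im ≤ cM Γ σ ζ.im * (-ll Γ ζ.im) := by linarith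
          have e3 : cP Γ σ ζ.im * rr Γ ζ.im ≤ cP Γ σ ζ.im * (2 * hh Γ ζ.im) := by
            refine mul_le_mul_of_nonneg_left ?_ (h2.le.trans h2P)
            rw [hhh]
            linarith [h5.1]
          have e4 : cM Γ σ ζ.im * (-ll Γ ζ.im) ≤ cM Γ σ ζ.im * (2 * hh Γ ζ.im) := by
            refine mul_le_mul_of_nonneg_left ?_ (h2.le.trans h2M)
            rw [hhh]
            linarith [h5.2]
          have e5 : c ζ.im = cP Γ σ ζ.im ∨ c ζ.im = cM Γ σ ζ.im := by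
            rw [hce]
            exact min_choice _ _
          rcases e5 with e5 | e5
          · rw [e5]
            linarith
          · rw [e5]
            linarith
        linarith
  have hxm : Measurable (fun q : ℂ × (ℂ × ℂ) => x q.1 q.2) := by
    rw [hx]
    have h2 : Measurable (fun q : ℂ × (ℂ × ℂ) => ((mm Γ q.1.im : ℝ) : ℂ)) :=
      Complex.measurable_ofReal.comp (mmm.comp (Complex.measurable_im.comp measurable_fst))
    have h3 : Measurable (fun q : ℂ × (ℂ × ℂ) => ((hh Γ q.1.im : ℝ) : ℂ)) :=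
      Complex.measurable_ofReal.comp (mh.comp (Complex.measurable_im.comp measurable_fst))
    exact ((measurable_snd.comp measurable_snd).sub h2).div h3
  have hqm : ∀ d : ℝ → ℝ, Measurable d → Measurable (fun q : ℂ × (ℂ × ℂ) =>
      I * (q.2.1 - q.1) / ((d q.1.im * hh Γ q.1.im : ℝ) : ℂ)) := by
    intro d hd
    have h2 : Measurable (fun q : ℂ × (ℂ × ℂ) => ((d q.1.im * hh Γ q.1.im : ℝ) : ℂ)) :=
      Complex.measurable_ofReal.comp ((hd.comp (Complex.measurable_im.comp measurable_fst)).mul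
        (mh.comp (Complex.measurable_im.comp measurable_fst)))
    exact (((measurable_fst.comp measurable_snd).sub measurable_fst).const_mul I).div h2
  have mc : Measurable c := by
    rw [hce]
    exact mcP.min mcM
  refine ⟨fun ζ p => P ζ (xP ζ p) + N ζ (xM ζ p) + Z ζ (x ζ p) * Complex.exp (xE ζ p),
    ?_, fun ζ hζ => ?_, fun ζ hζ p hp => ?_, fun ζ hζ b hb => ?_⟩
  · have h1 : Measurable (fun q : ℂ × (ℂ × ℂ) => xP q.1 q.2) := by
      rw [hxP]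
      exact hxm.add (hqm _ mcP)
    have h2 : Measurable (fun q : ℂ × (ℂ × ℂ) => xM q.1 q.2) := by
      rw [hxM]
      exact hxm.sub (hqm _ mcM)
    have h3 : Measurable (fun q : ℂ × (ℂ × ℂ) => xE q.1 q.2) := by
      rw [hxE]
      exact hqm _ mc
    exact ((mP.comp (measurable_fst.prodMk h1)).add (mN.comp (measurable_fst.prodMk h2))).add
      ((mZ.comp (measurable_fst.prodMk hxm)).mul (Complex.measurable_exp.comp h3))
  · have hxd : Differentiable ℂ (x ζ) := by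
      rw [hx]
      simp only [div_eq_mul_inv]
      fun_prop
    have hqd : ∀ d : ℂ, Differentiable ℂ (fun p : ℂ × ℂ => I * (p.1 - ζ) / d) := fun d => by
      simp only [div_eq_mul_inv]
      fun_prop
    have hxPd : Differentiable ℂ (xP ζ) := by
      rw [hxP]
      exact hxd.add (hqd _)
    have hxMd : Differentiable ℂ (xM ζ) := by
      rw [hxM]
      exact hxd.sub (hqd _)
    have hxEd : Differentiable ℂ (xE ζ) := by
      rw [hxE]
      exact hqd _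
    have h1 : DifferentiableOn ℂ (fun p => P ζ (xP ζ p)) (TD Γ (ρ / 2)) :=
      (dP ζ).comp hxPd.differentiableOn fun p hp => hPre ζ hζ p hp
    have h2 : DifferentiableOn ℂ (fun p => N ζ (xM ζ p)) (TD Γ (ρ / 2)) :=
      (dN ζ).comp hxMd.differentiableOn fun p hp => hMre ζ hζ p hp
    have h3 : DifferentiableOn ℂ (fun p => Z ζ (x ζ p)) (TD Γ (ρ / 2)) := by
      refine (dZ ζ).comp hxd.differentiableOn fun p hp => ?_
      have hp0 := hG.hh_pos (hA' ζ hζ).1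
      change |(x ζ p).im| < L ζ / 2
      rw [hxim, abs_div, abs_of_pos hp0, hLA ζ hζ]
      rw [div_div, mul_comm, ← div_div]
      exact div_lt_div_of_pos_right hp.2 hp0
    exact (h1.fun_add h2).fun_add (h3.fun_mul (hxEd.cexp.differentiableOn))
  · have h1 := bP ζ _ (hPre ζ hζ p hp)
    have h2 := bN ζ _ (hMre ζ hζ p hp)
    have h3 := bZ ζ (x ζ p)
    have h4 : ‖Z ζ (x ζ p) * Complex.exp (xE ζ p)‖ ≤ C * M * Real.exp 3 := by
      rw [norm_mul, Complex.norm_exp]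
      calc ‖Z ζ (x ζ p)‖ * Real.exp (xE ζ p).re
          ≤ C * M * Real.exp |(x ζ p).re| * Real.exp (xE ζ p).re := by gcongr
        _ = C * M * Real.exp (|(x ζ p).re| + (xE ζ p).re) := by rw [Real.exp_add]; ring
        _ ≤ C * M * Real.exp 3 := by
            have := Real.exp_le_exp.2 (hEre ζ hζ p hp)
            gcongr
    have h5 := norm_add_le (P ζ (xP ζ p) + N ζ (xM ζ p)) (Z ζ (x ζ p) * Complex.exp (xE ζ p))
    have h6 := norm_add_le (P ζ (xP ζ p)) (N ζ (xM ζ p))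
    calc _ ≤ C * M + C * M + C * M * Real.exp 3 := by linarith
      _ = _ := by ring
  · have hp0 := hG.hh_pos (hA' ζ hζ).1
    have e1 : xP ζ (ζ, b) = x ζ (ζ, b) := by
      rw [hxP]
      simp
    have e2 : xM ζ (ζ, b) = x ζ (ζ, b) := by
      rw [hxM]
      simp
    have e3 : xE ζ (ζ, b) = 0 := by
      rw [hxE]
      simp
    simp only []
    rw [e1, e2, e3, Complex.exp_zero, mul_one]
    have h1 : |(x ζ (ζ, b)).im| < L ζ / 2 := by
      rw [hxim, abs_div, abs_of_pos hp0, hLA ζ hζ]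
      rw [div_div, mul_comm, ← div_div]
      exact div_lt_div_of_pos_right hb.2 hp0
    rw [← hsum ζ _ h1, hKA ζ hζ]
    congr 2
    rw [hx]
    simp only []
    have h2 : ((hh Γ ζ.im : ℝ) : ℂ) ≠ 0 := by exact_mod_cast hp0.ne'
    field_simp
    ring

end Pool.Agent.R223.Tor
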