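import Mathlib
import Pool.Agent.R223.Tor.Tub

/-!
Localisation over the functions of the first variable on tube domains.
-/

set_option autoImplicit false
set_option linter.unusedSectionVars false

open MeasureTheory Metric Set Filter Topology Complex
open scoped ContDiff

namespace Pool.Agent.R223.Tor

open Pool.Agent.H720R2 Pool.Agent.H720R2.HP
open Pool.Agent.H788R3.Cor3 (exhaust3)
open Pool.Agent.Y263.LF (Bdd VJ VJ_bound VJ_weak VJ_diff2 Bez Bez.mono)
open Pool.Agent.Y263.SC (Ov AA den1')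
open Pool.Agent.Y263.GF (VJ_curve solveZ)

theorem TD_open {Γ σ : ℝ → ℝ} (hG : GS Γ σ) (ρ : ℝ) : IsOpen (TD Γ ρ) := by
  refine IsOpen.inter ?_ ?_
  · exact isOpen_lt (hG.cont.comp (Complex.continuous_re.comp continuous_snd))
      (Complex.continuous_im.comp continuous_fst)
  · exact isOpen_lt (continuous_abs.comp (Complex.continuous_im.comp continuous_snd))
      continuous_const

theorem TD_ov {Γ σ : ℝ → ℝ} (hG : GS Γ σ) (ρ : ℝ) : Ov (TD Γ ρ) :=
  ⟨TD_open hG ρ, fun p hp => lt_of_le_of_lt (hG.nonneg _) hp.1⟩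

/-- the localisation theorem for functions which are smooth at the boundary -/
theorem locA (N M : ℕ) {ε Q : ℝ} (hε : 0 < ε) (hε1 : ε ≤ 1) (hQ : 0 ≤ Q) : ∃ C : ℝ, 0 ≤ C ∧
    ∀ (Γ σ : ℝ → ℝ), GS Γ σ → ∀ (ρ t₀ : ℝ), 0 < ρ → (∀ t, 0 < t → t ≤ t₀ → hh Γ t ≤ ρ) →
    ∀ (f : Fin N → ℂ → ℂ) (η : ℝ), (∀ i, Nice (f i) η) →
    (∀ i, ∃ c : ℂ, Tendsto (f i) (Bornology.cobounded ℂ ⊓ 𝓟 {w : ℂ | 0 ≤ w.im}) (𝓝 c)) →
    (∀ w : ℂ, 0 < w.im → (∀ i, ‖f i w‖ ≤ ε / 2) → w.im ≤ t₀) →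
    ∀ (G : Fin M → ℂ × ℂ → ℂ), (∀ j, DifferentiableOn ℂ (G j) (TD Γ ρ)) →
    (∀ j, ∀ p ∈ TD Γ ρ, ‖G j p‖ ≤ 1) →
    Bez {p | p ∈ TD Γ ρ ∧ ∀ i, ‖f i p.1‖ < ε} G Q →
    Bez (TD Γ (ρ / 2)) (Sum.elim (fun (i : Fin N) p => f i p.1) G) C := by
  classical
  obtain ⟨Ce, hCe, HE⟩ := tube_ext
  obtain ⟨ε', C, hε', hC, hcutN⟩ := cutN N (ε := ε / 2) (by positivity) (by linarith)
  obtain ⟨CV, hCVe⟩ : ∃ CV : ℝ, CV = 2160 * Real.exp C * (C / ε') * (Ce * Q) := ⟨_, rfl⟩
  have hCV : 0 ≤ CV := by rw [hCVe]; positivity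
  refine ⟨max (1 / ε' + Fintype.card (Fin M) * CV +
    N * (2 * (2160 * Real.exp C * (2 * C / ε' ^ 2) * 1))) (Q + N * CV), ?_, ?_⟩
  · exact le_max_of_le_right (by positivity)
  intro Γ σ hG ρ t₀ hρ ht₀ f η hn hlim hreg G hGd hGb hbez
  obtain ⟨S, a, R, χ, hcut⟩ := hcutN f η hn hlim
  obtain ⟨k, hkd, hkb, hGk⟩ := hbez
  have hfd : ∀ i, DifferentiableOn ℂ (f i) UH := fun i => (hn i).diff.mono fun w hw => by
    have h1 : (0 : ℝ) < w.im := hw
    have h2 := (hn i).pos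
    change -η < w.im
    linarith
  have hTO := TD_open hG ρ
  have hsub : TD Γ (ρ / 2) ⊆ TD Γ ρ := fun p hp => ⟨hp.1, by
    have := hp.2
    linarith⟩
  have hOv := TD_ov hG (ρ / 2)
  obtain ⟨O, hOe⟩ : ∃ O : Set ℂ, O = {w | w ∈ UH ∧ ∀ i, ‖f i w‖ < ε} := ⟨_, rfl⟩
  have hO : IsOpen O := by
    rw [hOe]
    exact Pool.Agent.Y263.LF.cut_open hfd ε
  obtain ⟨Dε, hDεe⟩ : ∃ Dε : Set (ℂ × ℂ), Dε = {p | p ∈ TD Γ ρ ∧ ∀ i, ‖f i p.1‖ < ε} := ⟨_, rfl⟩
  have hDε : IsOpen Dε := by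
    have h1 : Dε = TD Γ ρ ∩ {p | p.1 ∈ O} := by
      ext p
      rw [hDεe, hOe]
      exact ⟨fun h => ⟨h.1, lt_of_le_of_lt (hG.nonneg _) h.1.1, h.2⟩, fun h => ⟨h.1, h.2.2⟩⟩
    rw [h1]
    exact hTO.inter (hO.preimage continuous_fst)
  rw [← hDεe] at hkd hkb hGk
  obtain ⟨kk, hkk⟩ : ∃ kk : Fin M → ℂ × ℂ → ℂ, kk = fun j => Dε.indicator (k j) := ⟨_, rfl⟩
  have hkkeq : ∀ j, ∀ p ∈ Dε, kk j p = k j p := fun j p hp => by
    rw [hkk]
    exact indicator_of_mem hp _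
  have hkm : ∀ j, Measurable (kk j) := by
    intro j
    rw [hkk]
    beta_reduce
    rw [← Set.piecewise_eq_indicator]
    exact ContinuousOn.measurable_piecewise (hkd j).continuousOn continuousOn_const
      hDε.measurableSet
  have hAm : MeasurableSet (Pool.Agent.Y263.SC.AA f (ε / 2)) := by
    have h1 : Pool.Agent.Y263.SC.AA f (ε / 2) = UH ∩ ⋂ i, {ζ | ‖UH.indicator (f i) ζ‖ ≤ ε / 2} := by
      ext ζ
      simp only [Pool.Agent.Y263.SC.AA, mem_ofPred_eq, mem_inter_iff, mem_iInter]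
      constructor
      · rintro ⟨h1, h2⟩
        have h3 : ζ ∈ UH := h1
        refine ⟨h3, fun i => ?_⟩
        rw [indicator_of_mem h3]
        exact h2 i
      · rintro ⟨h1, h2⟩
        refine ⟨h1, fun i => ?_⟩
        have h3 := h2 i
        rw [indicator_of_mem h1] at h3
        exact h3
    rw [h1]
    refine isOpen_UH.measurableSet.inter (MeasurableSet.iInter fun i => ?_)
    have h2 : Measurable (UH.indicator (f i)) := by
      rw [← Set.piecewise_eq_indicator]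
      exact ContinuousOn.measurable_piecewise (hfd i).continuousOn continuousOn_const
        isOpen_UH.measurableSet
    exact measurableSet_le h2.norm measurable_const
  have hslice : ∀ ζ ∈ Pool.Agent.Y263.SC.AA f (ε / 2), ∀ b, (ζ, b) ∈ TD Γ ρ → (ζ, b) ∈ Dε := by
    intro ζ hζ b hb
    rw [hDεe]
    exact ⟨hb, fun i => lt_of_le_of_lt (hζ.2 i) (by linarith)⟩
  have hex := fun j => HE Γ σ hG ρ t₀ hρ ht₀ (Pool.Agent.Y263.SC.AA f (ε / 2)) hAm
    (fun ζ hζ => ⟨hζ.1, hreg ζ hζ.1 hζ.2⟩) (kk j) (hkm j) Q hQ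
    (by
      intro ζ hζ b hb
      have h1 := hslice ζ hζ b hb
      have h2 : DifferentiableAt ℂ (kk j) (ζ, b) := by
        refine ((hkd j).differentiableAt (hDε.mem_nhds h1)).congr_of_eventuallyEq ?_
        filter_upwards [hDε.mem_nhds h1] with q hq
        exact hkkeq j q hq
      have h3 : DifferentiableAt ℂ (fun b : ℂ => (ζ, b)) b :=
        (differentiableAt_const _).prodMk differentiableAt_id
      exact (DifferentiableAt.comp (g := kk j) b h2 h3).differentiableWithinAt)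
    (by
      intro ζ hζ b hb
      have h1 := hslice ζ hζ b hb
      rw [hkkeq j _ h1]
      exact hkb j _ h1)
  choose e hem hed heb hes using hex
  have hB : ∀ j, Bdd (TD Γ (ρ / 2)) (Pool.Agent.Y263.SC.AA f (ε / 2)) (Ce * Q) (e j) := by
    intro j
    refine ⟨fun y => ?_, hed j, heb j⟩
    have h1 : Measurable (fun q : ℂ × ℂ => (q.1, (q.2, y))) := by fun_prop
    exact (hem j).comp h1
  have hCQ : 0 ≤ Ce * Q := mul_nonneg hCe hQ
  have hden := fun i => den1' hcut hε' hC.le hfd i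
  obtain ⟨g, g0, s1, s2, s3, s4, s5⟩ := solveZ (U := TD Γ (ρ / 2)) (W := Prod.fst)
    (TD_open hG _) differentiable_fst.differentiableOn (fun x hx => hOv.im x hx)
    (by
      intro x hx v hv
      rw [fderiv_fst] at hv
      have h1 : v.1 = 0 := hv
      refine Eventually.of_forall fun t => ?_
      change x.1 + t • v.1 = x.1
      rw [h1, smul_zero, add_zero])
    hcut hε' hC.le hfd (fun i w hw => (hn i).bd w (le_of_lt hw)) (G := G)
    (fun j => (hGd j).mono hsub) (fun j p hp => hGb j p (hsub hp)) hO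
    (fun w hw hi => by
      rw [hOe]
      exact ⟨hw, fun i => lt_of_le_of_lt (hi i) (by linarith)⟩) (k := k)
    (fun j => (hkd j).mono fun p hp => by
      have h1 := hp.2
      rw [hOe] at h1
      rw [hDεe]
      exact ⟨hsub hp.1, h1.2⟩) hQ
    (fun j p hp hpO => hkb j p (by
      rw [hOe] at hpO
      rw [hDεe]
      exact ⟨hsub hp, hpO.2⟩))
    (fun p hp hpO => hGk p (by
      rw [hOe] at hpO
      rw [hDεe]
      exact ⟨hsub hp, hpO.2⟩))
    (C1 := CV) (V := fun i j x => VJ (TD Γ (ρ / 2)) (e j) S a R (mu1 f S R χ i) x)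
    (fun i j x hx => by
      rw [hCVe]
      exact VJ_bound hOv hcut.fam (hB j) hCQ (hden i) hx)
    (by
      intro i j Ω γ hΩ hγ hγm hγW
      have hγ2 : DifferentiableOn ℂ (fun s => (γ s).2) Ω := fun s hs =>
        (differentiableAt_snd.comp_differentiableWithinAt s (hγ s hs))
      have hγe : ∀ s ∈ Ω, γ s = (s, (γ s).2) := fun s hs => Prod.ext (hγW s hs) rfl
      refine (VJ_curve hOv hcut.fam (hB j) (hem j) hCQ (hden i) hΩ hγ2 (fun s hs => by
        rw [← hγe s hs]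
        exact hγm hs)).congr hΩ (fun s hs => ?_) (fun s hs => ?_)
      · rw [← hγe s hs]
      · by_cases hmu : mu1 f S R χ i s = 0
        · rw [hmu, zero_mul, zero_mul]
        · have h1 := (hden i).hA s hmu
          have h2 : (s, (γ s).2) ∈ TD Γ (ρ / 2) := by
            rw [← hγe s hs]
            exact hγm hs
          rw [hes j s h1 _ h2, hkkeq j _ (hslice s h1 _ (hsub h2)), ← hγe s hs])
    (by
      intro i j x hx v hconst
      have hv : v.1 = 0 := by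
        obtain ⟨δ, hδ, hB'⟩ := Metric.eventually_nhds_iff.1 hconst
        have h1 := hB' (y := ((δ / 2 : ℝ) : ℂ)) (by
          rw [dist_zero_right, Complex.norm_real, Real.norm_of_nonneg (by positivity)]
          linarith)
        have h2 : x.1 + ((δ / 2 : ℝ) : ℂ) • v.1 = x.1 := h1
        have h3 : ((δ / 2 : ℝ) : ℂ) • v.1 = 0 := by simpa using h2
        rw [smul_eq_zero] at h3
        rcases h3 with h3 | h3
        · have h4 : (δ / 2 : ℝ) = 0 := by exact_mod_cast h3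
          linarith
        · exact h3
      have h1 : DifferentiableAt ℂ (fun y : ℂ => VJ (TD Γ (ρ / 2)) (e j) S a R (mu1 f S R χ i)
          (x.1, y)) (x.2 + (0 : ℂ) * v.2) := by
        rw [zero_mul, add_zero]
        have hO1 : IsOpen {y : ℂ | (x.1, y) ∈ TD Γ (ρ / 2)} :=
          (TD_open hG _).preimage (by fun_prop : Continuous fun y : ℂ => (x.1, y))
        exact (VJ_diff2 hOv hcut.fam (hB j) hCQ (hden i) x.1).differentiableAt
          (hO1.mem_nhds hx)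
      have h2 := DifferentiableAt.comp (g := fun y : ℂ => VJ (TD Γ (ρ / 2)) (e j) S a R
        (mu1 f S R χ i) (x.1, y)) (f := fun t : ℂ => x.2 + t * v.2) 0 h1 (by fun_prop)
      refine h2.congr_of_eventuallyEq (Eventually.of_forall fun t => ?_)
      have h3 : x + t • v = (x.1, x.2 + t * v.2) := by
        refine Prod.ext ?_ rfl
        change x.1 + t • v.1 = x.1
        rw [hv, smul_zero, add_zero]
      simp only [Function.comp_apply]
      rw [h3])
  refine ⟨Sum.elim g g0, ?_, ?_, fun p hp => ?_⟩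
  · rintro (i | j)
    · exact s1 i
    · exact s2 j
  · rintro (i | j) p hp
    · exact (s3 i p hp).trans (le_max_left _ _)
    · exact (s4 j p hp).trans (le_max_right _ _)
  · rw [Fintype.sum_sum_type]
    simp only [Sum.elim_inl, Sum.elim_inr]
    exact s5 p hp

/-- the localisation theorem -/
theorem locB (N M : ℕ) {ε Q : ℝ} (hε : 0 < ε) (hε1 : ε ≤ 1) (hQ : 0 ≤ Q) : ∃ C : ℝ, 0 ≤ C ∧
    ∀ (Γ σ : ℝ → ℝ), GS Γ σ → ∀ (ρ t₀ : ℝ), 0 < ρ → (∀ t, 0 < t → t ≤ t₀ → hh Γ t ≤ ρ) →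
    ∀ (f : Fin N → ℂ → ℂ), (∀ i, DifferentiableOn ℂ (f i) UH) → (∀ i, ∀ w ∈ UH, ‖f i w‖ ≤ 1) →
    (∀ i, ∃ c : ℂ, ∀ η : ℝ, 0 < η →
      Tendsto (f i) (Bornology.cobounded ℂ ⊓ 𝓟 {w : ℂ | η ≤ w.im}) (𝓝 c)) →
    (∀ w : ℂ, 0 < w.im → (∀ i, ‖f i w‖ ≤ ε / 2) → w.im ≤ t₀) →
    ∀ (G : Fin M → ℂ × ℂ → ℂ), (∀ j, DifferentiableOn ℂ (G j) (TD Γ ρ)) →
    (∀ j, ∀ p ∈ TD Γ ρ, ‖G j p‖ ≤ 1) →
    Bez {p | p ∈ TD Γ ρ ∧ ∀ i, ‖f i p.1‖ < ε} G Q →
    Bez (TD Γ (ρ / 2)) (Sum.elim (fun (i : Fin N) p => f i p.1) G) C := by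
  obtain ⟨C, hC, H⟩ := locA N M hε hε1 hQ
  refine ⟨C, hC, ?_⟩
  intro Γ σ hG ρ t₀ hρ ht₀ f hfd hfb hlim hreg G hGd hGb hbez
  obtain ⟨k, hkd, hkb, hGk⟩ := hbez
  -- the shift
  have hsh : ∀ η : ℝ, 0 < η → ∀ r : ℝ, ∀ p ∈ TD Γ r, (p.1 + (η : ℂ) * I, p.2) ∈ TD Γ r := by
    intro η hη r p hp
    refine ⟨?_, hp.2⟩
    have h1 : (p.1 + (η : ℂ) * I).im = p.1.im + η := by simp
    change Γ p.2.re < (p.1 + (η : ℂ) * I).im
    rw [h1]
    have := hp.1
    linarith
  have him : ∀ (η : ℝ) (w : ℂ), (w + (η : ℂ) * I).im = w.im + η := fun η w => by simp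
  have hd1 : ∀ η : ℝ, Differentiable ℂ (fun p : ℂ × ℂ => (p.1 + (η : ℂ) * I, p.2)) :=
    fun η => by fun_prop
  have hsol : ∀ η : ℝ, 0 < η → Bez {p : ℂ × ℂ | (p.1 - (η : ℂ) * I, p.2) ∈ TD Γ (ρ / 2)}
      (Sum.elim (fun (i : Fin N) p => f i p.1) G) C := by
    intro η hη
    have h1 := H Γ σ hG ρ t₀ hρ ht₀ (fun i w => f i (w + (η : ℂ) * I)) η
      (by
        intro i
        refine ⟨hη, ?_, fun w hw => hfb i _ ?_⟩
        · refine (hfd i).comp (by fun_prop) fun w hw => ?_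
          change 0 < (w + (η : ℂ) * I).im
          rw [him]
          have : -η < w.im := hw
          linarith
        · change 0 < (w + (η : ℂ) * I).im
          rw [him]
          linarith)
      (by
        intro i
        obtain ⟨c, hc⟩ := hlim i
        refine ⟨c, (hc η hη).comp ?_⟩
        refine tendsto_inf.2 ⟨?_, ?_⟩
        · refine Tendsto.mono_left ?_ inf_le_left
          rw [← tendsto_norm_atTop_iff_cobounded]
          have h2 : Tendsto (fun w : ℂ => ‖w‖ - η) (Bornology.cobounded ℂ) atTop :=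
            tendsto_atTop_add_const_right _ _ tendsto_norm_cobounded_atTop
          refine tendsto_atTop_mono (fun w => ?_) h2
          have h3 := norm_sub_norm_le w (-((η : ℂ) * I))
          rw [norm_neg, sub_neg_eq_add, norm_mul, norm_I, mul_one, Complex.norm_real,
            Real.norm_of_nonneg hη.le] at h3
          exact h3
        · rw [tendsto_principal]
          have h2 : ∀ᶠ w : ℂ in Bornology.cobounded ℂ ⊓ 𝓟 {w : ℂ | 0 ≤ w.im}, 0 ≤ w.im :=
            mem_inf_of_right (mem_principal_self _)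
          filter_upwards [h2] with w hw
          change η ≤ (w + (η : ℂ) * I).im
          rw [him]
          linarith)
      (by
        intro w hw hi
        have h2 := hreg (w + (η : ℂ) * I) (by rw [him]; linarith) hi
        rw [him] at h2
        linarith)
      (fun j p => G j (p.1 + (η : ℂ) * I, p.2))
      (fun j => (hGd j).comp (hd1 η).differentiableOn fun p hp => hsh η hη ρ p hp)
      (fun j p hp => hGb j _ (hsh η hη ρ p hp))
      (by
        have hm : MapsTo (fun p : ℂ × ℂ => (p.1 + (η : ℂ) * I, p.2))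
            {p | p ∈ TD Γ ρ ∧ ∀ i, ‖f i (p.1 + (η : ℂ) * I)‖ < ε}
            {p | p ∈ TD Γ ρ ∧ ∀ i, ‖f i p.1‖ < ε} := fun p hp => ⟨hsh η hη ρ p hp.1, hp.2⟩
        exact ⟨fun j p => k j (p.1 + (η : ℂ) * I, p.2),
          fun j => (hkd j).comp (hd1 η).differentiableOn hm, fun j p hp => hkb j _ (hm hp),
          fun p hp => hGk _ (hm hp)⟩)
    obtain ⟨g, g1, g2, g3⟩ := h1
    have hd2 : Differentiable ℂ (fun p : ℂ × ℂ => (p.1 - (η : ℂ) * I, p.2)) := by fun_prop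
    refine ⟨fun q p => g q (p.1 - (η : ℂ) * I, p.2), fun q => ?_, fun q p hp => g2 q _ hp,
      fun p hp => ?_⟩
    · exact (g1 q).comp hd2.differentiableOn fun p hp => hp
    · rw [← g3 _ hp]
      refine Finset.sum_congr rfl fun q _ => ?_
      rcases q with i | j
      · simp only [Sum.elim_inl, sub_add_cancel]
      · simp only [Sum.elim_inr, sub_add_cancel]
  -- exhaustion
  obtain ⟨h, g1, g2, g3⟩ := exhaust3 (C := C)
    (fun m : ℕ => {p : ℂ × ℂ | (p.1 - ((1 / ((m : ℝ) + 1) : ℝ) : ℂ) * I, p.2) ∈ TD Γ (ρ / 2)})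
    (fun m => (TD_open hG _).preimage (by fun_prop))
    (by
      intro m n hmn p hp
      have h1 : 1 / ((n : ℝ) + 1) ≤ 1 / ((m : ℝ) + 1) := by
        have : (m : ℝ) ≤ n := by exact_mod_cast hmn
        gcongr
      refine ⟨?_, hp.2⟩
      have h2 := hp.1
      have h3 : ∀ η : ℝ, (p.1 - (η : ℂ) * I).im = p.1.im - η := fun η => by simp
      change Γ p.2.re < (p.1 - ((1 / ((n : ℝ) + 1) : ℝ) : ℂ) * I).im
      change Γ p.2.re < (p.1 - ((1 / ((m : ℝ) + 1) : ℝ) : ℂ) * I).im at h2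
      rw [h3] at h2 ⊢
      linarith)
    (Sum.elim (fun (i : Fin N) p => f i p.1) G)
    (fun m => hsol (1 / ((m : ℝ) + 1)) (by positivity))
  have hU : (⋃ m : ℕ, {p : ℂ × ℂ | (p.1 - ((1 / ((m : ℝ) + 1) : ℝ) : ℂ) * I, p.2) ∈
      TD Γ (ρ / 2)}) = TD Γ (ρ / 2) := by
    ext p
    rw [mem_iUnion]
    have h3 : ∀ η : ℝ, (p.1 - (η : ℂ) * I).im = p.1.im - η := fun η => by simp
    constructor
    · rintro ⟨m, hm⟩
      refine ⟨?_, hm.2⟩
      have h2 := hm.1
      change Γ p.2.re < (p.1 - ((1 / ((m : ℝ) + 1) : ℝ) : ℂ) * I).im at h2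
      rw [h3] at h2
      have h4 : 0 < 1 / ((m : ℝ) + 1) := by positivity
      linarith
    · intro hp
      obtain ⟨m, hm⟩ := exists_nat_one_div_lt (sub_pos.2 hp.1)
      refine ⟨m, ?_, hp.2⟩
      change Γ p.2.re < (p.1 - ((1 / ((m : ℝ) + 1) : ℝ) : ℂ) * I).im
      rw [h3]
      linarith
  rw [hU] at g1 g2 g3
  exact ⟨h, g1, g2, g3⟩

end Pool.Agent.R223.Tor
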