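import Mathlib
import Pool.Agent.R223.Tor.LocA

/-!
The convex functions of the ball in `ℂ²` in logarithmic coordinates.
-/

set_option autoImplicit false
set_option linter.unusedSectionVars false

open MeasureTheory Metric Set Filter Topology Complex

namespace Pool.Agent.R223.Tor

noncomputable def eG (p y : ℝ) : ℝ :=
  p * Real.exp (2 * (1 - p) * y) + (1 - p) * Real.exp (-(2 * p * y))

noncomputable def Gam (p y : ℝ) : ℝ := Real.log (eG p y) / 2

noncomputable def Sig (p y : ℝ) : ℝ := p * Real.exp (2 * (1 - p) * y) / eG p y - p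

theorem eG_pos {p : ℝ} (hp0 : 0 < p) (hp1 : p < 1) (y : ℝ) : 0 < eG p y := by
  unfold eG
  have h1 := Real.exp_pos (2 * (1 - p) * y)
  have h2 := Real.exp_pos (-(2 * p * y))
  have h3 : 0 < 1 - p := by linarith
  positivity

theorem eG_cont (p : ℝ) : Continuous (eG p) := by
  unfold eG
  fun_prop

theorem Gam_GS {p : ℝ} (hp0 : 0 < p) (hp1 : p < 1) : GS (Gam p) (Sig p) := by
  have hq : 0 < 1 - p := by linarith
  refine ⟨?_, ?_, ?_, ?_, ?_, ?_⟩
  · unfold Gam
    exact ((eG_cont p).log fun y => (eG_pos hp0 hp1 y).ne').div_const 2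
  · unfold Sig
    have h1 := (eG_cont p).measurable
    have h2 : Measurable (fun y : ℝ => p * Real.exp (2 * (1 - p) * y)) := by fun_prop
    exact (h2.div h1).sub_const p
  · intro y0 y
    have hS := eG_pos hp0 hp1 y0
    have hS' := eG_pos hp0 hp1 y
    obtain ⟨A, hA⟩ : ∃ A : ℝ, A = p * Real.exp (2 * (1 - p) * y0) / eG p y0 := ⟨_, rfl⟩
    obtain ⟨B, hB⟩ : ∃ B : ℝ, B = (1 - p) * Real.exp (-(2 * p * y0)) / eG p y0 := ⟨_, rfl⟩
    have hA0 : 0 ≤ A := by rw [hA]; positivity
    have hB0 : 0 ≤ B := by rw [hB]; positivity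
    have hAB : A + B = 1 := by
      rw [hA, hB, ← add_div]
      exact div_self hS.ne'
    have h1 := convexOn_exp.2 (mem_univ (2 * (1 - p) * (y - y0))) (mem_univ (-(2 * p * (y - y0))))
      hA0 hB0 hAB
    simp only [smul_eq_mul] at h1
    have h2 : eG p y = eG p y0 * (A * Real.exp (2 * (1 - p) * (y - y0)) +
        B * Real.exp (-(2 * p * (y - y0)))) := by
      rw [hA, hB]
      have e1 : Real.exp (2 * (1 - p) * y) =
          Real.exp (2 * (1 - p) * y0) * Real.exp (2 * (1 - p) * (y - y0)) := by
        rw [← Real.exp_add]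
        congr 1
        ring
      have e2 : Real.exp (-(2 * p * y)) =
          Real.exp (-(2 * p * y0)) * Real.exp (-(2 * p * (y - y0))) := by
        rw [← Real.exp_add]
        congr 1
        ring
      have e3 : eG p y = p * (Real.exp (2 * (1 - p) * y0) * Real.exp (2 * (1 - p) * (y - y0))) +
          (1 - p) * (Real.exp (-(2 * p * y0)) * Real.exp (-(2 * p * (y - y0)))) := by
        rw [← e1, ← e2]
        rfl
      rw [e3]
      field_simp
    have h3 : Real.log (eG p y0) + (A * (2 * (1 - p) * (y - y0)) + B * -(2 * p * (y - y0))) ≤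
        Real.log (eG p y) := by
      rw [h2, Real.log_mul hS.ne' (by
        have : 0 < A * Real.exp (2 * (1 - p) * (y - y0)) + B * Real.exp (-(2 * p * (y - y0))) := by
          have h4 : 0 < eG p y0 * (A * Real.exp (2 * (1 - p) * (y - y0)) +
            B * Real.exp (-(2 * p * (y - y0)))) := by rw [← h2]; exact hS'
          exact (mul_pos_iff_of_pos_left hS).1 h4
        exact this.ne')]
      have h5 := Real.log_le_log (Real.exp_pos _) h1
      rw [Real.log_exp] at h5
      linarith
    unfold Gam Sig
    rw [← hA]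
    have h6 : B = 1 - A := by linarith
    rw [h6] at h3
    have h7 : A * (2 * (1 - p) * (y - y0)) + (1 - A) * -(2 * p * (y - y0)) =
        2 * ((A - p) * (y - y0)) := by ring
    rw [h7] at h3
    linarith
  · unfold Gam eG
    simp
  · intro y hy
    unfold Gam
    have h1 : 1 < eG p y := by
      unfold eG
      have h2 : 2 * (1 - p) * y + 1 < Real.exp (2 * (1 - p) * y) :=
        Real.add_one_lt_exp (by positivity)
      have h3 : -(2 * p * y) + 1 < Real.exp (-(2 * p * y)) :=
        Real.add_one_lt_exp (by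
          rw [neg_ne_zero]
          positivity)
      have h4 : p * (2 * (1 - p) * y + 1) < p * Real.exp (2 * (1 - p) * y) := by gcongr
      have h5 : (1 - p) * (-(2 * p * y) + 1) < (1 - p) * Real.exp (-(2 * p * y)) := by gcongr
      nlinarith
    have := Real.log_pos h1
    linarith
  · intro t
    refine ⟨max ((2 * t - Real.log p) / (2 * (1 - p))) ((2 * t - Real.log (1 - p)) / (2 * p)),
      fun y hy => ?_⟩
    unfold Gam at hy
    have hS := eG_pos hp0 hp1 y
    have h1 : Real.log (eG p y) < 2 * t := by linarith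
    have h2 : Real.log (p * Real.exp (2 * (1 - p) * y)) ≤ Real.log (eG p y) := by
      refine Real.log_le_log (by positivity) ?_
      unfold eG
      have := Real.exp_pos (-(2 * p * y))
      nlinarith
    have h3 : Real.log ((1 - p) * Real.exp (-(2 * p * y))) ≤ Real.log (eG p y) := by
      refine Real.log_le_log (by positivity) ?_
      unfold eG
      have := Real.exp_pos (2 * (1 - p) * y)
      nlinarith
    rw [Real.log_mul hp0.ne' (Real.exp_pos _).ne', Real.log_exp] at h2
    rw [Real.log_mul hq.ne' (Real.exp_pos _).ne', Real.log_exp] at h3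
    have h4 : y < (2 * t - Real.log p) / (2 * (1 - p)) := by
      rw [lt_div_iff₀ (by positivity)]
      linarith
    have h5 : -y < (2 * t - Real.log (1 - p)) / (2 * p) := by
      rw [lt_div_iff₀ (by positivity)]
      linarith
    have h6 := le_max_left ((2 * t - Real.log p) / (2 * (1 - p)))
      ((2 * t - Real.log (1 - p)) / (2 * p))
    have h7 := le_max_right ((2 * t - Real.log p) / (2 * (1 - p)))
      ((2 * t - Real.log (1 - p)) / (2 * p))
    rw [abs_lt]
    constructor <;> linarith

theorem eG_eq {p : ℝ} (hp0 : 0 < p) (hp1 : p < 1) (y : ℝ) :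
    eG p y = Real.exp (2 * Gam p y) := by
  unfold Gam
  rw [mul_div_cancel₀ _ (by norm_num), Real.exp_log (eG_pos hp0 hp1 y)]

end Pool.Agent.R223.Tor
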