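import Mathlib
import Pool.Agent.R223.Tor.Gam
import Pool.Agent.TH310.Cor.Whit

/-!
The local theorem at the points of the sphere with two non-zero coordinates.
-/

set_option autoImplicit false
set_option linter.unusedSectionVars false

open MeasureTheory Metric Set Filter Topology Complex

namespace Pool.Agent.R223.Tor

open Pool.Agent.W732.Cor (V)
open Pool.Agent.TH310.Cor (HB)
open Pool.Agent.Y263.LF (Bez Bez.mono)
open Pool.Agent.H720R2.HP (UH)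

/-- the logarithmic coordinates at `b` -/
noncomputable def Zb (b : V 2) (x : ℂ × ℂ) : V 2 :=
  !₂[b 0 * Complex.exp (I * x.1 + ((‖b 1‖ ^ 2 : ℝ) : ℂ) * x.2),
    b 1 * Complex.exp (I * x.1 - ((‖b 0‖ ^ 2 : ℝ) : ℂ) * x.2)]

/-- the function `∏ (z_j / b_j) ^ (|b_j|^2)` -/
noncomputable def psi (b z : V 2) : ℂ :=
  Complex.exp (∑ j, ((‖b j‖ ^ 2 : ℝ) : ℂ) * Complex.log (z j / b j))

noncomputable def Wb (b z : V 2) : ℂ × ℂ :=
  (-(I * ∑ j, ((‖b j‖ ^ 2 : ℝ) : ℂ) * Complex.log (z j / b j)),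
    Complex.log (z 0 / b 0) - Complex.log (z 1 / b 1))

theorem psi_Wb (b z : V 2) : psi b z = Complex.exp (I * (Wb b z).1) := by
  unfold psi Wb
  simp only []
  congr 1
  rw [mul_neg, ← mul_assoc, I_mul_I]
  ring

theorem Zb_diff (b : V 2) : Differentiable ℂ (Zb b) := by
  unfold Zb
  rw [differentiable_euclidean]
  intro i
  fin_cases i
  · simp
    fun_prop
  · simp
    fun_prop

theorem nsum {b : V 2} (hb : ‖b‖ = 1) : ‖b 0‖ ^ 2 + ‖b 1‖ ^ 2 = 1 := by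
  have h := EuclideanSpace.norm_sq_eq b
  rw [hb, Fin.sum_univ_two] at h
  linarith

theorem Zb_norm {b : V 2} (hb : ‖b‖ = 1) (h0 : b 0 ≠ 0) (h1 : b 1 ≠ 0) (x : ℂ × ℂ) :
    ‖Zb b x‖ ^ 2 = Real.exp (2 * (Gam (‖b 0‖ ^ 2) x.2.re - x.1.im)) := by
  have hs := nsum hb
  have hp0 : 0 < ‖b 0‖ ^ 2 := by positivity
  have hq0 : 0 < ‖b 1‖ ^ 2 := by positivity
  have hp1 : ‖b 0‖ ^ 2 < 1 := by linarith
  have hq : ‖b 1‖ ^ 2 = 1 - ‖b 0‖ ^ 2 := by linarith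
  rw [EuclideanSpace.norm_sq_eq, Fin.sum_univ_two]
  have e0 : Zb b x 0 = b 0 * Complex.exp (I * x.1 + ((‖b 1‖ ^ 2 : ℝ) : ℂ) * x.2) := rfl
  have e1 : Zb b x 1 = b 1 * Complex.exp (I * x.1 - ((‖b 0‖ ^ 2 : ℝ) : ℂ) * x.2) := rfl
  rw [e0, e1, norm_mul, norm_mul, mul_pow, mul_pow, Complex.norm_exp, Complex.norm_exp,
    ← Real.exp_nat_mul, ← Real.exp_nat_mul]
  have r0 : (I * x.1 + ((‖b 1‖ ^ 2 : ℝ) : ℂ) * x.2).re = -x.1.im + ‖b 1‖ ^ 2 * x.2.re := by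
    rw [add_re, re_ofReal_mul]
    simp
  have r1 : (I * x.1 - ((‖b 0‖ ^ 2 : ℝ) : ℂ) * x.2).re = -x.1.im - ‖b 0‖ ^ 2 * x.2.re := by
    rw [sub_re, re_ofReal_mul]
    simp
  have e2 : Real.exp (2 * (Gam (‖b 0‖ ^ 2) x.2.re - x.1.im)) =
      eG (‖b 0‖ ^ 2) x.2.re * Real.exp (-(2 * x.1.im)) := by
    rw [mul_sub, sub_eq_add_neg, Real.exp_add, ← eG_eq hp0 hp1]
  rw [r0, r1, e2]
  unfold eG
  rw [hq, add_mul, mul_assoc, mul_assoc (1 - ‖b 0‖ ^ 2), ← Real.exp_add, ← Real.exp_add]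
  push_cast
  congr 3 <;> ring

theorem Zb_mem {b : V 2} (hb : ‖b‖ = 1) (h0 : b 0 ≠ 0) (h1 : b 1 ≠ 0) (x : ℂ × ℂ) :
    Zb b x ∈ ball (0 : V 2) 1 ↔ Gam (‖b 0‖ ^ 2) x.2.re < x.1.im := by
  rw [mem_ball_zero_iff]
  have h := Zb_norm hb h0 h1 x
  have h2 : ‖Zb b x‖ < 1 ↔ ‖Zb b x‖ ^ 2 < 1 := by
    rw [sq_lt_one_iff₀ (norm_nonneg _)]
  rw [h2, h, Real.exp_lt_one_iff]
  constructor <;> intro h3 <;> linarith

theorem Zb_Wb {b z : V 2} (hb : ‖b‖ = 1) (h0 : b 0 ≠ 0) (h1 : b 1 ≠ 0) (hz0 : z 0 ≠ 0)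
    (hz1 : z 1 ≠ 0) : Zb b (Wb b z) = z := by
  have hs := nsum hb
  have hs' : ((‖b 0‖ ^ 2 : ℝ) : ℂ) + ((‖b 1‖ ^ 2 : ℝ) : ℂ) = 1 := by
    rw [← Complex.ofReal_add, hs, Complex.ofReal_one]
  ext i
  fin_cases i
  · change b 0 * Complex.exp (I * (Wb b z).1 + ((‖b 1‖ ^ 2 : ℝ) : ℂ) * (Wb b z).2) = z 0
    have e : I * (Wb b z).1 + ((‖b 1‖ ^ 2 : ℝ) : ℂ) * (Wb b z).2 = Complex.log (z 0 / b 0) := by
      unfold Wb
      simp only [Fin.sum_univ_two]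
      rw [mul_neg, ← mul_assoc, I_mul_I]
      linear_combination (Complex.log (z 0 / b 0)) * hs'
    rw [e, Complex.exp_log (div_ne_zero hz0 h0)]
    field_simp
  · change b 1 * Complex.exp (I * (Wb b z).1 - ((‖b 0‖ ^ 2 : ℝ) : ℂ) * (Wb b z).2) = z 1
    have e : I * (Wb b z).1 - ((‖b 0‖ ^ 2 : ℝ) : ℂ) * (Wb b z).2 = Complex.log (z 1 / b 1) := by
      unfold Wb
      simp only [Fin.sum_univ_two]
      rw [mul_neg, ← mul_assoc, I_mul_I]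
      linear_combination (Complex.log (z 1 / b 1)) * hs'
    rw [e, Complex.exp_log (div_ne_zero hz1 h1)]
    field_simp

theorem Wb_at {b z : V 2} (hz0 : z 0 / b 0 ∈ slitPlane) (hz1 : z 1 / b 1 ∈ slitPlane) :
    DifferentiableAt ℂ (Wb b) z := by
  have d0 : DifferentiableAt ℂ (fun z : V 2 => Complex.log (z 0 / b 0)) z := by
    refine DifferentiableAt.clog ?_ hz0
    simp only [div_eq_mul_inv]
    fun_prop
  have d1 : DifferentiableAt ℂ (fun z : V 2 => Complex.log (z 1 / b 1)) z := by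
    refine DifferentiableAt.clog ?_ hz1
    simp only [div_eq_mul_inv]
    fun_prop
  unfold Wb
  simp only [Fin.sum_univ_two]
  exact ((((d0.const_mul _).add (d1.const_mul _)).const_mul I).neg).prodMk (d0.sub d1)

theorem Wb_b {b : V 2} (h0 : b 0 ≠ 0) (h1 : b 1 ≠ 0) : Wb b b = 0 := by
  unfold Wb
  simp [Fin.sum_univ_two, div_self h0, div_self h1]

theorem psi_Zb {b : V 2} (hb : ‖b‖ = 1) (h0 : b 0 ≠ 0) (h1 : b 1 ≠ 0) {x : ℂ × ℂ}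
    (hx1 : ‖x.1‖ < 1) (hx2 : ‖x.2‖ < 1) : psi b (Zb b x) = Complex.exp (I * x.1) := by
  have hs := nsum hb
  have hs' : ((‖b 0‖ ^ 2 : ℝ) : ℂ) + ((‖b 1‖ ^ 2 : ℝ) : ℂ) = 1 := by
    rw [← Complex.ofReal_add, hs, Complex.ofReal_one]
  have hp0 : 0 ≤ ‖b 0‖ ^ 2 := by positivity
  have hq0 : 0 ≤ ‖b 1‖ ^ 2 := by positivity
  have hi1 := Complex.abs_re_le_norm x.1
  have hi2 := Complex.abs_im_le_norm x.2
  have key : ∀ c : ℝ, |c| ≤ 1 → |(I * x.1 + (c : ℂ) * x.2).im| < Real.pi := by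
    intro c hc
    have h2 : (I * x.1 + (c : ℂ) * x.2).im = x.1.re + c * x.2.im := by
      rw [add_im, im_ofReal_mul]
      simp
    rw [h2]
    have h3 : |c * x.2.im| ≤ 1 * 1 := by
      rw [abs_mul]
      gcongr
      linarith
    have h4 := abs_add_le x.1.re (c * x.2.im)
    have := Real.pi_gt_three
    linarith
  have l0 : Complex.log (Complex.exp (I * x.1 + ((‖b 1‖ ^ 2 : ℝ) : ℂ) * x.2)) =
      I * x.1 + ((‖b 1‖ ^ 2 : ℝ) : ℂ) * x.2 := by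
    have h2 := abs_lt.1 (key (‖b 1‖ ^ 2) (by rw [abs_of_nonneg hq0]; linarith))
    exact Complex.log_exp h2.1 h2.2.le
  have l1 : Complex.log (Complex.exp (I * x.1 - ((‖b 0‖ ^ 2 : ℝ) : ℂ) * x.2)) =
      I * x.1 - ((‖b 0‖ ^ 2 : ℝ) : ℂ) * x.2 := by
    have h2 := abs_lt.1 (key (-(‖b 0‖ ^ 2)) (by rw [abs_neg, abs_of_nonneg hp0]; linarith))
    have h3 : I * x.1 + ((-(‖b 0‖ ^ 2) : ℝ) : ℂ) * x.2 =
        I * x.1 - ((‖b 0‖ ^ 2 : ℝ) : ℂ) * x.2 := by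
      push_cast
      ring
    rw [h3] at h2
    exact Complex.log_exp h2.1 h2.2.le
  unfold psi
  rw [Fin.sum_univ_two]
  have e0 : Zb b x 0 / b 0 = Complex.exp (I * x.1 + ((‖b 1‖ ^ 2 : ℝ) : ℂ) * x.2) := by
    change b 0 * Complex.exp (I * x.1 + ((‖b 1‖ ^ 2 : ℝ) : ℂ) * x.2) / b 0 = _
    field_simp
  have e1 : Zb b x 1 / b 1 = Complex.exp (I * x.1 - ((‖b 0‖ ^ 2 : ℝ) : ℂ) * x.2) := by
    change b 1 * Complex.exp (I * x.1 - ((‖b 0‖ ^ 2 : ℝ) : ℂ) * x.2) / b 1 = _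
    field_simp
  rw [e0, e1, l0, l1]
  congr 1
  linear_combination (I * x.1) * hs'

end Pool.Agent.R223.Tor
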