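import Mathlib
import Pool.Agent.R223.Tor.Nl

/-!
The local theorem at the points of the sphere with two non-zero coordinates.
-/

set_option autoImplicit false
set_option linter.unusedSectionVars false

open MeasureTheory Metric Set Filter Topology Complex

namespace Pool.Agent.R223.Tor

open Pool.Agent.W732.Cor (V)
open Pool.Agent.TH310.Cor (HB)
open Pool.Agent.Y263.LF (Bez Bez.mono)
open Pool.Agent.H720R2.HP (UH)

theorem div_sol {X : Type} [NormedAddCommGroup X] [NormedSpace ℂ X] {U : Set X} {ι : Type}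
    [Fintype ι] {F g : ι → X → ℂ} {C : ℝ} (hF : ∀ i, DifferentiableOn ℂ (F i) U)
    (hg : ∀ i, DifferentiableOn ℂ (g i) U) (hgb : ∀ i, ∀ z ∈ U, ‖g i z‖ ≤ C)
    (h : ∀ z ∈ U, ‖∑ i, F i z * g i z - 1‖ ≤ 1 / 2) : Bez U F (2 * C) := by
  obtain ⟨D, hD⟩ : ∃ D : X → ℂ, D = fun z => ∑ i, F i z * g i z := ⟨_, rfl⟩
  have hDd : DifferentiableOn ℂ D U := by
    rw [hD]
    exact DifferentiableOn.fun_sum fun i _ => (hF i).fun_mul (hg i)
  have hDz : ∀ z, D z = ∑ i, F i z * g i z := fun z => by rw [hD]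
  have hDn : ∀ z ∈ U, 1 / 2 ≤ ‖D z‖ := by
    intro z hz
    have h1 := h z hz
    rw [← hDz] at h1
    have h2 := norm_sub_norm_le (1 : ℂ) (D z)
    rw [norm_one, norm_sub_rev] at h2
    linarith
  have hD0 : ∀ z ∈ U, D z ≠ 0 := fun z hz => norm_pos_iff.1 (by linarith [hDn z hz])
  refine ⟨fun i z => g i z * (D z)⁻¹, fun i => (hg i).fun_mul (hDd.fun_inv hD0),
    fun i z hz => ?_, fun z hz => ?_⟩
  · rw [norm_mul, norm_inv]
    have h1 := hgb i z hz
    have h2 : ‖D z‖⁻¹ ≤ 2 := by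
      rw [inv_le_comm₀ (by linarith [hDn z hz]) (by norm_num)]
      linarith [hDn z hz]
    have h3 : 0 ≤ C := (norm_nonneg _).trans h1
    calc ‖g i z‖ * ‖D z‖⁻¹ ≤ C * 2 := by gcongr
      _ = 2 * C := mul_comm _ _
  · have h1 : ∀ i, F i z * (g i z * (D z)⁻¹) = F i z * g i z * (D z)⁻¹ := fun i => by ring
    simp only [h1]
    rw [← Finset.sum_mul, ← hDz]
    exact mul_inv_cancel₀ (hD0 z hz)

theorem wI_im (w : ℂ) : (w + I).im = w.im + 1 := by simp

theorem wI_ge {w : ℂ} (hw : 0 ≤ w.im) : 1 ≤ ‖w + I‖ := by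
  have h1 := Complex.abs_im_le_norm (w + I)
  rw [wI_im, abs_of_nonneg (by linarith)] at h1
  linarith

theorem wI_ne {w : ℂ} (hw : 0 ≤ w.im) : w + I ≠ 0 := norm_pos_iff.1 (by linarith [wI_ge hw])

theorem wI_le (w : ℂ) : ‖w + I‖ ≤ ‖w‖ + 1 := by
  have := norm_add_le w I
  rwa [norm_I] at this

theorem w_le {w : ℂ} (hw : 0 ≤ w.im) : ‖w‖ ≤ ‖w + I‖ := by
  have h1 : ‖w‖ ^ 2 ≤ ‖w + I‖ ^ 2 := by
    rw [← Complex.normSq_eq_norm_sq, ← Complex.normSq_eq_norm_sq, Complex.normSq_apply,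
      Complex.normSq_apply]
    simp
    nlinarith
  exact le_of_sq_le_sq h1 (norm_nonneg _)

theorem eI_norm (w : ℂ) : ‖Complex.exp (I * w)‖ = Real.exp (-w.im) := by
  rw [Complex.norm_exp]
  simp

theorem eI_mem {b : V 2} (hb : ‖b‖ = 1) {w : ℂ} (hw : 0 < w.im) :
    Complex.exp (I * w) • b ∈ ball (0 : V 2) 1 := by
  rw [mem_ball_zero_iff, norm_smul, hb, mul_one, eI_norm, Real.exp_lt_one_iff]
  linarith

theorem inv_lim : Tendsto (fun w : ℂ => I / (w + I)) (Bornology.cobounded ℂ) (𝓝 0) := by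
  rw [tendsto_zero_iff_norm_tendsto_zero]
  have h1 : Tendsto (fun w : ℂ => ‖w‖ - 1) (Bornology.cobounded ℂ) atTop :=
    tendsto_atTop_add_const_right _ _ tendsto_norm_cobounded_atTop
  have h2 : Tendsto (fun w : ℂ => ‖w + I‖) (Bornology.cobounded ℂ) atTop := by
    refine tendsto_atTop_mono (fun w => ?_) h1
    have h3 := norm_sub_norm_le w (-I)
    rw [norm_neg, norm_I, sub_neg_eq_add] at h3
    exact h3
  refine h2.inv_tendsto_atTop.congr fun w => ?_
  rw [norm_div, norm_I, one_div]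
  rfl

/-- the model functions -/
noncomputable def fm {N : ℕ} (F : Fin N → V 2 → ℂ) (b : V 2) : Fin (N + 1) → ℂ → ℂ :=
  Fin.cons (fun w => w / (w + I)) (fun i w => F i (Complex.exp (I * w) • b) * (I / (w + I)))

theorem fm_zero {N : ℕ} (F : Fin N → V 2 → ℂ) (b : V 2) (w : ℂ) : fm F b 0 w = w / (w + I) := rfl

theorem fm_succ {N : ℕ} (F : Fin N → V 2 → ℂ) (b : V 2) (i : Fin N) (w : ℂ) :
    fm F b i.succ w = F i (Complex.exp (I * w) • b) * (I / (w + I)) := rfl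

theorem small_w {w : ℂ} (hw : 0 ≤ w.im) {c : ℝ} (hc : c ≤ 1 / 4) (h : ‖w / (w + I)‖ ≤ c) :
    ‖w‖ ≤ 2 * c := by
  have h1 := wI_ge hw
  have h2 := wI_le w
  rw [norm_div, div_le_iff₀ (by linarith)] at h
  have h3 : 0 ≤ c := by
    by_contra hno
    have : c * ‖w + I‖ < 0 := mul_neg_of_neg_of_pos (not_le.1 hno) (by linarith)
    linarith [norm_nonneg w]
  nlinarith [norm_nonneg w]

theorem loc_nl (N M : ℕ) {ε Q : ℝ} (hε : 0 < ε) (hQ : 0 ≤ Q) {b : V 2}
    (hb : ‖b‖ = 1) (h0 : b 0 ≠ 0) (h1 : b 1 ≠ 0) {r : ℝ → ℝ} (hr : ∀ e, 0 < e → 0 < r e) :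
    ∃ C r₀ : ℝ, 0 ≤ C ∧ 0 < r₀ ∧ ∀ (F : Fin N → V 2 → ℂ) (G : Fin M → V 2 → ℂ),
    (∀ i, HB (F i)) → (∀ j, HB (G j)) →
    (∀ i e, 0 < e → ∀ z ∈ ball (0 : V 2) 1, ‖z - b‖ < r e → ‖F i z - F i (psi b z • b)‖ ≤ e) →
    Bez {z | z ∈ ball (0 : V 2) 1 ∧ ∀ i, ‖F i z‖ < ε} G Q →
    Bez (ball 0 1 ∩ ball b r₀) (Sum.elim F G) C := by
  have hs := nsum hb
  have hp0 : 0 < ‖b 0‖ ^ 2 := by positivity
  have hq0 : 0 < ‖b 1‖ ^ 2 := by positivity
  have hp1 : ‖b 0‖ ^ 2 < 1 := by linarith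
  have hG := Gam_GS hp0 hp1
  obtain ⟨Γ, hΓ⟩ : ∃ Γ : ℝ → ℝ, Γ = Gam (‖b 0‖ ^ 2) := ⟨_, rfl⟩
  have hZm := fun x => Zb_mem hb h0 h1 x
  rw [← hΓ] at hG hZm
  have hZ0 : Zb b (0, 0) = b := by
    have h2 := Zb_Wb hb h0 h1 h0 h1
    rw [Wb_b h0 h1] at h2
    exact h2
  -- the constants
  have hZc : ContinuousAt (Zb b) ((0, 0) : ℂ × ℂ) := (Zb_diff b).continuous.continuousAt
  obtain ⟨δ₁, hδ₁, hδc⟩ := Metric.continuousAt_iff.1 hZc (r (ε / 4)) (hr _ (by positivity))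
  obtain ⟨δ, hδe⟩ : ∃ δ : ℝ, δ = min δ₁ 1 := ⟨_, rfl⟩
  have hδ : 0 < δ := by rw [hδe]; exact lt_min hδ₁ one_pos
  have hδ1 : δ ≤ 1 := by rw [hδe]; exact min_le_right _ _
  have hδ2 : δ ≤ δ₁ := by rw [hδe]; exact min_le_left _ _
  have hnear : ∀ x : ℂ × ℂ, ‖x.1‖ < δ → ‖x.2‖ < δ → ‖Zb b x - b‖ < r (ε / 4) := by
    intro x hx1 hx2
    have h2 : dist x ((0, 0) : ℂ × ℂ) < δ₁ := by
      rw [Prod.dist_eq, dist_zero_right, dist_zero_right]
      exact max_lt (by linarith) (by linarith)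
    have h3 := hδc h2
    rw [hZ0, dist_eq_norm] at h3
    exact h3
  obtain ⟨ρ, hρe⟩ : ∃ ρ : ℝ, ρ = δ / 2 := ⟨_, rfl⟩
  have hρ : 0 < ρ := by rw [hρe]; positivity
  obtain ⟨t₀, ht₀, hsm1, hsm2⟩ := hG.small' hρ
  obtain ⟨κ, hκe⟩ : ∃ κ : ℝ, κ = min δ t₀ := ⟨_, rfl⟩
  have hκ : 0 < κ := by rw [hκe]; exact lt_min hδ ht₀
  have hκδ : κ ≤ δ := by rw [hκe]; exact min_le_left _ _
  have hκt : κ ≤ t₀ := by rw [hκe]; exact min_le_right _ _
  obtain ⟨ε', hε'e⟩ : ∃ ε' : ℝ, ε' = min (ε / 8) (κ / 4) := ⟨_, rfl⟩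
  have hε' : 0 < ε' := by rw [hε'e]; exact lt_min (by positivity) (by positivity)
  have hε'1 : ε' ≤ ε / 8 := by rw [hε'e]; exact min_le_left _ _
  have hε'2 : ε' ≤ κ / 4 := by rw [hε'e]; exact min_le_right _ _
  have hε'4 : ε' ≤ 1 / 4 := by linarith
  obtain ⟨C₁, hC₁, HL⟩ := locB (N + 1) M (ε := ε') (Q := Q) hε' (by linarith) hQ
  -- the radius
  obtain ⟨η, hηe⟩ : ∃ η : ℝ, η = 1 / (4 * ((N + 1) * (C₁ + 1))) := ⟨_, rfl⟩
  have hN0 : (0 : ℝ) ≤ N := Nat.cast_nonneg N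
  have hη : 0 < η := by rw [hηe]; positivity
  have hs0 : b 0 / b 0 ∈ slitPlane := by rw [div_self h0]; exact one_mem_slitPlane
  have hs1 : b 1 / b 1 ∈ slitPlane := by rw [div_self h1]; exact one_mem_slitPlane
  have hWc : ContinuousAt (Wb b) b := (Wb_at hs0 hs1).continuousAt
  have hev : ∀ᶠ z : V 2 in 𝓝 b, z 0 / b 0 ∈ slitPlane ∧ z 1 / b 1 ∈ slitPlane ∧
      ‖(Wb b z).1‖ < η ∧ |(Wb b z).2.im| < ρ / 2 ∧ ‖z - b‖ < r η := by
    have c0 : ContinuousAt (fun z : V 2 => z 0 / b 0) b := by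
      simp only [div_eq_mul_inv]
      fun_prop
    have c1 : ContinuousAt (fun z : V 2 => z 1 / b 1) b := by
      simp only [div_eq_mul_inv]
      fun_prop
    have c2 : ContinuousAt (fun z : V 2 => ‖(Wb b z).1‖) b := hWc.fst.norm
    have c3 : ContinuousAt (fun z : V 2 => |(Wb b z).2.im|) b :=
      (Complex.continuous_im.continuousAt.comp hWc.snd).abs
    have c4 : ContinuousAt (fun z : V 2 => ‖z - b‖) b := by fun_prop
    refine (c0.eventually (isOpen_slitPlane.mem_nhds hs0)).and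
      ((c1.eventually (isOpen_slitPlane.mem_nhds hs1)).and ((c2.eventually (gt_mem_nhds ?_)).and
      ((c3.eventually (gt_mem_nhds ?_)).and (c4.eventually (gt_mem_nhds ?_)))))
    · beta_reduce
      rw [Wb_b h0 h1]
      simpa using hη
    · beta_reduce
      rw [Wb_b h0 h1]
      simpa using hρ
    · beta_reduce
      rw [sub_self, norm_zero]
      exact hr _ hη
  obtain ⟨r₀, hr₀, hB⟩ := Metric.eventually_nhds_iff_ball.1 hev
  refine ⟨2 * C₁, r₀, by positivity, hr₀, ?_⟩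
  intro F G hF hGb hasy hbez
  obtain ⟨k, hkd, hkb, hGk⟩ := hbez
  -- the set where the model functions are small
  have hmaps : MapsTo (Zb b) {x | x ∈ TD Γ ρ ∧ ∀ i, ‖fm F b i x.1‖ < ε'}
      {z | z ∈ ball (0 : V 2) 1 ∧ ∀ i, ‖F i z‖ < ε} := by
    rintro x ⟨hx, hxi⟩
    have hzB : Zb b x ∈ ball (0 : V 2) 1 := (hZm x).2 hx.1
    refine ⟨hzB, fun i => ?_⟩
    have hwim : 0 < x.1.im := lt_of_le_of_lt (hG.nonneg _) hx.1
    have h2 := hxi 0
    rw [fm_zero] at h2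
    have h3 := small_w hwim.le hε'4 h2.le
    have h4 := Complex.abs_im_le_norm x.1
    rw [abs_of_pos hwim] at h4
    have h5 : |x.2.re| < ρ := hsm2 x.1.im (by linarith) _ hx.1
    have h6 : ‖x.2‖ < δ := by
      have h7 := Complex.norm_le_abs_re_add_abs_im x.2
      have h8 := hx.2
      rw [hρe] at h5 h8
      linarith
    have h7 : ‖x.1‖ < δ := by linarith
    have h8 := hasy i (ε / 4) (by positivity) _ hzB (hnear x h7 h6)
    rw [psi_Zb hb h0 h1 (by linarith) (by linarith)] at h8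
    have h9 := hxi i.succ
    rw [fm_succ, norm_mul, norm_div, norm_I] at h9
    have h10 := wI_ge hwim.le
    have h11 := wI_le x.1
    rw [mul_one_div, div_lt_iff₀ (by linarith)] at h9
    have h12 : ε' * ‖x.1 + I‖ ≤ ε' * 2 := by
      refine mul_le_mul_of_nonneg_left ?_ hε'.le
      linarith
    have h13 := norm_add_le (F i (Zb b x) - F i (Complex.exp (I * x.1) • b))
      (F i (Complex.exp (I * x.1) • b))
    rw [sub_add_cancel] at h13
    linarith
  have hfd : ∀ i : Fin N, DifferentiableOn ℂ (fun w => F i (Complex.exp (I * w) • b)) UH := by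
    intro i
    refine (hF i).1.comp ?_ fun w hw => eI_mem hb hw
    exact ((by fun_prop : Differentiable ℂ fun w : ℂ => Complex.exp (I * w)).smul_const
      b).differentiableOn
  have hIu : DifferentiableOn ℂ (fun w : ℂ => I / (w + I)) UH := by
    refine (differentiableOn_const _).fun_div (by fun_prop) fun w hw => wI_ne (le_of_lt hw)
  have hIb : ∀ w ∈ UH, ‖I / (w + I)‖ ≤ 1 := by
    intro w hw
    rw [norm_div, norm_I]
    have h2 := wI_ge (le_of_lt hw)
    rw [div_le_one (by linarith)]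
    exact h2
  have hsol := HL Γ (Sig (‖b 0‖ ^ 2)) hG ρ t₀ hρ hsm1 (fm F b)
    (by
      intro i
      refine Fin.cases ?_ (fun i => ?_) i
      · have h2 : DifferentiableOn ℂ (fun w : ℂ => w / (w + I)) UH :=
          differentiableOn_id.fun_div (by fun_prop) fun w hw => wI_ne (le_of_lt hw)
        exact h2
      · exact (hfd i).fun_mul hIu)
    (by
      intro i w hw
      refine Fin.cases ?_ (fun i => ?_) i
      · rw [fm_zero, norm_div]
        have h2 := wI_ge (le_of_lt hw)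
        rw [div_le_one (by linarith)]
        exact w_le (le_of_lt hw)
      · rw [fm_succ, norm_mul]
        have h2 := (hF i).2 _ (eI_mem hb hw)
        have h3 := hIb w hw
        calc ‖F i (Complex.exp (I * w) • b)‖ * ‖I / (w + I)‖ ≤ 1 * 1 := by gcongr
          _ = 1 := one_mul 1)
    (by
      intro i
      refine Fin.cases ?_ (fun i => ?_) i
      · refine ⟨1, fun η' hη' => ?_⟩
        have h2 : Tendsto (fun w : ℂ => 1 - I / (w + I)) (Bornology.cobounded ℂ) (𝓝 (1 - 0)) :=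
          tendsto_const_nhds.sub inv_lim
        rw [sub_zero] at h2
        refine (h2.mono_left inf_le_left).congr' ?_
        have h3 : ∀ᶠ w : ℂ in Bornology.cobounded ℂ ⊓ 𝓟 {w : ℂ | η' ≤ w.im}, η' ≤ w.im :=
          mem_inf_of_right (mem_principal_self _)
        filter_upwards [h3] with w hw
        rw [fm_zero]
        have h4 := wI_ne (by linarith : 0 ≤ w.im)
        field_simp
        ring
      · refine ⟨0, fun η' hη' => ?_⟩
        have h2 : Tendsto (fun w : ℂ => ‖I / (w + I)‖)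
            (Bornology.cobounded ℂ ⊓ 𝓟 {w : ℂ | η' ≤ w.im}) (𝓝 0) := by
          have := (inv_lim.mono_left inf_le_left :
            Tendsto _ (Bornology.cobounded ℂ ⊓ 𝓟 {w : ℂ | η' ≤ w.im}) _).norm
          rwa [norm_zero] at this
        refine squeeze_zero_norm' ?_ h2
        have h3 : ∀ᶠ w : ℂ in Bornology.cobounded ℂ ⊓ 𝓟 {w : ℂ | η' ≤ w.im}, η' ≤ w.im :=
          mem_inf_of_right (mem_principal_self _)
        filter_upwards [h3] with w hw
        rw [fm_succ, norm_mul]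
        have h4 := (hF i).2 _ (eI_mem hb (lt_of_lt_of_le hη' hw))
        calc ‖F i (Complex.exp (I * w) • b)‖ * ‖I / (w + I)‖ ≤ 1 * ‖I / (w + I)‖ := by gcongr
          _ = ‖I / (w + I)‖ := one_mul _)
    (by
      intro w hw hi
      have h2 := hi 0
      rw [fm_zero] at h2
      have h3 := small_w hw.le (by linarith) h2
      have h4 := Complex.abs_im_le_norm w
      rw [abs_of_pos hw] at h4
      linarith)
    (fun j x => G j (Zb b x))
    (fun j => (hGb j).1.comp (Zb_diff b).differentiableOn fun x hx => (hZm x).2 hx.1)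
    (fun j x hx => (hGb j).2 _ ((hZm x).2 hx.1))
    ⟨fun j x => k j (Zb b x), fun j => (hkd j).comp (Zb_diff b).differentiableOn hmaps,
      fun j x hx => hkb j _ (hmaps hx), fun x hx => hGk _ (hmaps hx)⟩
  obtain ⟨g, g1, g2, g3⟩ := hsol
  -- back to the ball
  have hW : ∀ z ∈ ball (0 : V 2) 1 ∩ ball b r₀, Wb b z ∈ TD Γ (ρ / 2) ∧ Zb b (Wb b z) = z ∧
      0 < (Wb b z).1.im := by
    rintro z ⟨hz1, hz2⟩
    obtain ⟨e1, e2, e3, e4, e5⟩ := hB z hz2
    have hz0' : z 0 ≠ 0 := by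
      intro h
      rw [h, zero_div] at e1
      exact Complex.zero_notMem_slitPlane e1
    have hz1' : z 1 ≠ 0 := by
      intro h
      rw [h, zero_div] at e2
      exact Complex.zero_notMem_slitPlane e2
    have h2 := Zb_Wb hb h0 h1 hz0' hz1'
    have h3 : Γ (Wb b z).2.re < (Wb b z).1.im := by
      rw [← hZm, h2]
      exact hz1
    exact ⟨⟨h3, e4⟩, h2, lt_of_le_of_lt (hG.nonneg _) h3⟩
  have hWd : DifferentiableOn ℂ (Wb b) (ball (0 : V 2) 1 ∩ ball b r₀) := by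
    rintro z ⟨hz1, hz2⟩
    obtain ⟨e1, e2, e3, e4, e5⟩ := hB z hz2
    exact (Wb_at e1 e2).differentiableWithinAt
  have hgW : ∀ q, DifferentiableOn ℂ (fun z => g q (Wb b z)) (ball (0 : V 2) 1 ∩ ball b r₀) :=
    fun q => (g1 q).comp hWd fun z hz => (hW z hz).1
  have huW : DifferentiableOn ℂ (fun z => I / ((Wb b z).1 + I))
      (ball (0 : V 2) 1 ∩ ball b r₀) :=
    hIu.comp hWd.fst fun z hz => (hW z hz).2.2
  refine div_sol (F := Sum.elim F G) (g := Sum.elim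
    (fun i z => g (Sum.inl i.succ) (Wb b z) * (I / ((Wb b z).1 + I)))
    (fun j z => g (Sum.inr j) (Wb b z))) ?_ ?_ ?_ ?_
  · rintro (i | j)
    · exact (hF i).1.mono inter_subset_left
    · exact (hGb j).1.mono inter_subset_left
  · rintro (i | j)
    · exact (hgW _).fun_mul huW
    · exact hgW _
  · rintro (i | j) z hz
    · simp only [Sum.elim_inl]
      rw [norm_mul]
      have h2 := g2 (Sum.inl i.succ) _ (hW z hz).1
      have h3 := hIb _ (hW z hz).2.2
      calc ‖g (Sum.inl i.succ) (Wb b z)‖ * ‖I / ((Wb b z).1 + I)‖ ≤ C₁ * 1 := by gcongr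
        _ = C₁ := mul_one _
    · exact g2 (Sum.inr j) _ (hW z hz).1
  · intro z hz
    obtain ⟨hW1, hW2, hW3⟩ := hW z hz
    obtain ⟨e1, e2, e3, e4, e5⟩ := hB z hz.2
    have h2 := g3 _ hW1
    rw [Fintype.sum_sum_type, Fin.sum_univ_succ] at h2
    simp only [Sum.elim_inl, Sum.elim_inr, fm_zero, fm_succ] at h2
    rw [hW2, ← psi_Wb] at h2
    rw [Fintype.sum_sum_type]
    simp only [Sum.elim_inl, Sum.elim_inr]
    have h3 : ∑ i, F i z * (g (Sum.inl i.succ) (Wb b z) * (I / ((Wb b z).1 + I))) +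
        ∑ j, G j z * g (Sum.inr j) (Wb b z) - 1 =
        ∑ i, (F i z - F i (psi b z • b)) * (g (Sum.inl i.succ) (Wb b z) *
          (I / ((Wb b z).1 + I))) - (Wb b z).1 / ((Wb b z).1 + I) * g (Sum.inl 0) (Wb b z) := by
      have h4 : ∑ i, (F i z - F i (psi b z • b)) * (g (Sum.inl i.succ) (Wb b z) *
          (I / ((Wb b z).1 + I))) = ∑ i, F i z * (g (Sum.inl i.succ) (Wb b z) *
          (I / ((Wb b z).1 + I))) - ∑ i : Fin N, F i (psi b z • b) * (I / ((Wb b z).1 + I)) *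
            g (Sum.inl i.succ) (Wb b z) := by
        rw [← Finset.sum_sub_distrib]
        refine Finset.sum_congr rfl fun i _ => ?_
        ring
      rw [h4]
      linear_combination h2
    rw [h3]
    have h5 : ∀ i ∈ (Finset.univ : Finset (Fin N)), ‖(F i z - F i (psi b z • b)) *
        (g (Sum.inl i.succ) (Wb b z) * (I / ((Wb b z).1 + I)))‖ ≤ η * C₁ := by
      intro i _
      rw [norm_mul, norm_mul]
      have h6 := hasy i η hη z hz.1 e5
      have h7 := g2 (Sum.inl i.succ) _ hW1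
      have h8 := hIb _ hW3
      calc _ ≤ η * (C₁ * 1) := by gcongr
        _ = η * C₁ := by ring
    have h6 := (norm_sum_le _ _).trans (Finset.sum_le_sum h5)
    rw [Finset.sum_const, Finset.card_univ, Fintype.card_fin, nsmul_eq_mul] at h6
    have h7 : ‖(Wb b z).1 / ((Wb b z).1 + I) * g (Sum.inl 0) (Wb b z)‖ ≤ η * C₁ := by
      rw [norm_mul, norm_div]
      have h8 := wI_ge hW3.le
      have h9 : ‖(Wb b z).1‖ / ‖(Wb b z).1 + I‖ ≤ η := by
        rw [div_le_iff₀ (by linarith)]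
        nlinarith
      have h10 := g2 (Sum.inl 0) _ hW1
      gcongr
    have h8 : (N : ℝ) * (η * C₁) + η * C₁ ≤ 1 / 4 := by
      have h9 : (N : ℝ) * (η * C₁) + η * C₁ = ((N + 1) * C₁) / (4 * ((N + 1) * (C₁ + 1))) := by
        rw [hηe]
        field_simp
      rw [h9, div_le_iff₀ (by positivity)]
      nlinarith
    have h9 := norm_sub_le (∑ i, (F i z - F i (psi b z • b)) * (g (Sum.inl i.succ) (Wb b z) *
          (I / ((Wb b z).1 + I)))) ((Wb b z).1 / ((Wb b z).1 + I) * g (Sum.inl 0) (Wb b z))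
    linarith

end Pool.Agent.R223.Tor
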