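import Mathlib
import Pool.Agent.R223.Tor.Nl2
import Pool.Agent.R223.Crn.Res
import Pool.Agent.Y263.GF.Ball

/-!
The local theorem for affine fibres; local solvability at all boundary points implies global
solvability.
-/

set_option autoImplicit false
set_option linter.unusedSectionVars false

open Metric Set Filter Topology WeakDual

namespace Pool.Agent.R223.Tor

open Pool.Agent.H326R3.CB (Bt)
open Pool.Agent.TH310.Cor
open Pool.Agent.Y263.LF (Bez Bez.mono)
open Pool.Agent.Y263.GF (loc_aff)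

variable {m : ℕ}

/-- local solvability at all boundary points implies solvability -/
theorem bdry {I ι : Type} [Fintype ι] {F : I → ι → V m → ℂ} (hF : ∀ i j, HB (F i j)) {δ : ℝ}
    (hδ : 0 < δ) (hlow : ∀ i, ∀ z ∈ ball (0 : V m) 1, δ ≤ ∑ j, ‖F i j z‖)
    (hloc : ∀ q : V m, ‖q‖ = 1 → SolvL F q) : Solv F := by
  classical
  by_contra h2
  let tJ : TopologicalSpace I := ⊥
  have dJ : DiscreteTopology I := ⟨rfl⟩
  obtain ⟨χ, hχA⟩ := exists_zero hF h2
  obtain ⟨q, hq⟩ : ∃ q, q = pt χ := ⟨_, rfl⟩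
  have hq1 : ‖q‖ = 1 := by
    rcases lt_or_eq_of_le (pt_norm χ) with h3 | h3
    · exfalso
      have hpt : pt χ ∈ ball (0 : V m) 1 := by rw [mem_ball_zero_iff]; exact h3
      refine char_index (ι := ι) χ (fun o x => F x o (pt χ)) (C := 1)
        (fun o x => (hF x o).2 _ hpt) hδ (fun x => hlow x _ hpt) ?_
      intro o
      have h4 := char_interior χ h3 (El (f := fun x z => F x o z) (fun x => hF x o))
      rw [hχA o] at h4
      refine Eq.trans (congrArg χ ?_) h4.symm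
      exact ext' fun x => rfl
    · rw [hq]; exact h3
  obtain ⟨C, ρ, hρ, hg⟩ := hloc q hq1
  choose g hgd hgb hid using hg
  obtain ⟨C', hC'⟩ : ∃ C', C' = max C 1 := ⟨_, rfl⟩
  have hC'1 : 1 ≤ C' := by rw [hC']; exact le_max_right _ _
  have hCC' : C ≤ C' := by rw [hC']; exact le_max_left _ _
  have hC'0 : 0 < C' := by linarith
  obtain ⟨K, r, hK, hr, hlg⟩ := lgV (η := ρ ^ 2 / 2) (by positivity)
  have hsub : ∀ z ∈ ball (0 : V m) 1, ‖(inner ℂ q z : ℂ) - 1‖ < ρ ^ 2 / 2 →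
      z ∈ ball (0 : V m) 1 ∩ ball q ρ := by
    intro z hz hzq
    refine ⟨hz, ?_⟩
    rw [mem_ball, dist_eq_norm]
    by_contra hcon
    push Not at hcon
    have h3 := one_sub_inner hq1 (by rw [mem_ball_zero_iff] at hz; exact hz.le) hρ.le hcon
    rw [norm_sub_rev] at h3
    linarith
  have hG : ∀ (j : ι) (x : I), ∃ G : V m → ℂ, DifferentiableOn ℂ G (ball 0 1) ∧
      (∀ z ∈ ball (0 : V m) 1, ‖G z‖ ≤ K) ∧ ∀ ε, 0 < ε → ∀ z ∈ ball (0 : V m) 1,
        ‖(inner ℂ q z : ℂ) - 1‖ < r ε → ‖G z - g x j z / C'‖ ≤ ε := by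
    intro j x
    refine hlg m q hq1 (fun z => g x j z / C') ?_ ?_
    · have h3 : DifferentiableOn ℂ (fun z => g x j z * (C' : ℂ)⁻¹) (ball (0 : V m) 1 ∩ ball q ρ) :=
        (hgd x j).mul_const _
      simp only [div_eq_mul_inv]
      refine h3.mono ?_
      rintro z ⟨hz, hz2⟩
      exact hsub z hz hz2
    · intro z hz hz2
      rw [norm_div, Complex.norm_real, Real.norm_of_nonneg hC'0.le, div_le_one hC'0]
      exact (hgb x j z (hsub z hz hz2)).trans hCC'
  choose G hG1 hG2 hG3 using hG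
  obtain ⟨ε, hε⟩ : ∃ ε : ℝ, ε = 1 / (2 * C' * (Fintype.card ι + 1)) := ⟨_, rfl⟩
  have hε0 : 0 < ε := by rw [hε]; positivity
  have hNε : (Fintype.card ι : ℝ) * (C' * ε) ≤ 1 / 2 := by
    rw [hε]
    have h3 : (Fintype.card ι : ℝ) * (C' * (1 / (2 * C' * (Fintype.card ι + 1)))) =
        (Fintype.card ι / (Fintype.card ι + 1)) * (1 / 2) := by field_simp
    rw [h3]
    have h4 : (Fintype.card ι : ℝ) / (Fintype.card ι + 1) ≤ 1 := by
      rw [div_le_one (by positivity)]; linarith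
    linarith
  have hu0 : χ (∑ j, El (f := fun x z => F x j z) (fun x => hF x j) *
      (mk (hG1 j) (hG2 j) * Cc (C' : ℂ))) = 0 := by
    rw [map_sum]
    refine Finset.sum_eq_zero fun j _ => ?_
    rw [map_mul, hχA j, zero_mul]
  have hu1 : ‖χ (∑ j, El (f := fun x z => F x j z) (fun x => hF x j) *
      (mk (hG1 j) (hG2 j) * Cc (C' : ℂ)) - 1)‖ ≤ 1 / 2 := by
    refine char_boundary χ (by rw [← hq]; exact hq1) _ (ρ := min (r ε) (ρ ^ 2 / 2))
      (lt_min (hr ε hε0) (by positivity)) (by norm_num) univ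
      (by rw [Id_univ, map_one]) ?_
    intro x _ z hz
    rw [← hq] at hz
    have hz1 : ‖(inner ℂ q (z : V m) : ℂ) - 1‖ ≤ ‖(z : V m) - q‖ := by
      have h3 : (inner ℂ q (z : V m) : ℂ) - 1 = inner ℂ q ((z : V m) - q) := by
        rw [inner_sub_right, inner_self_eq_norm_sq_to_K, hq1]
        norm_num
      rw [h3]
      refine (norm_inner_le_norm _ _).trans ?_
      rw [hq1, one_mul]
    have hz2 : ‖(inner ℂ q (z : V m) : ℂ) - 1‖ < r ε := by
      have := min_le_left (r ε) (ρ ^ 2 / 2); linarith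
    have hz3 : ‖(inner ℂ q (z : V m) : ℂ) - 1‖ < ρ ^ 2 / 2 := by
      have := min_le_right (r ε) (ρ ^ 2 / 2); linarith
    have hzm := hsub z z.2 hz3
    have h3 : (∑ j, El (f := fun x z => F x j z) (fun x => hF x j) *
        (mk (hG1 j) (hG2 j) * Cc (C' : ℂ)) - 1 : HI I m).1 (x, z) =
        ∑ j, F x j z * (C' * (G j x z - g x j z / C')) := by
      have h4 : (∑ j, El (f := fun x z => F x j z) (fun x => hF x j) *
        (mk (hG1 j) (hG2 j) * Cc (C' : ℂ)) - 1 : HI I m).1 (x, z) =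
        (∑ j, El (f := fun x z => F x j z) (fun x => hF x j) *
        (mk (hG1 j) (hG2 j) * Cc (C' : ℂ)) : HI I m).1 (x, z) - 1 := rfl
      rw [h4, Pool.Agent.TH310.Cor.sum_apply, ← hid x z hzm, ← Finset.sum_sub_distrib]
      refine Finset.sum_congr rfl fun j _ => ?_
      change F x j z * (G j x z * C') - F x j z * g x j z = _
      have h5 : (C' : ℂ) ≠ 0 := by exact_mod_cast hC'0.ne'
      field_simp
    rw [h3]
    refine (norm_sum_le _ _).trans ?_
    have h4 : ∀ j ∈ (Finset.univ : Finset ι),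
        ‖F x j z * (C' * (G j x z - g x j z / C'))‖ ≤ C' * ε := by
      intro j _
      rw [norm_mul, norm_mul, Complex.norm_real, Real.norm_of_nonneg hC'0.le]
      have h5 := (hF x j).2 z z.2
      have h6 := hG3 j x ε hε0 z z.2 hz2
      calc ‖F x j z‖ * (C' * ‖G j x z - g x j z / C'‖) ≤ 1 * (C' * ε) := by
            gcongr
        _ = C' * ε := one_mul _
    refine (Finset.sum_le_sum h4).trans ?_
    rw [Finset.sum_const, Finset.card_univ, nsmul_eq_mul]
    exact hNε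
  rw [map_sub, hu0, map_one, zero_sub, norm_neg, norm_one] at hu1
  norm_num at hu1

/-- the local theorem for affine fibres -/
theorem loc_af (N M : ℕ) {ε Q : ℝ} (hε : 0 < ε) (hQ : 0 ≤ Q) {b : V m} (hb : ‖b‖ = 1)
    {r : ℝ → ℝ} (hr : ∀ e, 0 < e → 0 < r e) :
    ∃ C r₀ : ℝ, 0 ≤ C ∧ 0 < r₀ ∧ ∀ (F : Fin N → V m → ℂ) (G : Fin M → V m → ℂ),
    (∀ i, HB (F i)) → (∀ j, HB (G j)) →
    (∀ i e, 0 < e → ∀ z ∈ ball (0 : V m) 1, ‖z - b‖ < r e →
      ‖F i z - F i ((inner ℂ b z : ℂ) • b)‖ ≤ e) →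
    Bez {z | z ∈ ball (0 : V m) 1 ∧ ∀ i, ‖F i z‖ < ε} G Q →
    Bez (ball 0 1 ∩ ball b r₀) (Sum.elim F G) C := by
  have hr4 := hr (ε / 4) (by positivity)
  obtain ⟨ε', hε'e⟩ : ∃ ε' : ℝ, ε' = min (ε / 4) (r (ε / 4) ^ 2 / 8) := ⟨_, rfl⟩
  have hε' : 0 < ε' := by rw [hε'e]; exact lt_min (by positivity) (by positivity)
  have hε'1 : ε' ≤ ε / 4 := by rw [hε'e]; exact min_le_left _ _
  have hε'2 : ε' ≤ r (ε / 4) ^ 2 / 8 := by rw [hε'e]; exact min_le_right _ _
  obtain ⟨C₁, hC₁, HL⟩ := loc_aff (N + 1) 1 M (ε := ε') (Q := Q) hε' hQ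
  obtain ⟨η, hηe⟩ : ∃ η : ℝ, η = 1 / (4 * ((N + 1) * (C₁ + 1))) := ⟨_, rfl⟩
  have hN0 : (0 : ℝ) ≤ N := Nat.cast_nonneg N
  have hη : 0 < η := by rw [hηe]; positivity
  refine ⟨2 * C₁, min η (r η), by positivity, lt_min hη (hr η hη), ?_⟩
  intro F G hF hGb hasy hbez
  obtain ⟨k, hkd, hkb, hGk⟩ := hbez
  have hin : ∀ z ∈ ball (0 : V m) 1, ‖(inner ℂ b z : ℂ)‖ < 1 := by
    intro z hz
    rw [mem_ball_zero_iff] at hz
    calc ‖(inner ℂ b z : ℂ)‖ ≤ ‖b‖ * ‖z‖ := norm_inner_le_norm _ _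
      _ = ‖z‖ := by rw [hb, one_mul]
      _ < 1 := hz
  have hsm : ∀ w : ℂ, ‖w‖ < 1 → w • b ∈ ball (0 : V m) 1 := by
    intro w hw
    rw [mem_ball_zero_iff, norm_smul, hb, mul_one]
    exact hw
  obtain ⟨f, hf⟩ : ∃ f : Fin 1 → Fin (N + 1) → ℂ → ℂ, f = fun _ =>
      Fin.cons (fun w => (1 - w) / 2) (fun i w => F i (w • b)) := ⟨_, rfl⟩
  have hf0 : ∀ k w, f k 0 w = (1 - w) / 2 := fun k w => by rw [hf]; rfl
  have hfs : ∀ k (i : Fin N) w, f k i.succ w = F i (w • b) := fun k i w => by rw [hf]; rfl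
  have hsub : {z : V m | ‖z‖ < 1 ∧ ∀ k i, ‖f k i (inner ℂ b z : ℂ)‖ < ε'} ⊆
      {z | z ∈ ball (0 : V m) 1 ∧ ∀ i, ‖F i z‖ < ε} := by
    rintro z ⟨hz1, hz2⟩
    have hz : z ∈ ball (0 : V m) 1 := mem_ball_zero_iff.2 hz1
    refine ⟨hz, fun i => ?_⟩
    have h2 := hz2 0 0
    rw [hf0, norm_div] at h2
    have h2' : ‖(2 : ℂ)‖ = 2 := by simp
    rw [h2', div_lt_iff₀ (by norm_num)] at h2
    have h3 : ‖z - b‖ < r (ε / 4) := by
      by_contra hno
      have h4 := one_sub_inner hb hz1.le hr4.le (not_lt.1 hno)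
      linarith
    have h5 := hasy i (ε / 4) (by positivity) z hz h3
    have h6 := hz2 0 i.succ
    rw [hfs] at h6
    have h7 := norm_add_le (F i z - F i ((inner ℂ b z : ℂ) • b)) (F i ((inner ℂ b z : ℂ) • b))
    rw [sub_add_cancel] at h7
    linarith
  have hsol := HL (V m) (fun _ z => inner ℂ b z) f (fun _ => (Pool.Agent.R223.Crn.AD_inner hb).1)
    (fun _ z hz => hin z hz)
    (by
      intro k i
      refine Fin.cases ?_ (fun i => ?_) i
      · have h2 : DifferentiableOn ℂ (fun w : ℂ => (1 - w) / 2) (ball 0 1) := by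
          simp only [div_eq_mul_inv]
          fun_prop
        exact h2.congr fun w _ => hf0 k w
      · have h2 : DifferentiableOn ℂ (fun w : ℂ => F i (w • b)) (ball 0 1) :=
          (hF i).1.comp (by fun_prop) fun w hw => hsm w (mem_ball_zero_iff.1 hw)
        exact h2.congr fun w _ => hfs k i w)
    (by
      intro k i w hw
      rw [mem_ball_zero_iff] at hw
      refine Fin.cases ?_ (fun i => ?_) i
      · rw [hf0, norm_div]
        have h2' : ‖(2 : ℂ)‖ = 2 := by simp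
        have h3 := norm_sub_le (1 : ℂ) w
        rw [norm_one] at h3
        rw [h2', div_le_iff₀ (by norm_num)]
        linarith
      · rw [hfs]
        exact (hF i).2 _ (hsm w hw))
    G (fun j => (hGb j).1) (fun j => (hGb j).2)
    ⟨k, fun j => (hkd j).mono hsub, fun j z hz => hkb j z (hsub hz), fun z hz => hGk z (hsub hz)⟩
  obtain ⟨g, g1, g2, g3⟩ := hsol
  have hU : ball (0 : V m) 1 ∩ ball b (min η (r η)) ⊆ ball (0 : V m) 1 := inter_subset_left
  refine div_sol (F := Sum.elim F G) (g := Sum.elim (fun i => g (Sum.inl (0, i.succ)))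
    (fun j => g (Sum.inr j))) ?_ ?_ ?_ ?_
  · rintro (i | j)
    · exact (hF i).1.mono hU
    · exact (hGb j).1.mono hU
  · rintro (i | j)
    · exact (g1 _).mono hU
    · exact (g1 _).mono hU
  · rintro (i | j) z hz
    · exact g2 _ z hz.1
    · exact g2 _ z hz.1
  · intro z hz
    have hzb : ‖z - b‖ < min η (r η) := by
      have := hz.2
      rwa [mem_ball, dist_eq_norm] at this
    have hz1 : ‖z - b‖ < η := lt_of_lt_of_le hzb (min_le_left _ _)
    have hz2 : ‖z - b‖ < r η := lt_of_lt_of_le hzb (min_le_right _ _)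
    have h2 := g3 z hz.1
    rw [Fintype.sum_sum_type, Fintype.sum_prod_type, Fin.sum_univ_one, Fin.sum_univ_succ] at h2
    simp only [Sum.elim_inl, Sum.elim_inr, hf0, hfs] at h2
    rw [Fintype.sum_sum_type]
    simp only [Sum.elim_inl, Sum.elim_inr]
    have h3 : ∑ i, F i z * g (Sum.inl (0, i.succ)) z + ∑ j, G j z * g (Sum.inr j) z - 1 =
        ∑ i, (F i z - F i ((inner ℂ b z : ℂ) • b)) * g (Sum.inl (0, i.succ)) z -
          (1 - inner ℂ b z) / 2 * g (Sum.inl (0, 0)) z := by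
      have h4 : ∑ i, (F i z - F i ((inner ℂ b z : ℂ) • b)) * g (Sum.inl (0, i.succ)) z =
          ∑ i, F i z * g (Sum.inl (0, i.succ)) z -
          ∑ i : Fin N, F i ((inner ℂ b z : ℂ) • b) * g (Sum.inl (0, i.succ)) z := by
        rw [← Finset.sum_sub_distrib]
        refine Finset.sum_congr rfl fun i _ => ?_
        ring
      rw [h4]
      linear_combination h2
    rw [h3]
    have h5 : ∀ i ∈ (Finset.univ : Finset (Fin N)), ‖(F i z - F i ((inner ℂ b z : ℂ) • b)) *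
        g (Sum.inl (0, i.succ)) z‖ ≤ η * C₁ := by
      intro i _
      rw [norm_mul]
      have h6 := hasy i η hη z hz.1 hz2
      have h7 := g2 (Sum.inl (0, i.succ)) z hz.1
      gcongr
    have h6 := (norm_sum_le _ _).trans (Finset.sum_le_sum h5)
    rw [Finset.sum_const, Finset.card_univ, Fintype.card_fin, nsmul_eq_mul] at h6
    have h7 : ‖(1 - (inner ℂ b z : ℂ)) / 2 * g (Sum.inl (0, 0)) z‖ ≤ η * C₁ := by
      rw [norm_mul, norm_div]
      have h8 : ‖1 - (inner ℂ b z : ℂ)‖ ≤ ‖z - b‖ := by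
        have h3 : (inner ℂ b z : ℂ) - 1 = inner ℂ b (z - b) := by
          rw [inner_sub_right, inner_self_eq_norm_sq_to_K, hb]
          norm_num
        rw [norm_sub_rev, h3]
        refine (norm_inner_le_norm _ _).trans ?_
        rw [hb, one_mul]
      have h2' : ‖(2 : ℂ)‖ = 2 := by simp
      have h9 : ‖1 - (inner ℂ b z : ℂ)‖ / ‖(2 : ℂ)‖ ≤ η := by
        rw [h2', div_le_iff₀ (by norm_num)]
        linarith
      have h10 := g2 (Sum.inl (0, 0)) z hz.1
      gcongr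
    have h8 : (N : ℝ) * (η * C₁) + η * C₁ ≤ 1 / 4 := by
      have h9 : (N : ℝ) * (η * C₁) + η * C₁ = ((N + 1) * C₁) / (4 * ((N + 1) * (C₁ + 1))) := by
        rw [hηe]
        field_simp
      rw [h9, div_le_iff₀ (by positivity)]
      nlinarith
    have h9 := norm_sub_le (∑ i, (F i z - F i ((inner ℂ b z : ℂ) • b)) *
        g (Sum.inl (0, i.succ)) z) ((1 - inner ℂ b z) / 2 * g (Sum.inl (0, 0)) z)
    linarith

end Pool.Agent.R223.Tor
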