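import Mathlib
import Pool.Agent.R223.Tor.Bd

/-!
Charts; uniform localisation over functions which are asymptotic, at each boundary point, to
functions of a monomial in a chart.
-/

set_option autoImplicit false
set_option linter.unusedSectionVars false

open Metric Set Filter Topology

namespace Pool.Agent.R223.Tor

open Pool.Agent.TH310.Cor
open Pool.Agent.Y263.LF (Bez Bez.mono)

theorem coord_close {b z : V 2} {i : Fin 2} (hbi : ‖b i‖ = 1) (hz : ‖z - b‖ < 1) : z i ≠ 0 := by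
  intro h0
  have h1 := EuclideanSpace.norm_sq_eq (z - b)
  have h2 : ‖(z - b) i‖ ^ 2 ≤ ∑ j, ‖(z - b) j‖ ^ 2 :=
    Finset.single_le_sum (f := fun j => ‖(z - b) j‖ ^ 2) (fun j _ => by positivity)
      (Finset.mem_univ i)
  rw [← h1] at h2
  have h3 : (z - b) i = z i - b i := rfl
  rw [h3, h0, zero_sub, norm_neg, hbi] at h2
  nlinarith [norm_nonneg (z - b)]

theorem psi_coord {b z : V 2} (hb : ‖b‖ = 1) {i k : Fin 2} (hik : i ≠ k) (hk : b k = 0)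
    (hz : ‖z - b‖ < 1) : psi b z = inner ℂ b z := by
  have hs := nsum hb
  have huniv : ∀ f : Fin 2 → ℂ, ∑ j, f j = f i + f k := by
    intro f
    rw [Fin.sum_univ_two]
    fin_cases i <;> fin_cases k <;> simp_all [add_comm]
  have hbi : ‖b i‖ = 1 := by
    have h1 : ‖b i‖ ^ 2 = 1 := by
      have h2 : ‖b k‖ = 0 := by rw [hk, norm_zero]
      fin_cases i <;> fin_cases k <;> simp_all
    nlinarith [norm_nonneg (b i)]
  have hzi := coord_close hbi hz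
  have hbi0 : b i ≠ 0 := by
    intro h
    rw [h, norm_zero] at hbi
    exact zero_ne_one hbi
  unfold psi
  rw [huniv, hk, hbi]
  have h1 : (inner ℂ b z : ℂ) = ∑ j, (starRingEnd ℂ) (b j) * z j := by
    simp [PiLp.inner_apply, mul_comm]
  rw [h1, huniv, hk]
  simp only [norm_zero, div_zero, Complex.log_zero, mul_zero, add_zero, map_zero, zero_mul]
  have h2 : (((1 : ℝ) ^ 2 : ℝ) : ℂ) = 1 := by norm_num
  rw [h2, one_mul, Complex.exp_log (div_ne_zero hzi hbi0)]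
  have h3 : (starRingEnd ℂ) (b i) * b i = 1 := by
    rw [Complex.conj_mul', hbi]
    norm_num
  rw [div_eq_iff hbi0]
  linear_combination (-(z i)) * h3

/-- the local theorem at any boundary point -/
theorem loc_std (N M : ℕ) {ε Q : ℝ} (hε : 0 < ε) (hQ : 0 ≤ Q) {b : V 2}
    (hb : ‖b‖ = 1) {r : ℝ → ℝ} (hr : ∀ e, 0 < e → 0 < r e) :
    ∃ C r₀ : ℝ, 0 ≤ C ∧ 0 < r₀ ∧ ∀ (F : Fin N → V 2 → ℂ) (G : Fin M → V 2 → ℂ),
    (∀ i, HB (F i)) → (∀ j, HB (G j)) →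
    (∀ i e, 0 < e → ∀ z ∈ ball (0 : V 2) 1, ‖z - b‖ < r e → ‖F i z - F i (psi b z • b)‖ ≤ e) →
    Bez {z | z ∈ ball (0 : V 2) 1 ∧ ∀ i, ‖F i z‖ < ε} G Q →
    Bez (ball 0 1 ∩ ball b r₀) (Sum.elim F G) C := by
  have key : ∀ i k : Fin 2, i ≠ k → b k = 0 →
      ∃ C r₀ : ℝ, 0 ≤ C ∧ 0 < r₀ ∧ ∀ (F : Fin N → V 2 → ℂ) (G : Fin M → V 2 → ℂ),
    (∀ i, HB (F i)) → (∀ j, HB (G j)) →
    (∀ i e, 0 < e → ∀ z ∈ ball (0 : V 2) 1, ‖z - b‖ < r e → ‖F i z - F i (psi b z • b)‖ ≤ e) →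
    Bez {z | z ∈ ball (0 : V 2) 1 ∧ ∀ i, ‖F i z‖ < ε} G Q →
    Bez (ball 0 1 ∩ ball b r₀) (Sum.elim F G) C := by
    intro i k hik hk
    obtain ⟨C, r₀, hC, hr₀, H⟩ := loc_af N M hε hQ hb (r := fun e => min (r e) 1)
      (fun e he => lt_min (hr e he) one_pos)
    refine ⟨C, r₀, hC, hr₀, fun F G hF hG has hbez => H F G hF hG ?_ hbez⟩
    intro i' e he z hz hzb
    have h1 := has i' e he z hz (lt_of_lt_of_le hzb (min_le_left _ _))
    rwa [psi_coord hb hik hk (lt_of_lt_of_le hzb (min_le_right _ _))] at h1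
  by_cases h0 : b 0 = 0
  · exact key 1 0 (by decide) h0
  · by_cases h1 : b 1 = 0
    · exact key 0 1 (by decide) h1
    · exact loc_nl N M hε hQ hb h0 h1 hr

/-- the local theorem in a chart -/
theorem loc_ch (N M : ℕ) {ε Q : ℝ} (hε : 0 < ε) (hQ : 0 ≤ Q) {b β : V 2} {φ χ : V 2 → V 2}
    (hA : Aut φ χ) (hβ : ‖β‖ = 1) (hlim : Tendsto χ (𝓝[ball 0 1] b) (𝓝 β))
    {r : ℝ → ℝ} (hr : ∀ e, 0 < e → 0 < r e) :
    ∃ C r₀ : ℝ, 0 ≤ C ∧ 0 < r₀ ∧ ∀ (F : Fin N → V 2 → ℂ) (G : Fin M → V 2 → ℂ),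
    (∀ i, HB (F i)) → (∀ j, HB (G j)) →
    (∀ i e, 0 < e → ∀ z ∈ ball (0 : V 2) 1, ‖z - β‖ < r e →
      ‖F i (φ z) - F i (φ (psi β z • β))‖ ≤ e) →
    Bez {z | z ∈ ball (0 : V 2) 1 ∧ ∀ i, ‖F i z‖ < ε} G Q →
    Bez (ball 0 1 ∩ ball b r₀) (Sum.elim F G) C := by
  obtain ⟨C, r₁, hC, hr₁, H⟩ := loc_std N M hε hQ hβ hr
  have h1 : ∀ᶠ z in 𝓝[ball 0 1] b, χ z ∈ ball β r₁ := hlim (ball_mem_nhds _ hr₁)
  rw [eventually_nhdsWithin_iff, Metric.eventually_nhds_iff_ball] at h1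
  obtain ⟨r₀, hr₀, h2⟩ := h1
  refine ⟨C, r₀, hC, hr₀, fun F G hF hG has hbez => ?_⟩
  obtain ⟨k, k1, k2, k3⟩ := hbez
  have hmap : MapsTo φ {z | z ∈ ball (0 : V 2) 1 ∧ ∀ i, ‖F i (φ z)‖ < ε}
      {z | z ∈ ball (0 : V 2) 1 ∧ ∀ i, ‖F i z‖ < ε} := fun z hz => ⟨hA.m1 hz.1, hz.2⟩
  obtain ⟨g, g1, g2, g3⟩ := H (fun i z => F i (φ z)) (fun j z => G j (φ z))
    (fun i => (hF i).comp hA) (fun j => (hG j).comp hA) has
    ⟨fun j z => k j (φ z), fun j => (k1 j).comp (hA.d1.mono fun z hz => hz.1) hmap,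
      fun j z hz => k2 j _ (hmap hz), fun z hz => k3 _ (hmap hz)⟩
  have hmap2 : MapsTo χ (ball 0 1 ∩ ball b r₀) (ball 0 1 ∩ ball β r₁) := fun z hz =>
    ⟨hA.m2 hz.1, h2 z hz.2 hz.1⟩
  refine ⟨fun j z => g j (χ z), fun j => (g1 j).comp (hA.d2.mono inter_subset_left) hmap2,
    fun j z hz => g2 j _ (hmap2 hz), fun z hz => ?_⟩
  rw [← g3 _ (hmap2 hz)]
  refine Finset.sum_congr rfl fun j _ => ?_
  rcases j with j | j
  · simp only [Sum.elim_inl, hA.i2 z hz.1]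
  · simp only [Sum.elim_inr, hA.i2 z hz.1]

/-- a system of charts at the boundary points -/
structure Ch (φ χ : V 2 → V 2 → V 2) (β : V 2 → V 2) : Prop where
  aut : ∀ b, ‖b‖ = 1 → Aut (φ b) (χ b)
  nb : ∀ b, ‖b‖ = 1 → ‖β b‖ = 1
  lim : ∀ b, ‖b‖ = 1 → Tendsto (χ b) (𝓝[ball 0 1] b) (𝓝 (β b))

/-- uniform localisation -/
theorem glob (N M : ℕ) {ε Q : ℝ} (hε : 0 < ε) (hQ : 0 ≤ Q) {φ χ : V 2 → V 2 → V 2}
    {β : V 2 → V 2} (hch : Ch φ χ β) {r : V 2 → ℝ → ℝ} (hr : ∀ b e, 0 < e → 0 < r b e) :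
    ∃ C : ℝ, ∀ (F : Fin N → V 2 → ℂ) (G : Fin M → V 2 → ℂ),
    (∀ i, HB (F i)) → (∀ j, HB (G j)) →
    (∀ b : V 2, ‖b‖ = 1 → ∀ i e, 0 < e → ∀ z ∈ ball (0 : V 2) 1, ‖z - β b‖ < r b e →
      ‖F i (φ b z) - F i (φ b (psi (β b) z • β b))‖ ≤ e) →
    Bez {z | z ∈ ball (0 : V 2) 1 ∧ ∀ i, ‖F i z‖ < ε} G Q →
    Bez (ball 0 1) (Sum.elim F G) C := by
  let I : Set ((Fin N → V 2 → ℂ) × (Fin M → V 2 → ℂ)) := {p |
    (∀ i, HB (p.1 i)) ∧ (∀ j, HB (p.2 j)) ∧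
    (∀ b : V 2, ‖b‖ = 1 → ∀ i e, 0 < e → ∀ z ∈ ball (0 : V 2) 1, ‖z - β b‖ < r b e →
      ‖p.1 i (φ b z) - p.1 i (φ b (psi (β b) z • β b))‖ ≤ e) ∧
    Bez {z | z ∈ ball (0 : V 2) 1 ∧ ∀ i, ‖p.1 i z‖ < ε} p.2 Q}
  have hIm : ∀ p : I, (∀ i, HB (p.1.1 i)) ∧ (∀ j, HB (p.1.2 j)) ∧
    (∀ b : V 2, ‖b‖ = 1 → ∀ i e, 0 < e → ∀ z ∈ ball (0 : V 2) 1, ‖z - β b‖ < r b e →
      ‖p.1.1 i (φ b z) - p.1.1 i (φ b (psi (β b) z • β b))‖ ≤ e) ∧
    Bez {z | z ∈ ball (0 : V 2) 1 ∧ ∀ i, ‖p.1.1 i z‖ < ε} p.1.2 Q := fun p => p.2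
  have hsolv : Solv (fun (p : I) => Sum.elim p.1.1 p.1.2) := by
    refine bdry (δ := min ε (1 / (Q + 1))) ?_ (lt_min hε (by positivity)) ?_ ?_
    · rintro p (i | j)
      · exact (hIm p).1 i
      · exact (hIm p).2.1 j
    · intro p z hz
      rw [Fintype.sum_sum_type]
      simp only [Sum.elim_inl, Sum.elim_inr]
      by_cases hs : ∀ i, ‖p.1.1 i z‖ < ε
      · obtain ⟨k, -, k2, k3⟩ := (hIm p).2.2.2
        have h3 := k3 z ⟨hz, hs⟩
        have h4 : (1 : ℝ) ≤ Q * ∑ j, ‖p.1.2 j z‖ := by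
          calc (1 : ℝ) = ‖∑ j, p.1.2 j z * k j z‖ := by rw [h3, norm_one]
            _ ≤ ∑ j, ‖p.1.2 j z * k j z‖ := norm_sum_le _ _
            _ ≤ ∑ j, Q * ‖p.1.2 j z‖ := by
              refine Finset.sum_le_sum fun j _ => ?_
              rw [norm_mul, mul_comm]
              have := k2 j z ⟨hz, hs⟩
              gcongr
            _ = Q * ∑ j, ‖p.1.2 j z‖ := by rw [Finset.mul_sum]
        have h5 : 0 ≤ ∑ j, ‖p.1.2 j z‖ := Finset.sum_nonneg fun j _ => norm_nonneg _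
        have h6 : 0 ≤ ∑ i, ‖p.1.1 i z‖ := Finset.sum_nonneg fun j _ => norm_nonneg _
        have h7 : 1 / (Q + 1) ≤ ∑ j, ‖p.1.2 j z‖ := by
          rw [div_le_iff₀ (by positivity)]
          nlinarith
        have h8 := min_le_right ε (1 / (Q + 1))
        linarith
      · push Not at hs
        obtain ⟨i, hi⟩ := hs
        have h5 : 0 ≤ ∑ j, ‖p.1.2 j z‖ := Finset.sum_nonneg fun j _ => norm_nonneg _
        have h6 : ‖p.1.1 i z‖ ≤ ∑ i, ‖p.1.1 i z‖ :=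
          Finset.single_le_sum (f := fun i => ‖p.1.1 i z‖) (fun j _ => norm_nonneg _)
            (Finset.mem_univ i)
        have h8 := min_le_left ε (1 / (Q + 1))
        linarith
    · intro b hb
      obtain ⟨C, r₀, -, hr₀, H⟩ := loc_ch N M hε hQ (hch.aut b hb) (hch.nb b hb) (hch.lim b hb)
        (r := r b) (hr b)
      exact ⟨C, r₀, hr₀, fun p => H p.1.1 p.1.2 (hIm p).1 (hIm p).2.1 ((hIm p).2.2.1 b hb)
        (hIm p).2.2.2⟩
  obtain ⟨C, hC⟩ := hsolv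
  refine ⟨C, fun F G hF hG has hbez => ?_⟩
  have hmem : (F, G) ∈ I := ⟨hF, hG, has, hbez⟩
  exact hC ⟨(F, G), hmem⟩

/-- the bounded holomorphic functions which are asymptotic, at each boundary point, to a function of
a monomial in the chart -/
def Dc (φ : V 2 → V 2 → V 2) (β : V 2 → V 2) : Set (V 2 → ℂ) :=
  {F | (DifferentiableOn ℂ F (ball 0 1) ∧ ∃ C : ℝ, ∀ z ∈ ball (0 : V 2) 1, ‖F z‖ ≤ C) ∧
    ∀ b : V 2, ‖b‖ = 1 → ∀ e : ℝ, 0 < e → ∃ r : ℝ, 0 < r ∧ ∀ z ∈ ball (0 : V 2) 1,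
      ‖z - β b‖ < r → ‖F (φ b z) - F (φ b (psi (β b) z • β b))‖ ≤ e}

/-- the corona theorem for tuples of functions of `Dc` and one arbitrary function -/
theorem tup_D {φ χ : V 2 → V 2 → V 2} {β : V 2 → V 2} (hch : Ch φ χ β) :
    Pool.Agent.Y263.LF.Tup (Dc φ β) := by
  classical
  intro K h hh c G hG hGb δ hδ hlow
  obtain ⟨CG, hCG⟩ := hGb
  choose s hs using fun k => (hh k).1.2
  have hr0 : ∀ (k : Fin K) (b : V 2) (e : ℝ), ∃ r : ℝ, 0 < r ∧ (‖b‖ = 1 → 0 < e →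
      ∀ z ∈ ball (0 : V 2) 1, ‖z - β b‖ < r →
        ‖h k (φ b z) - h k (φ b (psi (β b) z • β b))‖ ≤ e) := by
    intro k b e
    by_cases hbe : ‖b‖ = 1 ∧ 0 < e
    · obtain ⟨r, hr, h1⟩ := (hh k).2 b hbe.1 e hbe.2
      exact ⟨r, hr, fun _ _ => h1⟩
    · exact ⟨1, one_pos, fun h1 h2 => absurd ⟨h1, h2⟩ hbe⟩
  choose r hr hr2 using hr0
  obtain ⟨B, hBe⟩ : ∃ B : Fin K → ℝ, B = fun k => |s k| + ‖c k‖ + 1 := ⟨_, rfl⟩
  have hB : ∀ k, 0 < B k := fun k => by rw [hBe]; positivity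
  have hBc : ∀ k, ((B k : ℝ) : ℂ) ≠ 0 := fun k => by exact_mod_cast (hB k).ne'
  obtain ⟨b, hbe⟩ : ∃ b : ℝ, b = |CG| + 1 := ⟨_, rfl⟩
  have hb : 0 < b := by rw [hbe]; positivity
  have hbc : (b : ℂ) ≠ 0 := by exact_mod_cast hb.ne'
  obtain ⟨S, hSe⟩ : ∃ S : ℝ, S = ∑ k, B k + 1 := ⟨_, rfl⟩
  have hS : 0 < S := by
    rw [hSe]
    have : 0 ≤ ∑ k, B k := Finset.sum_nonneg fun k _ => (hB k).le
    linarith
  obtain ⟨ε, hεe⟩ : ∃ ε : ℝ, ε = δ / (2 * S) := ⟨_, rfl⟩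
  have hε : 0 < ε := by rw [hεe]; positivity
  -- the common modulus
  have hm0 : ∀ (b : V 2) (e : ℝ), ∃ m : ℝ, 0 < m ∧ ∀ k, m ≤ r k b (B k * e) := by
    intro b e
    rcases (Finset.univ : Finset (Fin K)).eq_empty_or_nonempty with h0 | h0
    · refine ⟨1, one_pos, fun k => ?_⟩
      exact absurd (Finset.mem_univ k) (by rw [h0]; exact Finset.notMem_empty k)
    · obtain ⟨k0, -, hk0⟩ := Finset.exists_min_image Finset.univ (fun k => r k b (B k * e)) h0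
      exact ⟨r k0 b (B k0 * e), hr _ _ _, fun k => hk0 k (Finset.mem_univ k)⟩
  choose m hm hm2 using hm0
  obtain ⟨C', H⟩ := glob K 1 (ε := ε) (Q := 2 * b / δ) hε (by positivity) hch (r := m)
    (fun b e _ => hm b e)
  obtain ⟨C, hCe⟩ : ∃ C, C = |C'| := ⟨_, rfl⟩
  have hC : 0 ≤ C := by rw [hCe]; positivity
  have hCC : C' ≤ C := by rw [hCe]; exact le_abs_self _
  have hDG : DifferentiableOn ℂ (fun z => G z / (b : ℂ)) (ball (0 : V 2) 1) := by
    simp only [div_eq_mul_inv]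
    exact hG.mul_const _
  have hlowG : ∀ z ∈ ball (0 : V 2) 1, (∀ k, ‖(h k z - c k) / (B k : ℂ)‖ < ε) →
      δ / 2 ≤ ‖G z‖ := by
    intro z hz h1
    have h2 := hlow z hz
    have h3 : ∑ j, ‖h j z - c j‖ ≤ ∑ j, ε * B j := by
      refine Finset.sum_le_sum fun j _ => ?_
      have h4 := h1 j
      rw [norm_div, Complex.norm_real, Real.norm_of_nonneg (hB j).le, div_lt_iff₀ (hB j)] at h4
      exact h4.le
    rw [← Finset.mul_sum] at h3
    have h5 : ε * ∑ j, B j ≤ ε * S := by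
      have : ∑ j, B j ≤ S := by rw [hSe]; linarith
      gcongr
    have h6 : ε * S = δ / 2 := by rw [hεe]; field_simp
    linarith
  obtain ⟨g, g1, g2, g3⟩ := H (fun k z => (h k z - c k) / (B k : ℂ))
    (fun _ z => G z / (b : ℂ))
    (fun k => by
      refine ⟨?_, fun z hz => ?_⟩
      · simp only [div_eq_mul_inv]
        exact ((hh k).1.1.sub_const _).mul_const _
      · rw [norm_div, Complex.norm_real, Real.norm_of_nonneg (hB k).le, div_le_one (hB k), hBe]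
        simp only []
        have h1 := norm_sub_le (h k z) (c k)
        have h2 := hs k z hz
        have h3 := le_abs_self (s k)
        linarith)
    (fun _ => ⟨hDG, fun z hz => by
      rw [norm_div, Complex.norm_real, Real.norm_of_nonneg hb.le, div_le_one hb, hbe]
      exact (hCG z hz).trans ((le_abs_self CG).trans (by linarith))⟩)
    (by
      intro b' hb' k e he z hz hzb
      have h1 := hr2 k b' (B k * e) hb' (by have := hB k; positivity) z hz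
        (lt_of_lt_of_le hzb (hm2 b' e k))
      have h2 : (h k (φ b' z) - c k) / (B k : ℂ) -
          (h k (φ b' (psi (β b') z • β b')) - c k) / (B k : ℂ) =
          (h k (φ b' z) - h k (φ b' (psi (β b') z • β b'))) / (B k : ℂ) := by
        ring
      rw [h2, norm_div, Complex.norm_real, Real.norm_of_nonneg (hB k).le, div_le_iff₀ (hB k)]
      linarith)
    (by
      refine ⟨fun _ z => (G z / (b : ℂ))⁻¹, fun _ => ?_, fun _ z hz => ?_, fun z hz => ?_⟩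
      · refine (hDG.mono fun z hz => hz.1).fun_inv fun z hz h0 => ?_
        have h1 := hlowG z hz.1 hz.2
        rw [div_eq_zero_iff] at h0
        rcases h0 with h0 | h0
        · rw [h0, norm_zero] at h1
          linarith
        · exact hbc h0
      · have h1 := hlowG z hz.1 hz.2
        rw [norm_inv, norm_div, Complex.norm_real, Real.norm_of_nonneg hb.le, inv_div,
          div_le_div_iff₀ (by linarith) hδ]
        nlinarith
      · have h1 := hlowG z hz.1 hz.2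
        have h2 : G z ≠ 0 := by
          intro h0
          rw [h0, norm_zero] at h1
          linarith
        rw [Fintype.sum_unique]
        exact mul_inv_cancel₀ (div_ne_zero h2 hbc))
  refine ⟨fun k z => g (Sum.inl k) z / (B k : ℂ), fun z => g (Sum.inr 0) z / (b : ℂ),
    ∑ k, C / B k + C / b, fun k => ?_, ?_, fun k z hz => ?_, fun z hz => ?_, fun z hz => ?_⟩
  · simp only [div_eq_mul_inv]
    exact (g1 _).mul_const _
  · simp only [div_eq_mul_inv]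
    exact (g1 _).mul_const _
  · rw [norm_div, Complex.norm_real, Real.norm_of_nonneg (hB k).le]
    have h1 := (g2 (Sum.inl k) z hz).trans hCC
    have h2 : ‖g (Sum.inl k) z‖ / B k ≤ C / B k := by
      have := hB k
      gcongr
    have h3 : C / B k ≤ ∑ k, C / B k :=
      Finset.single_le_sum (f := fun k => C / B k) (fun k _ => div_nonneg hC (hB k).le)
        (Finset.mem_univ k)
    have h4 : 0 ≤ C / b := by positivity
    linarith
  · rw [norm_div, Complex.norm_real, Real.norm_of_nonneg hb.le]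
    have h1 := (g2 (Sum.inr 0) z hz).trans hCC
    have h2 : ‖g (Sum.inr 0) z‖ / b ≤ C / b := by gcongr
    have h3 : 0 ≤ ∑ k, C / B k := Finset.sum_nonneg fun k _ => div_nonneg hC (hB k).le
    linarith
  · rw [← g3 z hz]
    simp only [Fintype.sum_sum_type, Sum.elim_inl, Sum.elim_inr, Fin.sum_univ_one]
    congr 1
    · refine Finset.sum_congr rfl fun k _ => ?_
      ring
    · ring

end Pool.Agent.R223.Tor
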