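import Mathlib
import Pool.Agent.R223.Tor.Asm

/-!
Functions on which a torus flow acts norm-continuously are asymptotic to functions of a monomial.
-/

set_option autoImplicit false
set_option linter.unusedSectionVars false

open Metric Set Filter Topology Complex

namespace Pool.Agent.R223.Tor

open Pool.Agent.TH310.Cor

/-- the rectangle lemma -/
theorem rect {S : ℂ → ℂ} {y η e C : ℝ} (hη : 0 < η)
    (hd : DifferentiableOn ℂ S {ζ | ζ.re ∈ uIcc 0 y})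
    (hb : ∀ ζ : ℂ, ζ.re ∈ uIcc 0 y → ‖S ζ‖ ≤ C)
    (h0 : ∀ t : ℝ, |t| ≤ η → ‖S (t * I) - S 0‖ ≤ e)
    (hy : ∀ t : ℝ, |t| ≤ η → ‖S (y + t * I) - S y‖ ≤ e) :
    ‖S y - S 0‖ ≤ 2 * e + C * |y| / η := by
  obtain ⟨z, hz⟩ : ∃ z : ℂ, z = ((-η : ℝ) : ℂ) * I := ⟨_, rfl⟩
  obtain ⟨w, hw⟩ : ∃ w : ℂ, w = (y : ℂ) + (η : ℂ) * I := ⟨_, rfl⟩
  have z1 : z.re = 0 := by rw [hz]; simp
  have z2 : z.im = -η := by rw [hz]; simp
  have w1 : w.re = y := by rw [hw]; simp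
  have w2 : w.im = η := by rw [hw]; simp
  have hrect := Complex.integral_boundary_rect_eq_zero_of_differentiableOn S z w
    (hd.mono (by
      intro ζ hζ
      have h1 := hζ.1
      rw [mem_preimage, z1, w1] at h1
      exact h1))
  rw [z1, z2, w1, w2] at hrect
  have hcv : ∀ x : ℝ, x ∈ uIcc 0 y → Continuous (fun t : ℝ => S ((x : ℂ) + t * I)) := by
    intro x hx
    have h1 : ContinuousOn (fun t : ℝ => S ((x : ℂ) + t * I)) univ := by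
      refine hd.continuousOn.comp (Continuous.continuousOn (by fun_prop)) (fun t _ => ?_)
      simpa using hx
    exact continuousOn_univ.1 h1
  have key : ∀ x : ℝ, x ∈ uIcc 0 y → (∀ t : ℝ, |t| ≤ η → ‖S (x + t * I) - S x‖ ≤ e) →
      ‖(∫ t in (-η)..η, S ((x : ℂ) + t * I)) - (2 * η : ℝ) * S x‖ ≤ e * (2 * η) := by
    intro x hx hx2
    have i1 : IntervalIntegrable (fun t : ℝ => S ((x : ℂ) + t * I)) MeasureTheory.volume (-η) η :=
      (hcv x hx).intervalIntegrable _ _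
    have h1 : (∫ t in (-η)..η, S ((x : ℂ) + t * I)) - (2 * η : ℝ) * S x =
        ∫ t in (-η)..η, (S ((x : ℂ) + t * I) - S x) := by
      rw [intervalIntegral.integral_sub i1 intervalIntegrable_const,
        intervalIntegral.integral_const]
      rw [Complex.real_smul]
      congr 3
      ring
    rw [h1]
    have h2 := intervalIntegral.norm_integral_le_of_norm_le_const (a := -η) (b := η)
      (f := fun t : ℝ => S ((x : ℂ) + t * I) - S x) (C := e) (fun t ht => by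
        rw [uIoc_of_le (by linarith)] at ht
        exact hx2 t (abs_le.2 ⟨ht.1.le, ht.2⟩))
    rw [abs_of_nonneg (by linarith)] at h2
    linarith
  have b1 := key 0 left_mem_uIcc (fun t ht => by
    have := h0 t ht
    rw [Complex.ofReal_zero, zero_add]
    exact this)
  have b2 := key y right_mem_uIcc hy
  have key2 : ∀ c : ℝ, ‖∫ x in (0 : ℝ)..y, S ((x : ℂ) + (c : ℂ) * I)‖ ≤ C * |y| := by
    intro c
    have h2 := intervalIntegral.norm_integral_le_of_norm_le_const (a := (0 : ℝ)) (b := y)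
      (f := fun x : ℝ => S ((x : ℂ) + (c : ℂ) * I)) (C := C) (fun x hx => by
        refine hb _ ?_
        have h3 : ((x : ℂ) + (c : ℂ) * I).re = x := by simp
        rw [h3]
        exact uIoc_subset_uIcc hx)
    rwa [sub_zero] at h2
  have b3 := key2 (-η)
  have b4 := key2 η
  obtain ⟨A, hA⟩ : ∃ A : ℂ, A = ∫ t in (-η)..η, S (((0 : ℝ) : ℂ) + t * I) := ⟨_, rfl⟩
  obtain ⟨B, hB⟩ : ∃ B : ℂ, B = ∫ t in (-η)..η, S ((y : ℂ) + t * I) := ⟨_, rfl⟩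
  obtain ⟨X, hX⟩ : ∃ X : ℂ, X = ∫ x in (0 : ℝ)..y, S ((x : ℂ) + ((-η : ℝ) : ℂ) * I) := ⟨_, rfl⟩
  obtain ⟨Y, hY⟩ : ∃ Y : ℂ, Y = ∫ x in (0 : ℝ)..y, S ((x : ℂ) + (η : ℂ) * I) := ⟨_, rfl⟩
  rw [← hA] at b1 hrect
  rw [← hB] at b2 hrect
  rw [← hX] at b3 hrect
  rw [← hY] at b4 hrect
  simp only [smul_eq_mul] at hrect
  rw [Complex.ofReal_zero] at b1
  have hI : I * I = -1 := I_mul_I
  have e1 : ((2 * η : ℝ) : ℂ) * (S y - S 0) =
      (A - (2 * η : ℝ) * S 0) - (B - (2 * η : ℝ) * S y) + I * (X - Y) := by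
    linear_combination (-I) * hrect + (B - A) * hI
  have h5 : 2 * η * ‖S y - S 0‖ ≤ e * (2 * η) + e * (2 * η) + (C * |y| + C * |y|) := by
    have h6 : ‖((2 * η : ℝ) : ℂ) * (S y - S 0)‖ = 2 * η * ‖S y - S 0‖ := by
      rw [norm_mul, Complex.norm_real, Real.norm_of_nonneg (by positivity)]
    rw [← h6, e1]
    have n1 : ‖I * (X - Y)‖ ≤ C * |y| + C * |y| := by
      rw [norm_mul, Complex.norm_I, one_mul]
      exact (norm_sub_le _ _).trans (by linarith)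
    have n3 := norm_add_le ((A - (2 * η : ℝ) * S 0) - (B - (2 * η : ℝ) * S y)) (I * (X - Y))
    have n4 := norm_sub_le (A - (2 * η : ℝ) * S 0) (B - (2 * η : ℝ) * S y)
    linarith
  have h6 : 2 * η * ‖S y - S 0‖ ≤ 2 * η * (2 * e + C * |y| / η) := by
    refine h5.trans (le_of_eq ?_)
    field_simp
    ring
  exact le_of_mul_le_mul_left h6 (by positivity)

/-- the torus flows -/
noncomputable def fl (k : ℝ × ℝ) (ζ : ℂ) (z : V 2) : V 2 :=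
  !₂[Complex.exp (k.2 * ζ) * z 0, Complex.exp (-(k.1 * ζ)) * z 1]

theorem fl_add (k : ℝ × ℝ) (ζ ω : ℂ) (z : V 2) : fl k ζ (fl k ω z) = fl k (ω + ζ) z := by
  ext i
  fin_cases i
  · change Complex.exp (k.2 * ζ) * (Complex.exp (k.2 * ω) * z 0) =
      Complex.exp (k.2 * (ω + ζ)) * z 0
    rw [← mul_assoc, ← Complex.exp_add]
    congr 2
    ring
  · change Complex.exp (-(k.1 * ζ)) * (Complex.exp (-(k.1 * ω)) * z 1) =
      Complex.exp (-(k.1 * (ω + ζ))) * z 1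
    rw [← mul_assoc, ← Complex.exp_add]
    congr 2
    ring

theorem fl_zero (k : ℝ × ℝ) (z : V 2) : fl k 0 z = z := by
  ext i
  fin_cases i <;> simp [fl]

theorem fl_norm (k : ℝ × ℝ) (ζ : ℂ) (z : V 2) : ‖fl k ζ z‖ ^ 2 =
    Real.exp (2 * k.2 * ζ.re) * ‖z 0‖ ^ 2 + Real.exp (-(2 * k.1 * ζ.re)) * ‖z 1‖ ^ 2 := by
  rw [EuclideanSpace.norm_sq_eq, Fin.sum_univ_two]
  have e0 : fl k ζ z 0 = Complex.exp (k.2 * ζ) * z 0 := rfl
  have e1 : fl k ζ z 1 = Complex.exp (-(k.1 * ζ)) * z 1 := rfl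
  rw [e0, e1, norm_mul, norm_mul, mul_pow, mul_pow, Complex.norm_exp, Complex.norm_exp,
    ← Real.exp_nat_mul, ← Real.exp_nat_mul, neg_re, re_ofReal_mul, re_ofReal_mul]
  push_cast
  congr 3 <;> ring

theorem fl_mem {k : ℝ × ℝ} {ζ : ℂ} {z : V 2} : fl k ζ z ∈ ball (0 : V 2) 1 ↔
    Real.exp (2 * k.2 * ζ.re) * ‖z 0‖ ^ 2 + Real.exp (-(2 * k.1 * ζ.re)) * ‖z 1‖ ^ 2 < 1 := by
  rw [mem_ball_zero_iff, ← fl_norm, sq_lt_one_iff₀ (norm_nonneg _)]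

theorem fl_mem_im {k : ℝ × ℝ} {ζ : ℂ} {z : V 2} (t : ℝ) :
    fl k (ζ + t * I) z ∈ ball (0 : V 2) 1 ↔ fl k ζ z ∈ ball (0 : V 2) 1 := by
  rw [fl_mem, fl_mem]
  have h : (ζ + t * I).re = ζ.re := by simp
  rw [h]

theorem fl_diff (k : ℝ × ℝ) : Differentiable ℂ (fun p : ℂ × V 2 => fl k p.1 p.2) := by
  unfold fl
  rw [differentiable_euclidean]
  intro i
  fin_cases i
  · simp
    fun_prop
  · simp
    fun_prop

theorem conv {k : ℝ × ℝ} {z : V 2} {y : ℝ} (hz : z ∈ ball (0 : V 2) 1)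
    (hy : fl k (y : ℂ) z ∈ ball (0 : V 2) 1) {x : ℝ} (hx : x ∈ uIcc 0 y) :
    fl k (x : ℂ) z ∈ ball (0 : V 2) 1 := by
  have h0 : fl k 0 z ∈ ball (0 : V 2) 1 := by rwa [fl_zero]
  rw [fl_mem] at h0 hy ⊢
  simp only [zero_re, mul_zero, neg_zero, Real.exp_zero, one_mul, ofReal_re] at h0 hy ⊢
  have h1 : ∃ s : ℝ, 0 ≤ s ∧ s ≤ 1 ∧ x = s * y := by
    rw [← segment_eq_uIcc, segment_eq_image] at hx
    obtain ⟨s, hs, hsx⟩ := hx
    refine ⟨s, hs.1, hs.2, ?_⟩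
    rw [← hsx]
    simp
  obtain ⟨s, hs0, hs1, rfl⟩ := h1
  have hexp : ∀ c : ℝ, Real.exp (s * c) ≤ (1 - s) + s * Real.exp c := by
    intro c
    have h2 := convexOn_exp.2 (mem_univ (0 : ℝ)) (mem_univ c) (sub_nonneg.2 hs1) hs0 (by ring)
    simpa using h2
  have e1 := hexp (2 * k.2 * y)
  have e2 := hexp (-(2 * k.1 * y))
  have e3 : 2 * k.2 * (s * y) = s * (2 * k.2 * y) := by ring
  have e4 : -(2 * k.1 * (s * y)) = s * (-(2 * k.1 * y)) := by ring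
  rw [e3, e4]
  have n0 : 0 ≤ ‖z 0‖ ^ 2 := by positivity
  have n1 : 0 ≤ ‖z 1‖ ^ 2 := by positivity
  have f1 := mul_le_mul_of_nonneg_right e1 n0
  have f2 := mul_le_mul_of_nonneg_right e2 n1
  have f3 : ((1 - s) + s * Real.exp (2 * k.2 * y)) * ‖z 0‖ ^ 2 +
      ((1 - s) + s * Real.exp (-(2 * k.1 * y))) * ‖z 1‖ ^ 2 =
      (1 - s) * (‖z 0‖ ^ 2 + ‖z 1‖ ^ 2) + s * (Real.exp (2 * k.2 * y) * ‖z 0‖ ^ 2 +
        Real.exp (-(2 * k.1 * y)) * ‖z 1‖ ^ 2) := by ring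
  rcases eq_or_lt_of_le hs0 with h | h
  · rw [← h] at f1 f2 f3 ⊢
    simp only [zero_mul, Real.exp_zero, one_mul] at *
    linarith
  · have f4 : s * (Real.exp (2 * k.2 * y) * ‖z 0‖ ^ 2 +
        Real.exp (-(2 * k.1 * y)) * ‖z 1‖ ^ 2) < s * 1 := mul_lt_mul_of_pos_left hy h
    have f5 : (1 - s) * (‖z 0‖ ^ 2 + ‖z 1‖ ^ 2) ≤ (1 - s) * 1 :=
      mul_le_mul_of_nonneg_left h0.le (sub_nonneg.2 hs1)
    linarith

/-- norm-continuity under the flow -/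
def FC (k : ℝ × ℝ) (F : V 2 → ℂ) : Prop :=
  ∀ ε : ℝ, 0 < ε → ∃ η : ℝ, 0 < η ∧ ∀ θ : ℝ, |θ| ≤ η → ∀ z ∈ ball (0 : V 2) 1,
    ‖F (fl k (θ * I) z) - F z‖ ≤ ε

theorem fl_path {k : ℝ × ℝ} {F : V 2 → ℂ} (hF : DifferentiableOn ℂ F (ball 0 1)) {C : ℝ}
    (hC : ∀ z ∈ ball (0 : V 2) 1, ‖F z‖ ≤ C) {η e : ℝ} (hη : 0 < η)
    (hc : ∀ θ : ℝ, |θ| ≤ η → ∀ z ∈ ball (0 : V 2) 1, ‖F (fl k (θ * I) z) - F z‖ ≤ e)
    {z : V 2} {y : ℝ} (hz : z ∈ ball (0 : V 2) 1) (hy : fl k (y : ℂ) z ∈ ball (0 : V 2) 1) :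
    ‖F (fl k (y : ℂ) z) - F z‖ ≤ 2 * e + C * |y| / η := by
  have hm : ∀ ζ : ℂ, ζ.re ∈ uIcc 0 y → fl k ζ z ∈ ball (0 : V 2) 1 := by
    intro ζ hζ
    have h1 := conv hz hy hζ
    rw [← fl_mem_im ζ.im, re_add_im] at h1
    exact h1
  have h1 := rect (S := fun ζ => F (fl k ζ z)) (y := y) (η := η) (e := e) (C := C) hη
    (hF.comp ((fl_diff k).comp (differentiable_id.prodMk (differentiable_const z))).differentiableOn
      (fun ζ hζ => hm ζ hζ)) (fun ζ hζ => hC _ (hm ζ hζ))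
    (fun t ht => by
      simp only [fl_zero]
      exact hc t ht z hz)
    (fun t ht => by
      rw [← fl_add]
      exact hc t ht _ hy)
  simp only [fl_zero] at h1
  exact h1

/-- vanishing oscillation at `b` -/
def Osc (F : V 2 → ℂ) (b : V 2) : Prop :=
  ∀ e : ℝ, 0 < e → ∃ r : ℝ, 0 < r ∧ ∀ z ∈ ball (0 : V 2) 1, ∀ z' ∈ ball (0 : V 2) 1,
    ‖z - b‖ < r → ‖z' - b‖ < r → ‖F z - F z'‖ ≤ e

theorem osc_off {k : ℝ × ℝ} {F : V 2 → ℂ} (hF : DifferentiableOn ℂ F (ball 0 1)) {C : ℝ}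
    (hC : ∀ z ∈ ball (0 : V 2) 1, ‖F z‖ ≤ C) (hc : FC k F) {b : V 2} (hb : ‖b‖ = 1)
    (hbk : k.2 * ‖b 0‖ ^ 2 ≠ k.1 * ‖b 1‖ ^ 2) : Osc F b := by
  intro e he
  obtain ⟨η, hη, hη2⟩ := hc (e / 8) (by positivity)
  obtain ⟨τ, hτe⟩ : ∃ τ : ℝ, τ = e / 8 * η / (|C| + 1) := ⟨_, rfl⟩
  have hτ : 0 < τ := by rw [hτe]; positivity
  have hs := nsum hb
  -- a small time
  obtain ⟨y, hy1, hy2⟩ : ∃ y : ℝ, |y| < τ ∧ fl k (y : ℂ) b ∈ ball (0 : V 2) 1 := by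
    by_contra hno
    push Not at hno
    obtain ⟨g, hg⟩ : ∃ g : ℝ → ℝ, g = fun x => Real.exp (2 * k.2 * x) * ‖b 0‖ ^ 2 +
        Real.exp (-(2 * k.1 * x)) * ‖b 1‖ ^ 2 := ⟨_, rfl⟩
    have hg0 : g 0 = 1 := by rw [hg]; simp [hs]
    have h1 : IsLocalMin g 0 := by
      have h2 : ∀ᶠ x in 𝓝 (0 : ℝ), |x| < τ := by
        have h3 : Tendsto (fun x : ℝ => |x|) (𝓝 0) (𝓝 |0|) := continuous_abs.tendsto 0
        rw [abs_zero] at h3
        exact h3.eventually (gt_mem_nhds hτ)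
      filter_upwards [h2] with x hx
      have h3 := hno x hx
      rw [fl_mem, not_lt, ofReal_re] at h3
      rw [hg0, hg]
      exact h3
    have h2 : HasDerivAt g (2 * k.2 * ‖b 0‖ ^ 2 - 2 * k.1 * ‖b 1‖ ^ 2) 0 := by
      rw [hg]
      have d1 : HasDerivAt (fun x : ℝ => 2 * k.2 * x) (2 * k.2) 0 := by
        simpa using (hasDerivAt_id (0 : ℝ)).const_mul (2 * k.2)
      have d2 : HasDerivAt (fun x : ℝ => -(2 * k.1 * x)) (-(2 * k.1)) 0 := by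
        have d0 : HasDerivAt (fun x : ℝ => 2 * k.1 * x) (2 * k.1) 0 := by
          simpa using (hasDerivAt_id (0 : ℝ)).const_mul (2 * k.1)
        exact d0.fun_neg
      have d3 := (d1.exp.mul_const (‖b 0‖ ^ 2)).add (d2.exp.mul_const (‖b 1‖ ^ 2))
      refine d3.congr_deriv ?_
      simp
      ring
    have h3 := h1.hasDerivAt_eq_zero h2
    exact hbk (by linarith)
  have hCy : C * |y| / η ≤ e / 8 := by
    rw [div_le_iff₀ hη]
    have h1 : C * |y| ≤ (|C| + 1) * |y| := by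
      have := le_abs_self C
      have := abs_nonneg y
      nlinarith
    have h2 : (|C| + 1) * |y| ≤ (|C| + 1) * τ := by gcongr
    have h3 : (|C| + 1) * τ = e / 8 * η := by rw [hτe]; field_simp
    linarith
  -- continuity
  have hflc : Continuous (fun z : V 2 => fl k (y : ℂ) z) :=
    (fl_diff k).continuous.comp (by fun_prop : Continuous fun z : V 2 => ((y : ℂ), z))
  have hev : ∀ᶠ z in 𝓝 b, fl k (y : ℂ) z ∈ ball (0 : V 2) 1 ∧
      ‖F (fl k (y : ℂ) z) - F (fl k (y : ℂ) b)‖ < e / 8 := by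
    have h1 : ∀ᶠ z in 𝓝 b, fl k (y : ℂ) z ∈ ball (0 : V 2) 1 :=
      hflc.continuousAt (isOpen_ball.mem_nhds hy2)
    have h2 : ContinuousAt (fun z => F (fl k (y : ℂ) z)) b :=
      ContinuousAt.comp (f := fun z : V 2 => fl k (y : ℂ) z) (g := F)
        (hF.continuousOn.continuousAt (isOpen_ball.mem_nhds hy2)) hflc.continuousAt
    have h3 : ∀ᶠ z in 𝓝 b, F (fl k (y : ℂ) z) ∈ ball (F (fl k (y : ℂ) b)) (e / 8) :=
      h2 (ball_mem_nhds _ (by positivity))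
    filter_upwards [h1, h3] with z h4 h5
    rw [mem_ball, dist_eq_norm] at h5
    exact ⟨h4, h5⟩
  obtain ⟨r, hr, hr2⟩ := Metric.eventually_nhds_iff.1 hev
  have hone : ∀ z ∈ ball (0 : V 2) 1, ‖z - b‖ < r → ‖F z - F (fl k (y : ℂ) b)‖ ≤ e / 2 := by
    intro z hz hzb
    obtain ⟨h1, h2⟩ := hr2 (by rwa [dist_eq_norm] : dist z b < r)
    have h3 := fl_path hF hC hη hη2 hz h1
    have h4 : F z - F (fl k (y : ℂ) b) = (F (fl k (y : ℂ) z) - F (fl k (y : ℂ) b)) -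
        (F (fl k (y : ℂ) z) - F z) := by ring
    rw [h4]
    have h5 := norm_sub_le (F (fl k (y : ℂ) z) - F (fl k (y : ℂ) b)) (F (fl k (y : ℂ) z) - F z)
    linarith
  refine ⟨r, hr, fun z hz z' hz' hzb hzb' => ?_⟩
  have h1 := hone z hz hzb
  have h2 := hone z' hz' hzb'
  have h4 : F z - F z' = (F z - F (fl k (y : ℂ) b)) - (F z' - F (fl k (y : ℂ) b)) := by ring
  rw [h4]
  have h5 := norm_sub_le (F z - F (fl k (y : ℂ) b)) (F z' - F (fl k (y : ℂ) b))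
  linarith

end Pool.Agent.R223.Tor
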