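import Mathlib
import Pool.Agent.R223.Tor.Ex

/-!
Functions on which a torus flow acts norm-continuously are asymptotic to functions of a monomial,
part 2.
-/

set_option autoImplicit false
set_option linter.unusedSectionVars false

open Metric Set Filter Topology Complex

namespace Pool.Agent.R223.Tor

open Pool.Agent.TH310.Cor

theorem Wb_cont {b : V 2} (h0 : b 0 ≠ 0) (h1 : b 1 ≠ 0) : ContinuousAt (Wb b) b := by
  have hs0 : b 0 / b 0 ∈ slitPlane := by rw [div_self h0]; exact one_mem_slitPlane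
  have hs1 : b 1 / b 1 ∈ slitPlane := by rw [div_self h1]; exact one_mem_slitPlane
  exact (Wb_at hs0 hs1).continuousAt

theorem nz_near {b : V 2} (h0 : b 0 ≠ 0) (h1 : b 1 ≠ 0) :
    ∀ᶠ z : V 2 in 𝓝 b, z 0 ≠ 0 ∧ z 1 ≠ 0 := by
  have c0 : ContinuousAt (fun z : V 2 => z 0) b := by fun_prop
  have c1 : ContinuousAt (fun z : V 2 => z 1) b := by fun_prop
  exact (c0.eventually_ne h0).and (c1.eventually_ne h1)

theorem fl_Zb {k : ℝ × ℝ} {b : V 2} (hb : ‖b‖ = 1) (hbk : k.2 * ‖b 0‖ ^ 2 = k.1 * ‖b 1‖ ^ 2)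
    (ζ w β : ℂ) : fl k ζ (Zb b (w, β)) = Zb b (w, β + (k.1 + k.2) * ζ) := by
  have hs := nsum hb
  have e0 : (k.1 + k.2) * ‖b 0‖ ^ 2 = k.1 := by linear_combination hbk + k.1 * hs
  have e1 : (k.1 + k.2) * ‖b 1‖ ^ 2 = k.2 := by linear_combination -hbk + k.2 * hs
  have e0' : ((k.1 : ℂ) + k.2) * ((‖b 0‖ ^ 2 : ℝ) : ℂ) = k.1 := by exact_mod_cast e0
  have e1' : ((k.1 : ℂ) + k.2) * ((‖b 1‖ ^ 2 : ℝ) : ℂ) = k.2 := by exact_mod_cast e1
  ext i
  fin_cases i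
  · change Complex.exp (k.2 * ζ) * (b 0 * Complex.exp (I * w + ((‖b 1‖ ^ 2 : ℝ) : ℂ) * β)) =
      b 0 * Complex.exp (I * w + ((‖b 1‖ ^ 2 : ℝ) : ℂ) * (β + (k.1 + k.2) * ζ))
    rw [mul_left_comm, ← Complex.exp_add]
    congr 2
    linear_combination (-ζ) * e1'
  · change Complex.exp (-(k.1 * ζ)) * (b 1 * Complex.exp (I * w - ((‖b 0‖ ^ 2 : ℝ) : ℂ) * β)) =
      b 1 * Complex.exp (I * w - ((‖b 0‖ ^ 2 : ℝ) : ℂ) * (β + (k.1 + k.2) * ζ))
    rw [mul_left_comm, ← Complex.exp_add]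
    congr 2
    linear_combination ζ * e0'

theorem Zb_zero (b : V 2) (w : ℂ) : Zb b (w, 0) = Complex.exp (I * w) • b := by
  ext i
  fin_cases i
  · change b 0 * Complex.exp (I * w + ((‖b 1‖ ^ 2 : ℝ) : ℂ) * 0) = Complex.exp (I * w) * b 0
    rw [mul_zero, add_zero, mul_comm]
  · change b 1 * Complex.exp (I * w - ((‖b 0‖ ^ 2 : ℝ) : ℂ) * 0) = Complex.exp (I * w) * b 1
    rw [mul_zero, sub_zero, mul_comm]

/-- asymptotics on the singular torus -/
theorem asy_on {k : ℝ × ℝ} {F : V 2 → ℂ} (hF : DifferentiableOn ℂ F (ball 0 1)) {C : ℝ}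
    (hC : ∀ z ∈ ball (0 : V 2) 1, ‖F z‖ ≤ C) (hc : FC k F) {b : V 2} (hb : ‖b‖ = 1)
    (h0 : b 0 ≠ 0) (h1 : b 1 ≠ 0) (hk : 0 < k.1 + k.2)
    (hbk : k.2 * ‖b 0‖ ^ 2 = k.1 * ‖b 1‖ ^ 2) {e : ℝ} (he : 0 < e) :
    ∃ r : ℝ, 0 < r ∧ ∀ z ∈ ball (0 : V 2) 1, ‖z - b‖ < r → ‖F z - F (psi b z • b)‖ ≤ e := by
  obtain ⟨η, hη, hη2⟩ := hc (e / 4) (by positivity)
  obtain ⟨τ, hτe⟩ : ∃ τ : ℝ, τ = (k.1 + k.2) * min η (e / 4 * η / (|C| + 1)) := ⟨_, rfl⟩
  have hτ : 0 < τ := by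
    rw [hτe]
    exact mul_pos hk (lt_min hη (by positivity))
  have hs := nsum hb
  have hp0 : 0 < ‖b 0‖ ^ 2 := by positivity
  have hq0 : 0 < ‖b 1‖ ^ 2 := by positivity
  have hG := Gam_GS hp0 (by linarith : ‖b 0‖ ^ 2 < 1)
  have hev : ∀ᶠ z : V 2 in 𝓝 b, (z 0 ≠ 0 ∧ z 1 ≠ 0) ∧ ‖(Wb b z).2‖ < τ := by
    refine (nz_near h0 h1).and ?_
    have h2 : Tendsto (fun z => ‖(Wb b z).2‖) (𝓝 b) (𝓝 ‖(Wb b b).2‖) :=
      ((Wb_cont h0 h1).snd).norm
    rw [Wb_b h0 h1] at h2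
    simp only [Prod.snd_zero, norm_zero] at h2
    exact h2.eventually (gt_mem_nhds hτ)
  obtain ⟨r, hr, hr2⟩ := Metric.eventually_nhds_iff.1 hev
  refine ⟨r, hr, fun z hz hzb => ?_⟩
  obtain ⟨⟨hz0, hz1⟩, hW⟩ := hr2 (by rwa [dist_eq_norm] : dist z b < r)
  obtain ⟨w, hw⟩ : ∃ w, w = (Wb b z).1 := ⟨_, rfl⟩
  obtain ⟨β, hβ⟩ : ∃ β, β = (Wb b z).2 := ⟨_, rfl⟩
  rw [← hβ] at hW
  have hzW : Zb b (w, β) = z := by
    rw [hw, hβ]
    exact Zb_Wb hb h0 h1 hz0 hz1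
  have hψ : psi b z • b = Zb b (w, 0) := by rw [psi_Wb, ← hw, Zb_zero]
  have hΓ : Gam (‖b 0‖ ^ 2) β.re < w.im := by
    have := (Zb_mem hb h0 h1 (w, β)).1 (by rw [hzW]; exact hz)
    exact this
  have hkc : ((k.1 : ℂ) + k.2) ≠ 0 := by exact_mod_cast hk.ne'
  obtain ⟨z', hz'⟩ : ∃ z' : V 2, z' = Zb b (w, ((β.re : ℝ) : ℂ)) := ⟨_, rfl⟩
  have hz'm : z' ∈ ball (0 : V 2) 1 := by
    rw [hz', Zb_mem hb h0 h1]
    simpa using hΓ
  have hw0 : Zb b (w, 0) ∈ ball (0 : V 2) 1 := by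
    rw [Zb_mem hb h0 h1]
    simp only [zero_re, hG.z]
    exact lt_of_le_of_lt (hG.nonneg _) hΓ
  have a1 : |β.im| / (k.1 + k.2) ≤ min η (e / 4 * η / (|C| + 1)) := by
    rw [div_le_iff₀ hk]
    have := abs_im_le_norm β
    rw [hτe] at hW
    linarith
  have a2 : |β.re| / (k.1 + k.2) ≤ min η (e / 4 * η / (|C| + 1)) := by
    rw [div_le_iff₀ hk]
    have := abs_re_le_norm β
    rw [hτe] at hW
    linarith
  -- step 1
  have s1 : ‖F z' - F z‖ ≤ e / 4 := by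
    have h2 := hη2 (-(β.im / (k.1 + k.2))) (by
      rw [abs_neg, abs_div, abs_of_pos hk]
      exact a1.trans (min_le_left _ _)) z hz
    have h3 : fl k (((-(β.im / (k.1 + k.2)) : ℝ) : ℂ) * I) z = z' := by
      rw [← hzW, fl_Zb hb hbk, hz']
      congr 2
      push_cast
      have h4 : β + ((k.1 : ℂ) + k.2) * (-(β.im / (k.1 + k.2)) * I) = β - β.im * I := by
        field_simp
        ring
      rw [h4, sub_eq_iff_eq_add]
      exact (re_add_im β).symm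
    rw [h3] at h2
    exact h2
  have s2 : ‖F (Zb b (w, 0)) - F z'‖ ≤ 3 * e / 4 := by
    have h3 : fl k (((-(β.re / (k.1 + k.2)) : ℝ) : ℂ)) z' = Zb b (w, 0) := by
      rw [hz', fl_Zb hb hbk]
      congr 2
      push_cast
      field_simp
      ring
    have h2 := fl_path hF hC hη hη2 (y := -(β.re / (k.1 + k.2))) hz'm (by rw [h3]; exact hw0)
    rw [h3] at h2
    have h4 : C * |-(β.re / (k.1 + k.2))| / η ≤ e / 4 := by
      rw [div_le_iff₀ hη, abs_neg, abs_div, abs_of_pos hk]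
      have h5 : C * (|β.re| / (k.1 + k.2)) ≤ (|C| + 1) * (|β.re| / (k.1 + k.2)) := by
        have := le_abs_self C
        have : 0 ≤ |β.re| / (k.1 + k.2) := by positivity
        nlinarith
      have h6 : (|C| + 1) * (|β.re| / (k.1 + k.2)) ≤ (|C| + 1) * (e / 4 * η / (|C| + 1)) := by
        have := a2.trans (min_le_right _ _)
        gcongr
      have h7 : (|C| + 1) * (e / 4 * η / (|C| + 1)) = e / 4 * η := by field_simp
      linarith
    linarith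
  rw [hψ]
  have h4 : F z - F (Zb b (w, 0)) = -((F z' - F z) + (F (Zb b (w, 0)) - F z')) := by ring
  rw [h4, norm_neg]
  have h5 := norm_add_le (F z' - F z) (F (Zb b (w, 0)) - F z')
  linarith

/-- `psi b z • b` stays in the ball and tends to `b` -/
theorem psi_near {b : V 2} (hb : ‖b‖ = 1) :
    (∀ᶠ z in 𝓝[ball 0 1] b, ‖psi b z‖ < 1) ∧ Tendsto (psi b) (𝓝[ball 0 1] b) (𝓝 1) := by
  have hone : ∀ i k : Fin 2, i ≠ k → b k = 0 →
      (∀ᶠ z in 𝓝[ball 0 1] b, ‖psi b z‖ < 1) ∧ Tendsto (psi b) (𝓝[ball 0 1] b) (𝓝 1) := by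
    intro i k hik hk
    have hev : ∀ᶠ z in 𝓝[ball 0 1] b, psi b z = inner ℂ b z := by
      have h2 : ∀ᶠ z in 𝓝[ball 0 1] b, ‖z - b‖ < 1 := by
        refine nhdsWithin_le_nhds ?_
        filter_upwards [ball_mem_nhds b one_pos] with z hz
        rwa [mem_ball, dist_eq_norm] at hz
      filter_upwards [h2] with z hz
      exact psi_coord hb hik hk hz
    constructor
    · filter_upwards [hev, self_mem_nhdsWithin] with z hz hzm
      rw [hz]
      rw [mem_ball_zero_iff] at hzm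
      calc ‖(inner ℂ b z : ℂ)‖ ≤ ‖b‖ * ‖z‖ := norm_inner_le_norm _ _
        _ = ‖z‖ := by rw [hb, one_mul]
        _ < 1 := hzm
    · have h3 : Tendsto (fun z : V 2 => (inner ℂ b z : ℂ)) (𝓝[ball 0 1] b) (𝓝 (inner ℂ b b)) :=
        ((innerSL ℂ b).continuous.tendsto b).mono_left nhdsWithin_le_nhds
      rw [inner_self_eq_norm_sq_to_K, hb] at h3
      simp only [RCLike.ofReal_one, one_pow] at h3
      exact h3.congr' (hev.mono fun z hz => hz.symm)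
  by_cases h0 : b 0 = 0
  · exact hone 1 0 (by decide) h0
  · by_cases h1 : b 1 = 0
    · exact hone 0 1 (by decide) h1
    · have hs := nsum hb
      have hp0 : 0 < ‖b 0‖ ^ 2 := by positivity
      have hq0 : 0 < ‖b 1‖ ^ 2 := by positivity
      have hG := Gam_GS hp0 (by linarith : ‖b 0‖ ^ 2 < 1)
      constructor
      · filter_upwards [nhdsWithin_le_nhds (nz_near h0 h1), self_mem_nhdsWithin] with z hz hzm
        rw [psi_Wb, eI_norm, Real.exp_lt_one_iff]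
        have h2 := Zb_Wb hb h0 h1 hz.1 hz.2
        rw [← h2, Zb_mem hb h0 h1] at hzm
        have := hG.nonneg (Wb b z).2.re
        linarith
      · have h2 : Tendsto (fun z => Complex.exp (I * (Wb b z).1)) (𝓝 b)
            (𝓝 (Complex.exp (I * (Wb b b).1))) :=
          (((Wb_cont h0 h1).fst).const_mul I).cexp
        rw [Wb_b h0 h1] at h2
        simp only [Prod.fst_zero, mul_zero, Complex.exp_zero] at h2
        refine (h2.congr fun z => (psi_Wb b z).symm).mono_left nhdsWithin_le_nhds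

/-- vanishing oscillation implies the asymptotics in any chart -/
theorem osc_asy {F : V 2 → ℂ} {b β : V 2} (hβ : ‖β‖ = 1) {φ : V 2 → V 2}
    (hm : MapsTo φ (ball 0 1) (ball 0 1)) (hlim : Tendsto φ (𝓝[ball 0 1] β) (𝓝 b))
    (hF : Osc F b) {e : ℝ} (he : 0 < e) :
    ∃ r : ℝ, 0 < r ∧ ∀ z ∈ ball (0 : V 2) 1, ‖z - β‖ < r →
      ‖F (φ z) - F (φ (psi β z • β))‖ ≤ e := by
  obtain ⟨ρ, hρ, hF2⟩ := hF e he
  obtain ⟨p1, p2⟩ := psi_near hβ
  have h1 : ∀ᶠ z in 𝓝[ball 0 1] β, ‖φ z - b‖ < ρ := by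
    filter_upwards [hlim (ball_mem_nhds b hρ)] with z hz
    rwa [mem_preimage, mem_ball, dist_eq_norm] at hz
  have h2 : Tendsto (fun z => psi β z • β) (𝓝[ball 0 1] β) (𝓝[ball 0 1] β) := by
    rw [tendsto_nhdsWithin_iff]
    constructor
    · have h3 := p2.smul_const β
      rwa [one_smul] at h3
    · filter_upwards [p1] with z hz
      rw [mem_ball_zero_iff, norm_smul, hβ, mul_one]
      exact hz
  have h3 : ∀ᶠ z in 𝓝[ball 0 1] β, ‖z‖ < 1 ∧ ‖psi β z‖ < 1 ∧ ‖φ z - b‖ < ρ ∧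
      ‖φ (psi β z • β) - b‖ < ρ := by
    filter_upwards [p1, h1, h2.eventually h1, self_mem_nhdsWithin] with z a1 a2 a3 a4
    exact ⟨mem_ball_zero_iff.1 a4, a1, a2, a3⟩
  rw [eventually_nhdsWithin_iff, Metric.eventually_nhds_iff] at h3
  obtain ⟨r, hr, h4⟩ := h3
  refine ⟨r, hr, fun z hz hzb => ?_⟩
  obtain ⟨-, a1, a2, a3⟩ := h4 (by rwa [dist_eq_norm] : dist z β < r) hz
  refine hF2 _ (hm hz) _ (hm ?_) a2 a3
  rw [mem_ball_zero_iff, norm_smul, hβ, mul_one]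
  exact a1

theorem osc_symm {F : V 2 → ℂ} {b : V 2} (U : V 2 ≃ₗᵢ[ℂ] V 2)
    (h : Osc (fun z => F (U z)) (U.symm b)) : Osc F b := by
  intro e he
  obtain ⟨r, hr, h1⟩ := h e he
  refine ⟨r, hr, fun z hz z' hz' hzb hzb' => ?_⟩
  have key : ∀ z : V 2, ‖U.symm z - U.symm b‖ = ‖z - b‖ := fun z => by
    rw [← map_sub, U.symm.norm_map]
  have key2 : ∀ z ∈ ball (0 : V 2) 1, U.symm z ∈ ball (0 : V 2) 1 := fun z hz => by
    rw [mem_ball_zero_iff] at hz ⊢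
    rwa [U.symm.norm_map]
  have h2 := h1 (U.symm z) (key2 z hz) (U.symm z') (key2 z' hz') (by rwa [key]) (by rwa [key])
  simpa using h2

/-- functions on which a torus flow in unitary coordinates acts norm-continuously -/
def FlowC (U : V 2 ≃ₗᵢ[ℂ] V 2) (k : ℝ × ℝ) : Set (V 2 → ℂ) :=
  {F | (DifferentiableOn ℂ F (ball 0 1) ∧ ∃ C : ℝ, ∀ z ∈ ball (0 : V 2) 1, ‖F z‖ ≤ C) ∧
    FC k (fun z => F (U z)) ∧
    (k.1 = 0 → ∀ z ∈ ball (0 : V 2) 1, F (U z) = F (U !₂[0, z 1])) ∧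
    (k.2 = 0 → ∀ z ∈ ball (0 : V 2) 1, F (U z) = F (U !₂[z 0, 0]))}

theorem flow_D {φ : V 2 → V 2 → V 2} {β : V 2 → V 2}
    (hm : ∀ b : V 2, ‖b‖ = 1 → MapsTo (φ b) (ball 0 1) (ball 0 1))
    (hβ : ∀ b : V 2, ‖b‖ = 1 → ‖β b‖ = 1)
    (hlim : ∀ b : V 2, ‖b‖ = 1 → Tendsto (φ b) (𝓝[ball 0 1] (β b)) (𝓝 b))
    (U : V 2 ≃ₗᵢ[ℂ] V 2) {k : ℝ × ℝ} (hk1 : 0 ≤ k.1) (hk2 : 0 ≤ k.2) (hk : k ≠ 0)
    (hU : ∀ b : V 2, ‖b‖ = 1 → k.2 * ‖(U.symm b) 0‖ ^ 2 = k.1 * ‖(U.symm b) 1‖ ^ 2 →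
      β b = U.symm b ∧ ∀ z ∈ ball (0 : V 2) 1, φ b z = U z) :
    FlowC U k ⊆ Dc φ β := by
  rintro F ⟨⟨hF, C, hC⟩, hc, hz1, hz2⟩
  refine ⟨⟨hF, C, hC⟩, fun b hb e he => ?_⟩
  have hUb : ‖U.symm b‖ = 1 := by rw [U.symm.norm_map, hb]
  have hUm : ∀ z ∈ ball (0 : V 2) 1, U z ∈ ball (0 : V 2) 1 := fun z hz => by
    rw [mem_ball_zero_iff] at hz ⊢
    rwa [U.norm_map]
  have hF' : DifferentiableOn ℂ (fun z => F (U z)) (ball 0 1) :=
    hF.comp U.differentiable.differentiableOn hUm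
  have hC' : ∀ z ∈ ball (0 : V 2) 1, ‖(fun z => F (U z)) z‖ ≤ C := fun z hz => hC _ (hUm z hz)
  by_cases hbk : k.2 * ‖(U.symm b) 0‖ ^ 2 = k.1 * ‖(U.symm b) 1‖ ^ 2
  · obtain ⟨hβb, hφ⟩ := hU b hb hbk
    obtain ⟨p1, -⟩ := psi_near (hβ b hb)
    rw [eventually_nhdsWithin_iff, Metric.eventually_nhds_iff] at p1
    obtain ⟨ρ, hρ, p2⟩ := p1
    obtain ⟨c, hce⟩ : ∃ c, c = U.symm b := ⟨_, rfl⟩
    rw [← hce] at hβb hUb hbk
    rw [hβb] at p2 ⊢
    have hsum := nsum hUb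
    -- reduction to the coordinates given by U
    have red : (∃ r : ℝ, 0 < r ∧ ∀ z ∈ ball (0 : V 2) 1, ‖z - c‖ < r →
        ‖F (U z) - F (U (psi c z • c))‖ ≤ e) → ∃ r : ℝ, 0 < r ∧ ∀ z ∈ ball (0 : V 2) 1,
        ‖z - c‖ < r → ‖F (φ b z) - F (φ b (psi c z • c))‖ ≤ e := by
      rintro ⟨r, hr, h⟩
      refine ⟨min r ρ, lt_min hr hρ, fun z hz hzb => ?_⟩
      have hm2 : psi c z • c ∈ ball (0 : V 2) 1 := by
        rw [mem_ball_zero_iff, norm_smul, hUb, mul_one]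
        exact p2 (by rw [dist_eq_norm]; exact lt_of_lt_of_le hzb (min_le_right _ _)) hz
      rw [hφ z hz, hφ _ hm2]
      exact h z hz (lt_of_lt_of_le hzb (min_le_left _ _))
    refine red ?_
    have hk' : 0 < k.1 + k.2 := by
      rcases hk1.lt_or_eq with h | h
      · linarith
      · rcases hk2.lt_or_eq with h' | h'
        · linarith
        · exact absurd (Prod.ext h.symm h'.symm) hk
    by_cases hc0 : c 0 = 0
    · -- then k.1 = 0
      have hc1 : ‖c 1‖ ^ 2 = 1 := by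
        rw [hc0, norm_zero] at hsum
        linarith
      have hk10 : k.1 = 0 := by
        rw [hc0, hc1, norm_zero] at hbk
        linarith
      refine ⟨1, one_pos, fun z hz hzb => ?_⟩
      have h2 : psi c z • c = !₂[0, z 1] := by
        rw [psi_coord hUb (i := 1) (k := 0) (by decide) hc0 hzb]
        have h3 : (inner ℂ c z : ℂ) = (starRingEnd ℂ) (c 1) * z 1 := by
          simp [PiLp.inner_apply, Fin.sum_univ_two, hc0, mul_comm]
        have h4 : (starRingEnd ℂ) (c 1) * c 1 = 1 := by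
          rw [Complex.conj_mul']
          exact_mod_cast hc1
        rw [h3]
        ext i
        fin_cases i
        · change (starRingEnd ℂ) (c 1) * z 1 * c 0 = 0
          rw [hc0, mul_zero]
        · change (starRingEnd ℂ) (c 1) * z 1 * c 1 = z 1
          linear_combination (z 1) * h4
      rw [h2, ← hz1 hk10 z hz, sub_self, norm_zero]
      exact he.le
    · by_cases hc1 : c 1 = 0
      · have hc1' : ‖c 0‖ ^ 2 = 1 := by
          rw [hc1, norm_zero] at hsum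
          linarith
        have hk20 : k.2 = 0 := by
          rw [hc1, hc1', norm_zero] at hbk
          linarith
        refine ⟨1, one_pos, fun z hz hzb => ?_⟩
        have h2 : psi c z • c = !₂[z 0, 0] := by
          rw [psi_coord hUb (i := 0) (k := 1) (by decide) hc1 hzb]
          have h3 : (inner ℂ c z : ℂ) = (starRingEnd ℂ) (c 0) * z 0 := by
            simp [PiLp.inner_apply, Fin.sum_univ_two, hc1, mul_comm]
          have h4 : (starRingEnd ℂ) (c 0) * c 0 = 1 := by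
            rw [Complex.conj_mul']
            exact_mod_cast hc1'
          rw [h3]
          ext i
          fin_cases i
          · change (starRingEnd ℂ) (c 0) * z 0 * c 0 = z 0
            linear_combination (z 0) * h4
          · change (starRingEnd ℂ) (c 0) * z 0 * c 1 = 0
            rw [hc1, mul_zero]
        rw [h2, ← hz2 hk20 z hz, sub_self, norm_zero]
        exact he.le
      · exact asy_on hF' hC' hc hUb hc0 hc1 hk' hbk he
  · exact osc_asy (hβ b hb) (hm b hb) (hlim b hb) (osc_symm U (osc_off hF' hC' hc hUb hbk)) he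

/-- functions of monomials -/
theorem mon_flow (U : V 2 ≃ₗᵢ[ℂ] V 2) {a b : ℕ} {c : ℂ}
    (hc : ∀ z ∈ ball (0 : V 2) 1, ‖c * z 0 ^ a * z 1 ^ b‖ < 1) {f : ℂ → ℂ}
    (hf : DifferentiableOn ℂ f (ball 0 1)) (hfb : ∃ C : ℝ, ∀ w ∈ ball (0 : ℂ) 1, ‖f w‖ ≤ C) :
    (fun z => f (c * (U.symm z) 0 ^ a * (U.symm z) 1 ^ b)) ∈ FlowC U ((a : ℝ), (b : ℝ)) := by
  obtain ⟨C, hC⟩ := hfb
  have hUm : ∀ z ∈ ball (0 : V 2) 1, U.symm z ∈ ball (0 : V 2) 1 := fun z hz => by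
    rw [mem_ball_zero_iff] at hz ⊢
    rwa [U.symm.norm_map]
  refine ⟨⟨?_, C, fun z hz => hC _ (mem_ball_zero_iff.2 (hc _ (hUm z hz)))⟩, ?_, ?_, ?_⟩
  · have h1 : DifferentiableOn ℂ (fun z : V 2 => c * (U.symm z) 0 ^ a * (U.symm z) 1 ^ b)
        (ball 0 1) := by
      have h2 : Differentiable ℂ (fun z : V 2 => c * z 0 ^ a * z 1 ^ b) := by fun_prop
      exact (h2.comp U.symm.differentiable).differentiableOn
    exact hf.comp h1 fun z hz => mem_ball_zero_iff.2 (hc _ (hUm z hz))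
  · intro ε hε
    refine ⟨1, one_pos, fun θ _ z _ => ?_⟩
    simp only [LinearIsometryEquiv.symm_apply_apply]
    have h1 : c * (fl ((a : ℝ), (b : ℝ)) (θ * I) z) 0 ^ a *
        (fl ((a : ℝ), (b : ℝ)) (θ * I) z) 1 ^ b = c * z 0 ^ a * z 1 ^ b := by
      change c * (Complex.exp (((b : ℝ) : ℂ) * (θ * I)) * z 0) ^ a *
        (Complex.exp (-(((a : ℝ) : ℂ) * (θ * I))) * z 1) ^ b = _
      rw [mul_pow, mul_pow, ← Complex.exp_nat_mul, ← Complex.exp_nat_mul]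
      have h2 : Complex.exp ((a : ℂ) * (((b : ℝ) : ℂ) * (θ * I))) *
          Complex.exp ((b : ℂ) * (-(((a : ℝ) : ℂ) * (θ * I)))) = 1 := by
        rw [← Complex.exp_add, ← Complex.exp_zero]
        congr 1
        push_cast
        ring
      linear_combination (c * z 0 ^ a * z 1 ^ b) * h2
    rw [h1, sub_self, norm_zero]
    exact hε.le
  · intro ha z _
    have ha' : a = 0 := Nat.cast_eq_zero.1 (show (a : ℝ) = 0 from ha)
    simp only [LinearIsometryEquiv.symm_apply_apply, ha', pow_zero]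
    rfl
  · intro hb z _
    have hb' : b = 0 := Nat.cast_eq_zero.1 (show (b : ℝ) = 0 from hb)
    simp only [LinearIsometryEquiv.symm_apply_apply, hb', pow_zero]
    rfl

end Pool.Agent.R223.Tor
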